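import Pool.Agent.H13.G4.Sub
import Pool.Agent.H72.G4.Struct

/-!
# The contraction theorem in the form of the interface
-/

set_option autoImplicit false

namespace Pool.Agent.H13.G4

open Relation Pool.Agent.H13.DA Pool.Agent.H72.G4

variable {V : Type*} [DecidableEq V] {T : Finset (V × V × V)}

theorem fanT [Infinite V] : FanT V := by
  intro T l v p hD hl _ hvl hvp hc
  obtain ⟨T', h1, h2, h3, h4, _, _⟩ := fan_disc hD hl hvl hvp (by
    intro q hq hpq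
    rcases hc q hq (adj_vert hD.cx hpq).2.2.symm hpq with k | k
    · exact Or.inl k
    · exact Or.inr k)
  refine ⟨T', h1, h2, ?_, ?_⟩
  · rw [h3]
    exact Finset.notMem_erase v _
  · intro x y
    rw [h4]
    have hpv : p ≠ v := (adj_vert hD.cx hvp).2.2.symm
    constructor
    · rintro ⟨e1, e2, k | ⟨rfl, k1, k2⟩ | ⟨rfl, k1, k2⟩⟩
      · exact Or.inl ⟨k, e1, e2⟩
      · exact Or.inr (Or.inl ⟨rfl, k2, k1⟩)
      · exact Or.inr (Or.inr ⟨rfl, k2, k1⟩)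
    · rintro (⟨k, e1, e2⟩ | ⟨rfl, k2, k1⟩ | ⟨rfl, k2, k1⟩)
      · exact ⟨e1, e2, Or.inl k⟩
      · exact ⟨hpv, (adj_vert hD.cx k2).2.2.symm, Or.inr (Or.inl ⟨rfl, k1, k2⟩)⟩
      · exact ⟨(adj_vert hD.cx k2).2.2.symm, hpv, Or.inr (Or.inr ⟨rfl, k1, k2⟩)⟩

end Pool.Agent.H13.G4
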