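import Pool.Agent.H13.G4.FanT
import Pool.Agent.H72.G4.Struct

/-!
# The carrier of the path contraction (PC)

`Ts T D a b c`, `u` inner and good, `d` the dummy of the quad `u, o, s, i`, the other faces of the
edges `o s` and `s i` are real, no vertex except `d` is adjacent to `u`, `o` and `i`.  Then the
whole quad (with `d`) can be contracted in `T` to one vertex `t ∈ {o, s, i}`.
-/

set_option autoImplicit false

namespace Pool.Agent.H13.G4

open Relation Pool.Agent.H13.DA Pool.Agent.H72.G4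

variable {V : Type*} [DecidableEq V] {T : Finset (V × V × V)} {D : V → V → Prop} {a b c : V}

/-- `T'` is `T` with `v` contracted into `p` -/
structure CS (T T' : Finset (V × V × V)) (v p : V) : Prop where
  disc : Disc T'
  bd : ∀ l, IsBd T l → IsBd T' l
  ver : verts T' = (verts T).erase v
  adj : ∀ x y, Adj T' x y ↔ x ≠ v ∧ y ≠ v ∧
    (Adj T x y ∨ (x = p ∧ y ≠ p ∧ Adj T v y) ∨ (y = p ∧ x ≠ p ∧ Adj T v x))
  keep : ∀ x y z, Face T x y z → x ≠ v → y ≠ v → z ≠ v → Face T' x y z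
  new : ∀ x y, Face T v x y → x ≠ p → y ≠ p → Face T' p x y

theorem step [Infinite V] (hD : Disc T) {l : List V} (hl : IsBd T l) {v p : V} (hvl : v ∉ l)
    (h : Adj T v p) (hc : ∀ q, Adj T v q → Adj T p q → Face T v p q) :
    ∃ T' : Finset (V × V × V), CS T T' v p := by
  obtain ⟨T', h1, h2, h3, h4, h5, _, h7⟩ := fan_disc' hD hl hvl h hc
  refine ⟨T', h1, h2, h3, h4, ?_, ?_⟩
  · rintro x y z (k | k) hx hy hz
    · exact Or.inl (h5 _ _ _ k hx hy hz)
    · exact Or.inr (h5 _ _ _ k hx hz hy)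
  · rintro x y (k | k) hx hy
    · exact Or.inl (h7 _ _ k hx hy)
    · exact Or.inr (h7 _ _ k hy hx)

omit [DecidableEq V] in
theorem fc_rot (hT : IsCx T) {x y z : V} (h : Face T x y z) : Face T y z x := by
  rcases h with h | h
  · exact Or.inl (hT.rot h)
  · exact Or.inr (hT.rot (hT.rot h))

omit [DecidableEq V] in
/-- an edge has at most two faces -/
theorem two_faces (hT : IsCx T) {x y p q r : V} (hp : Face T x y p) (hq : Face T x y q)
    (hr : Face T x y r) : p = q ∨ q = r ∨ p = r := by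
  have g : ∀ {z : V}, (x, z, y) ∈ T → (y, x, z) ∈ T := fun h => (rot3 hT h).2
  rcases hp with hp | hp <;> rcases hq with hq | hq <;> rcases hr with hr | hr
  · exact Or.inl (hT.uniq hp hq)
  · exact Or.inl (hT.uniq hp hq)
  · exact Or.inr (Or.inr (hT.uniq hp hr))
  · exact Or.inr (Or.inl (hT.uniq (g hq) (g hr)))
  · exact Or.inr (Or.inl (hT.uniq hq hr))
  · exact Or.inr (Or.inr (hT.uniq (g hp) (g hr)))
  · exact Or.inl (hT.uniq (g hp) (g hq))
  · exact Or.inl (hT.uniq (g hp) (g hq))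

/-- the configuration of a path contraction -/
structure Pcf (T : Finset (V × V × V)) (D : V → V → Prop) (a b c : V) (u d o s i : V) : Prop where
  inn : ¬ Tr a b c u
  ure : Re D u
  good : Good T D u
  dum : ¬ Re D d
  nb : ∀ y, Adj T d y ↔ y = u ∨ y = o ∨ y = s ∨ y = i
  uo : Ar D u o
  os : Ar D o s
  si : Ar D s i
  iu : Ar D i u
  us : ¬ Ar D u s
  oi : ¬ Ar D o i
  nus : u ≠ s
  noi : o ≠ i
  fo : ∃ z, Re D z ∧ Face T o s z
  fi : ∃ z, Re D z ∧ Face T s i z
  deg : ∀ m, Adj T m u → Adj T m o → Adj T m i → m = d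

namespace Pcf

variable {u d o s i : V}

theorem symm (h : Pcf T D a b c u d o s i) (hT : Ts T D a b c) : Pcf T D a b c u d i s o := by
  have cT := hT.pl.disc.cx
  obtain ⟨z1, z2, z3⟩ := h.fo
  obtain ⟨w1, w2, w3⟩ := h.fi
  refine ⟨h.inn, h.ure, h.good, h.dum, ?_, ar_symm h.iu, ar_symm h.si, ar_symm h.os,
    ar_symm h.uo, h.us, fun k => h.oi (ar_symm k), h.nus, h.noi.symm, ⟨w1, w2, ?_⟩,
    ⟨z1, z2, ?_⟩, ?_⟩
  · intro y
    rw [h.nb]
    tauto
  · exact fc_rot cT (fc_rot cT w3.symm)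
  · exact fc_rot cT (fc_rot cT z3.symm)
  · exact fun m h1 h2 h3 => h.deg m h1 h3 h2

/-- all the elementary facts -/
theorem facts (h : Pcf T D a b c u d o s i) (hT : Ts T D a b c) :
    u ≠ o ∧ u ≠ s ∧ u ≠ i ∧ o ≠ s ∧ o ≠ i ∧ s ≠ i ∧ u ≠ d ∧ o ≠ d ∧ s ≠ d ∧ i ≠ d ∧
      Adj T d u ∧ Adj T d o ∧ Adj T d s ∧ Adj T d i ∧ Adj T u o ∧ Adj T o s ∧ Adj T s i ∧
      Adj T i u ∧ ¬ Adj T u s ∧ ¬ Adj T o i ∧
      Face T d u o ∧ Face T d o s ∧ Face T d s i ∧ Face T d i u := by
  have cT := hT.pl.disc.cx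
  have dl : ¬ Tr a b c d := by
    obtain ⟨o1, o2, o3⟩ := hT.out
    rintro (rfl | rfl | rfl)
    · exact h.dum ⟨_, o1⟩
    · exact h.dum ⟨_, o2⟩
    · exact h.dum ⟨_, o3⟩
  have a1 := (h.nb u).2 (Or.inl rfl)
  have a2 := (h.nb o).2 (Or.inr (Or.inl rfl))
  have a3 := (h.nb s).2 (Or.inr (Or.inr (Or.inl rfl)))
  have a4 := (h.nb i).2 (Or.inr (Or.inr (Or.inr rfl)))
  have b1 := hT.pl.ar_adj h.uo
  have b2 := hT.pl.ar_adj h.os
  have b3 := hT.pl.ar_adj h.si
  have b4 := hT.pl.ar_adj h.iu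
  have r1 := (ar_re h.uo).1
  have r2 := (ar_re h.uo).2
  have r3 := (ar_re h.si).1
  have r4 := (ar_re h.si).2
  have c1 : ¬ Adj T u s := fun k => h.us (hT.re _ _ k r1 r3)
  have c2 : ¬ Adj T o i := fun k => h.oi (hT.re _ _ k r2 r4)
  have irr : ∀ x, ¬ Ar D x x := fun x k => (ar_ne cT hT.pl k) rfl
  have f : ∀ {x y : V}, Adj T d x → Adj T x y → Adj T d y → Face T d x y := by
    intro x y k1 k2 k3
    rcases hT.fc d x y k1 k2 k3.symm with k | ⟨k, _⟩
    · exact k
    · exact absurd k dl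
  exact ⟨ar_ne cT hT.pl h.uo, h.nus, (ar_ne cT hT.pl h.iu).symm, ar_ne cT hT.pl h.os, h.noi,
    ar_ne cT hT.pl h.si, fun e => h.dum (e ▸ r1), fun e => h.dum (e ▸ r2),
    fun e => h.dum (e ▸ r3), fun e => h.dum (e ▸ r4), a1, a2, a3, a4, b1, b2, b3, b4, c1, c2,
    f a1 b1 a2, f a2 b2 a3, f a3 b3 a4, f a4 b4 a1⟩

/-- a dummy other than `d` is not adjacent to both ends of `o s` -/
theorem no_os (h : Pcf T D a b c u d o s i) (hT : Ts T D a b c) {d' : V} (hd' : ¬ Re D d')
    (hne : d' ≠ d) (k1 : Adj T d' o) (k2 : Adj T d' s) : False := by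
  have cT := hT.pl.disc.cx
  obtain ⟨f1, f2, f3, f4, f5, f6, f7, f8, f9, f10, g1, g2, g3, g4, g5, g6, g7, g8, g9, g10, q1,
    q2, q3, q4⟩ := h.facts hT
  obtain ⟨z, z1, z2⟩ := h.fo
  have dl : ¬ Tr a b c d' := by
    obtain ⟨o1, o2, o3⟩ := hT.out
    rintro (rfl | rfl | rfl)
    · exact hd' ⟨_, o1⟩
    · exact hd' ⟨_, o2⟩
    · exact hd' ⟨_, o3⟩
  have e1 : Face T d' o s := by
    rcases hT.fc d' o s k1 g6 k2.symm with k | ⟨k, _⟩
    · exact k
    · exact absurd k dl
  have e1' := fc_rot cT e1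
  have e2' := fc_rot cT q2
  rcases two_faces cT z2 e1' e2' with e | e | e
  · exact hd' (e ▸ z1)
  · exact hne e
  · exact h.dum (e ▸ z1)

/-- **F1** the common neighbours of `u` and `s` -/
theorem comm_us (h : Pcf T D a b c u d o s i) (hT : Ts T D a b c) {m : V} (h1 : Adj T u m)
    (h2 : Adj T s m) : m = o ∨ m = i ∨ m = d := by
  have cT := hT.pl.disc.cx
  obtain ⟨f1, f2, f3, f4, f5, f6, f7, f8, f9, f10, g1, g2, g3, g4, g5, g6, g7, g8, g9, g10, q1,
    q2, q3, q4⟩ := h.facts hT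
  have rs : Re D s := (ar_re h.si).1
  -- real common neighbours
  have real : ∀ m, Re D m → Adj T u m → Adj T s m → m = o ∨ m = i := by
    intro m hm h1 h2
    by_contra hcon
    push Not at hcon
    have a1 : Ar D u m := hT.re _ _ h1 h.ure hm
    have a2 : Ar D s m := hT.re _ _ h2 rs hm
    have md : m ≠ d := fun e => h.dum (e ▸ hm)
    have ndm : ¬ Adj T d m := by
      intro k
      rcases (h.nb m).1 k with rfl | rfl | rfl | rfl
      · exact (adj_vert cT h1).2.2 rfl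
      · exact hcon.1 rfl
      · exact (adj_vert cT h2).2.2 rfl
      · exact hcon.2 rfl
    by_cases k1 : Ar D o m
    · by_cases k2 : Ar D i m
      · exact md (h.deg m h1.symm (hT.pl.ar_adj k1).symm (hT.pl.ar_adj k2).symm)
      · rcases h.good i m s (ar_symm h.iu) a1 (fun e => hcon.2 e.symm) k2 f2.symm
          (ar_symm h.si) (ar_symm a2) with k | ⟨d', e1, e2, e3, e4, e5⟩
        · exact h.us k
        · have hne : d' ≠ d := fun e => ndm (e ▸ e4)
          exact (h.symm hT).no_os hT e1 hne e3 e5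
    · rcases h.good o m s h.uo a1 (fun e => hcon.1 e.symm) k1 f2.symm h.os (ar_symm a2) with
        k | ⟨d', e1, e2, e3, e4, e5⟩
      · exact h.us k
      · have hne : d' ≠ d := fun e => ndm (e ▸ e4)
        exact h.no_os hT e1 hne e3 e5
  by_cases hm : Re D m
  · rcases real m hm h1 h2 with k | k
    · exact Or.inl k
    · exact Or.inr (Or.inl k)
  · right; right
    by_contra hmd
    obtain ⟨x1, x2, x3, x4, b1, b2, b3, b4, b5⟩ := hT.du m (adj_vert cT h1).2.1 hm
    -- `u` and `s` are opposite in the quad of `m`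
    have mu := (b5 u).1 h1.symm
    have ms := (b5 s).1 h2.symm
    have adjx : ∀ {x y : V}, D x y → Adj T x y := fun h => hT.pl.adj _ _ h
    have key : ∀ {p q : V}, Adj T m p → Adj T m q → p ≠ q → Adj T u p → Adj T s p → Adj T u q →
        Adj T s q → Re D p → Re D q → False := by
      intro p q k1 k2 hpq k3 k4 k5 k6 k7 k8
      rcases real p k7 k3 k4 with rfl | rfl
      · exact h.no_os hT hm hmd k1 h2.symm
      · rcases real q k8 k5 k6 with rfl | rfl
        · exact h.no_os hT hm hmd k2 h2.symm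
        · exact hpq rfl
    have n13 : x1 ≠ x3 := by
      rintro rfl
      exact hT.pl.asymm _ _ b1 b2
    have n24 : x2 ≠ x4 := by
      rintro rfl
      exact hT.pl.asymm _ _ b2 b3
    have r1 : Re D x1 := ⟨_, Or.inl b1⟩
    have r2 : Re D x2 := ⟨_, Or.inl b2⟩
    have r3 : Re D x3 := ⟨_, Or.inl b3⟩
    have r4 : Re D x4 := ⟨_, Or.inl b4⟩
    have m1 := (b5 x1).2 (Or.inl rfl)
    have m2 := (b5 x2).2 (Or.inr (Or.inl rfl))
    have m3 := (b5 x3).2 (Or.inr (Or.inr (Or.inl rfl)))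
    have m4 := (b5 x4).2 (Or.inr (Or.inr (Or.inr rfl)))
    rcases mu with rfl | rfl | rfl | rfl <;> rcases ms with rfl | rfl | rfl | rfl
    · exact f2 rfl
    · exact g9 (adjx b1)
    · exact key m2 m4 n24 (adjx b1) (adjx b2).symm (adjx b4).symm (adjx b3) r2 r4
    · exact g9 (adjx b4).symm
    · exact g9 (adjx b1).symm
    · exact f2 rfl
    · exact g9 (adjx b2)
    · exact key m3 m1 n13.symm (adjx b2) (adjx b3).symm (adjx b1).symm (adjx b4) r3 r1
    · exact key m4 m2 n24.symm (adjx b3) (adjx b4).symm (adjx b2).symm (adjx b1) r4 r2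
    · exact g9 (adjx b2).symm
    · exact f2 rfl
    · exact g9 (adjx b3)
    · exact g9 (adjx b4)
    · exact key m1 m3 n13 (adjx b4) (adjx b1).symm (adjx b3).symm (adjx b2) r1 r3
    · exact g9 (adjx b3).symm
    · exact f2 rfl

/-- **F2** the common neighbours of `o` and `i` -/
theorem comm_oi (h : Pcf T D a b c u d o s i) (hT : Ts T D a b c) {m : V} (h1 : Adj T o m)
    (h2 : Adj T i m) : m = u ∨ m = s ∨ m = d := by
  have cT := hT.pl.disc.cx
  obtain ⟨f1, f2, f3, f4, f5, f6, f7, f8, f9, f10, g1, g2, g3, g4, g5, g6, g7, g8, g9, g10, q1,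
    q2, q3, q4⟩ := h.facts hT
  have ro : Re D o := (ar_re h.os).1
  have ri : Re D i := (ar_re h.si).2
  have real : ∀ m, Re D m → Adj T o m → Adj T i m → m = u ∨ m = s := by
    intro m hm h1 h2
    by_contra hcon
    push Not at hcon
    have a1 : Ar D o m := hT.re _ _ h1 ro hm
    have a2 : Ar D i m := hT.re _ _ h2 ri hm
    have md : m ≠ d := fun e => h.dum (e ▸ hm)
    rcases h.good o i m h.uo (ar_symm h.iu) f5 h.oi hcon.1 a1 a2 with
      k | ⟨d', e1, e2, e3, e4, e5⟩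
    · exact md (h.deg m (hT.pl.ar_adj k).symm h1.symm h2.symm)
    · have e := h.deg d' e2 e3 e4
      subst e
      rcases (h.nb m).1 e5 with rfl | rfl | rfl | rfl
      · exact hcon.1 rfl
      · exact (adj_vert cT h1).2.2 rfl
      · exact hcon.2 rfl
      · exact (adj_vert cT h2).2.2 rfl
  by_cases hm : Re D m
  · rcases real m hm h1 h2 with k | k
    · exact Or.inl k
    · exact Or.inr (Or.inl k)
  · right; right
    by_contra hmd
    obtain ⟨x1, x2, x3, x4, b1, b2, b3, b4, b5⟩ := hT.du m (adj_vert cT h1).2.1 hm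
    have mo := (b5 o).1 h1.symm
    have mi := (b5 i).1 h2.symm
    have adjx : ∀ {x y : V}, D x y → Adj T x y := fun h => hT.pl.adj _ _ h
    have key : ∀ {p q : V}, Adj T m p → Adj T m q → p ≠ q → Adj T o p → Adj T i p → Adj T o q →
        Adj T i q → Re D p → Re D q → False := by
      intro p q k1 k2 hpq k3 k4 k5 k6 k7 k8
      rcases real p k7 k3 k4 with rfl | rfl
      · exact hmd (h.deg m k1 h1.symm h2.symm)
      · rcases real q k8 k5 k6 with rfl | rfl
        · exact hmd (h.deg m k2 h1.symm h2.symm)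
        · exact hpq rfl
    have n13 : x1 ≠ x3 := by
      rintro rfl
      exact hT.pl.asymm _ _ b1 b2
    have n24 : x2 ≠ x4 := by
      rintro rfl
      exact hT.pl.asymm _ _ b2 b3
    have r1 : Re D x1 := ⟨_, Or.inl b1⟩
    have r2 : Re D x2 := ⟨_, Or.inl b2⟩
    have r3 : Re D x3 := ⟨_, Or.inl b3⟩
    have r4 : Re D x4 := ⟨_, Or.inl b4⟩
    have m1 := (b5 x1).2 (Or.inl rfl)
    have m2 := (b5 x2).2 (Or.inr (Or.inl rfl))
    have m3 := (b5 x3).2 (Or.inr (Or.inr (Or.inl rfl)))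
    have m4 := (b5 x4).2 (Or.inr (Or.inr (Or.inr rfl)))
    rcases mo with rfl | rfl | rfl | rfl <;> rcases mi with rfl | rfl | rfl | rfl
    · exact f5 rfl
    · exact g10 (adjx b1)
    · exact key m2 m4 n24 (adjx b1) (adjx b2).symm (adjx b4).symm (adjx b3) r2 r4
    · exact g10 (adjx b4).symm
    · exact g10 (adjx b1).symm
    · exact f5 rfl
    · exact g10 (adjx b2)
    · exact key m3 m1 n13.symm (adjx b2) (adjx b3).symm (adjx b1).symm (adjx b4) r3 r1
    · exact key m4 m2 n24.symm (adjx b3) (adjx b4).symm (adjx b2).symm (adjx b1) r4 r2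
    · exact g10 (adjx b2).symm
    · exact f5 rfl
    · exact g10 (adjx b3)
    · exact g10 (adjx b4)
    · exact key m1 m3 n13 (adjx b4) (adjx b1).symm (adjx b3).symm (adjx b2) r1 r3
    · exact g10 (adjx b3).symm
    · exact f5 rfl

end Pcf

end Pool.Agent.H13.G4
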