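import Pool.Agent.H13.G4.Star

/-!
# Counting corners

A weight `w` on the ordered triples (the triple `(a, b, c)` is the corner at `a` of the triangle
`abc`) with total `2` on every triangle: `∑ v, (4 - s v) = 8` on a sphere, `= 4 + 2 l` on a disc with
boundary of length `l`, where `s v` is the sum of the weights of the corners at `v`.
-/

set_option autoImplicit false

namespace Pool.Agent.H13.G4

open Relation Pool.Agent.H13.DA Pool.Agent.H72.G4

variable {V : Type*} [DecidableEq V] {T : Finset (V × V × V)}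

/-- number of ordered triples of a sphere -/
theorem card_sph (hS : Sph T) : (T.card : ℤ) = 6 * (verts T).card - 12 := by
  have h1 := clos_card hS.cx hS.clos
  have h2 := hS.chi
  unfold DA.chi at h2
  have h3 : (T.card : ℤ) = 2 * (edges T).card := by exact_mod_cast h1
  linarith

/-- the boundary triples -/
noncomputable def bdT (T : Finset (V × V × V)) : Finset (V × V × V) := T.filter (fun t => ∀ c ∈ verts T, (t.2.1, t.1, c) ∉ T)

theorem mem_bdT (hT : IsCx T) {a b c : V} : (a, b, c) ∈ bdT T ↔ (a, b, c) ∈ T ∧ ¬ Dir T b a := by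
  unfold bdT
  rw [Finset.mem_filter]
  constructor
  · rintro ⟨h1, h2⟩
    exact ⟨h1, fun ⟨d, hd⟩ => h2 d (vert3 hT hd) hd⟩
  · rintro ⟨h1, h2⟩
    exact ⟨h1, fun d _ hd => h2 ⟨d, hd⟩⟩

theorem card_bdT (hT : IsCx T) {l : List V} (hl : IsBd T l) : (bdT T).card = l.length := by
  classical
  have h1 : (bdT T).card = ((bdT T).image (fun t => t.1)).card := by
    rw [Finset.card_image_of_injOn]
    rintro ⟨a, b, c⟩ h1 ⟨a', b', c'⟩ h2 h3
    have h1 := (mem_bdT hT).1 (Finset.mem_coe.1 h1)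
    have h2 := (mem_bdT hT).1 (Finset.mem_coe.1 h2)
    simp only at h3
    subst h3
    have k1 := (hl.iff a b).1 (bd_dir.2 ⟨⟨c, h1.1⟩, h1.2⟩)
    have k2 := (hl.iff a b').1 (bd_dir.2 ⟨⟨c', h2.1⟩, h2.2⟩)
    have := cyc_unique hl.nodup k1 k2
    subst this
    rw [hT.uniq h1.1 h2.1]
  have h2 : (bdT T).image (fun t => t.1) = l.toFinset := by
    ext a
    rw [Finset.mem_image, List.mem_toFinset]
    constructor
    · rintro ⟨⟨a', b, c⟩, h1, rfl⟩
      have h1 := (mem_bdT hT).1 h1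
      exact (cyc_mem ((hl.iff a' b).1 (bd_dir.2 ⟨⟨c, h1.1⟩, h1.2⟩))).1
    · intro ha
      obtain ⟨b, hb⟩ := (mem_cyc ha).1
      obtain ⟨⟨c, hc⟩, k⟩ := bd_cyc hl hb
      exact ⟨(a, b, c), (mem_bdT hT).2 ⟨hc, k⟩, rfl⟩
  rw [h1, h2, List.toFinset_card_of_nodup hl.nodup]

theorem edges_card (hT : IsCx T) : 2 * (edges T).card = T.card + (bdT T).card := by
  classical
  have h1 : T.card = ∑ e ∈ edges T, (T.filter (fun t => s(t.1, t.2.1) = e)).card := by
    apply Finset.card_eq_sum_card_fiberwise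
    intro t ht
    simp only [edges, Finset.coe_image, Set.mem_image, Finset.mem_coe]
    exact ⟨t, ht, rfl⟩
  have h2 : (bdT T).card = ∑ e ∈ edges T, ((bdT T).filter (fun t => s(t.1, t.2.1) = e)).card := by
    apply Finset.card_eq_sum_card_fiberwise
    intro t ht
    simp only [edges, Finset.coe_image, Set.mem_image, Finset.mem_coe]
    exact ⟨t, (Finset.mem_filter.1 ht).1, rfl⟩
  rw [h1, h2, ← Finset.sum_add_distrib, Finset.sum_const_nat (m := 2), mul_comm]
  intro e he
  induction e using Sym2.ind with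
  | _ a b =>
    -- both directions, or exactly one
    have key : ∀ {a b c : V}, (a, b, c) ∈ T →
        (T.filter (fun t => s(t.1, t.2.1) = s(a, b))).card +
          ((bdT T).filter (fun t => s(t.1, t.2.1) = s(a, b))).card = 2 := by
      intro a b c h
      have hne := hT.ne h
      by_cases hb : ∃ d, (b, a, d) ∈ T
      · obtain ⟨d, h'⟩ := hb
        have e1 : T.filter (fun t => s(t.1, t.2.1) = s(a, b)) = {(a, b, c), (b, a, d)} := by
          ext ⟨x, y, z⟩
          simp only [Finset.mem_filter, Finset.mem_insert, Finset.mem_singleton, Sym2.eq_iff,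
            Prod.mk.injEq]
          constructor
          · rintro ⟨hxyz, ⟨rfl, rfl⟩ | ⟨rfl, rfl⟩⟩
            · exact Or.inl ⟨rfl, rfl, hT.uniq hxyz h⟩
            · exact Or.inr ⟨rfl, rfl, hT.uniq hxyz h'⟩
          · rintro (⟨rfl, rfl, rfl⟩ | ⟨rfl, rfl, rfl⟩)
            · exact ⟨h, Or.inl ⟨rfl, rfl⟩⟩
            · exact ⟨h', Or.inr ⟨rfl, rfl⟩⟩
        have e2 : (bdT T).filter (fun t => s(t.1, t.2.1) = s(a, b)) = ∅ := by
          rw [Finset.filter_eq_empty_iff]
          rintro ⟨x, y, z⟩ hx hs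
          have hx := (mem_bdT hT).1 hx
          rw [Sym2.eq_iff] at hs
          rcases hs with ⟨rfl, rfl⟩ | ⟨rfl, rfl⟩
          · exact hx.2 ⟨d, h'⟩
          · exact hx.2 ⟨c, h⟩
        rw [e1, e2, Finset.card_insert_of_notMem, Finset.card_singleton, Finset.card_empty]
        simp only [Finset.mem_singleton, Prod.mk.injEq, not_and]
        intro h3
        exact absurd h3 hne
      · have e1 : T.filter (fun t => s(t.1, t.2.1) = s(a, b)) = {(a, b, c)} := by
          ext ⟨x, y, z⟩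
          simp only [Finset.mem_filter, Finset.mem_singleton, Sym2.eq_iff, Prod.mk.injEq]
          constructor
          · rintro ⟨hxyz, ⟨rfl, rfl⟩ | ⟨rfl, rfl⟩⟩
            · exact ⟨rfl, rfl, hT.uniq hxyz h⟩
            · exact absurd ⟨z, hxyz⟩ hb
          · rintro ⟨rfl, rfl, rfl⟩
            exact ⟨h, Or.inl ⟨rfl, rfl⟩⟩
        have e2 : (bdT T).filter (fun t => s(t.1, t.2.1) = s(a, b)) = {(a, b, c)} := by
          ext ⟨x, y, z⟩
          simp only [Finset.mem_filter, Finset.mem_singleton, Sym2.eq_iff, Prod.mk.injEq,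
            mem_bdT hT]
          constructor
          · rintro ⟨⟨hxyz, _⟩, ⟨rfl, rfl⟩ | ⟨rfl, rfl⟩⟩
            · exact ⟨rfl, rfl, hT.uniq hxyz h⟩
            · exact absurd ⟨z, hxyz⟩ hb
          · rintro ⟨rfl, rfl, rfl⟩
            exact ⟨⟨h, fun ⟨d, hd⟩ => hb ⟨d, hd⟩⟩, Or.inl ⟨rfl, rfl⟩⟩
        rw [e1, e2, Finset.card_singleton]
    rcases edge_iff.1 he with ⟨c, h⟩ | ⟨c, h⟩
    · exact key h
    · rw [Sym2.eq_swap]
      exact key h

/-- number of ordered triples of a disc -/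
theorem card_disc (hD : Disc T) {l : List V} (hl : IsBd T l) :
    (T.card : ℤ) = 6 * (verts T).card - 3 * l.length - 6 := by
  have h1 := edges_card hD.cx
  rw [card_bdT hD.cx hl] at h1
  have h2 := hD.chi
  unfold DA.chi at h2
  have h3 : (2 : ℤ) * (edges T).card = T.card + l.length := by exact_mod_cast h1
  linarith

/-- summing a corner weight over all triangles -/
theorem sum_rot (hT : IsCx T) (w : V × V × V → ℚ) (c : ℚ)
    (h : ∀ x y z, (x, y, z) ∈ T → w (x, y, z) + w (y, z, x) + w (z, x, y) = c) :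
    3 * ∑ t ∈ T, w t = c * T.card := by
  have r1 : ∑ t ∈ T, w t = ∑ t ∈ T, w (t.2.1, t.2.2, t.1) := by
    symm
    apply Finset.sum_nbij' (fun t => (t.2.1, t.2.2, t.1)) (fun t => (t.2.2, t.1, t.2.1))
    · rintro ⟨x, y, z⟩ ht
      exact hT.rot ht
    · rintro ⟨x, y, z⟩ ht
      exact hT.rot (hT.rot ht)
    · rintro ⟨x, y, z⟩ _; rfl
    · rintro ⟨x, y, z⟩ _; rfl
    · rintro ⟨x, y, z⟩ _; rfl
  have r2 : ∑ t ∈ T, w t = ∑ t ∈ T, w (t.2.2, t.1, t.2.1) := by
    symm
    apply Finset.sum_nbij' (fun t => (t.2.2, t.1, t.2.1)) (fun t => (t.2.1, t.2.2, t.1))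
    · rintro ⟨x, y, z⟩ ht
      exact hT.rot (hT.rot ht)
    · rintro ⟨x, y, z⟩ ht
      exact hT.rot ht
    · rintro ⟨x, y, z⟩ _; rfl
    · rintro ⟨x, y, z⟩ _; rfl
    · rintro ⟨x, y, z⟩ _; rfl
  have r3 : ∑ t ∈ T, (w t + w (t.2.1, t.2.2, t.1) + w (t.2.2, t.1, t.2.1)) = c * T.card := by
    rw [Finset.sum_congr rfl (g := fun _ => c)]
    · rw [Finset.sum_const, nsmul_eq_mul, mul_comm]
    · rintro ⟨x, y, z⟩ ht
      exact h x y z ht
  rw [Finset.sum_add_distrib, Finset.sum_add_distrib, ← r1, ← r2] at r3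
  linarith

theorem sum_verts (w : V × V × V → ℚ) :
    ∑ t ∈ T, w t = ∑ v ∈ verts T, ∑ t ∈ T.filter (fun t => t.1 = v), w t := by
  symm
  apply Finset.sum_fiberwise_of_maps_to
  intro t ht
  obtain ⟨a, b, c⟩ := t
  exact vert1 ht

/-- the sum of the weights of the corners at `v` -/
def cs (T : Finset (V × V × V)) (w : V × V × V → ℚ) (v : V) : ℚ :=
  ∑ t ∈ T.filter (fun t => t.1 = v), w t

theorem charge_sph (hS : Sph T) (w : V × V × V → ℚ)
    (h : ∀ x y z, (x, y, z) ∈ T → w (x, y, z) + w (y, z, x) + w (z, x, y) = 2) :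
    ∑ v ∈ verts T, (4 - cs T w v) = 8 := by
  have h1 := sum_rot hS.cx w 2 h
  have h2 : (T.card : ℚ) = 6 * (verts T).card - 12 := by exact_mod_cast card_sph hS
  rw [Finset.sum_sub_distrib, Finset.sum_const, nsmul_eq_mul]
  have h3 : ∑ v ∈ verts T, cs T w v = ∑ t ∈ T, w t := (sum_verts w).symm
  rw [h3]
  linarith

theorem charge_disc (hD : Disc T) {l : List V} (hl : IsBd T l) (w : V × V × V → ℚ)
    (h : ∀ x y z, (x, y, z) ∈ T → w (x, y, z) + w (y, z, x) + w (z, x, y) = 2) :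
    ∑ v ∈ verts T, (4 - cs T w v) = 4 + 2 * l.length := by
  have h1 := sum_rot hD.cx w 2 h
  have h2 : (T.card : ℚ) = 6 * (verts T).card - 3 * l.length - 6 := by
    exact_mod_cast card_disc hD hl
  rw [Finset.sum_sub_distrib, Finset.sum_const, nsmul_eq_mul]
  have h3 : ∑ v ∈ verts T, cs T w v = ∑ t ∈ T, w t := (sum_verts w).symm
  rw [h3]
  linarith

end Pool.Agent.H13.G4
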