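import Pool.Agent.H13.G4.Bdc
import Pool.Agent.H72.G4.CycL

/-!
# No three consecutive small corners; the sum over the corners
-/

set_option autoImplicit false

namespace Pool.Agent.H13.G4

open Relation Pool.Agent.H13.DA Pool.Agent.H72.G4 Pool.Agent.H96.G4

variable {V : Type*} [DecidableEq V] {T : Finset (V × V × V)} {D : V → V → Prop} {a b c : V}
variable {X : Finset (V × V × V)} {Z : List V}

omit [DecidableEq V] in
/-- in a directed quad a vertex is joined to at least one of two other vertices -/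
theorem quad_adj {x1 x2 x3 x4 : V} (a1 : D x1 x2) (a2 : D x2 x3) (a3 : D x3 x4) (a4 : D x4 x1)
    {u w w' : V} (hu : u = x1 ∨ u = x2 ∨ u = x3 ∨ u = x4)
    (hw : w = x1 ∨ w = x2 ∨ w = x3 ∨ w = x4) (hw' : w' = x1 ∨ w' = x2 ∨ w' = x3 ∨ w' = x4)
    (h1 : u ≠ w) (h2 : u ≠ w') (h3 : w ≠ w') : Ar D u w ∨ Ar D u w' := by
  have key : ∀ {y1 y2 y3 y4 : V}, D y1 y2 → D y4 y1 →
      ∀ {w}, w = y1 ∨ w = y2 ∨ w = y3 ∨ w = y4 → y1 ≠ w → w ≠ y3 → Ar D y1 w := by
    intro y1 y2 y3 y4 b1 b4 w hw n1 n2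
    rcases hw with rfl | rfl | rfl | rfl
    · exact absurd rfl n1
    · exact Or.inl b1
    · exact absurd rfl n2
    · exact Or.inr b4
  rcases hu with rfl | rfl | rfl | rfl
  · by_cases e : w = x3
    · exact Or.inr (key (y3 := x3) a1 a4 hw' h2 (fun e' => h3 (e.trans e'.symm)))
    · exact Or.inl (key (y3 := x3) a1 a4 hw h1 e)
  · have r : ∀ {w}, (w = x1 ∨ w = u ∨ w = x3 ∨ w = x4) → (w = u ∨ w = x3 ∨ w = x4 ∨ w = x1) := by
      tauto
    by_cases e : w = x4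
    · exact Or.inr (key (y3 := x4) a2 a1 (r hw') h2 (fun e' => h3 (e.trans e'.symm)))
    · exact Or.inl (key (y3 := x4) a2 a1 (r hw) h1 e)
  · have r : ∀ {w}, (w = x1 ∨ w = x2 ∨ w = u ∨ w = x4) → (w = u ∨ w = x4 ∨ w = x1 ∨ w = x2) := by
      tauto
    by_cases e : w = x1
    · exact Or.inr (key (y3 := x1) a3 a2 (r hw') h2 (fun e' => h3 (e.trans e'.symm)))
    · exact Or.inl (key (y3 := x1) a3 a2 (r hw) h1 e)
  · have r : ∀ {w}, (w = x1 ∨ w = x2 ∨ w = x3 ∨ w = u) → (w = u ∨ w = x1 ∨ w = x2 ∨ w = x3) := by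
      tauto
    by_cases e : w = x2
    · exact Or.inr (key (y3 := x2) a4 a3 (r hw') h2 (fun e' => h3 (e.trans e'.symm)))
    · exact Or.inl (key (y3 := x2) a4 a3 (r hw) h1 e)

/-- chordless cycle of arcs -/
structure Chl (D : V → V → Prop) (Z : List V) : Prop where
  arc : ∀ x y, Cyc Z x y → Ar D x y
  ch : ∀ x y, x ∈ Z → y ∈ Z → Ar D x y → Cyc Z x y ∨ Cyc Z y x

omit [DecidableEq V] in
theorem Chl.nbr (h : Chl D Z) (nd : Z.Nodup) {v p r : V} (hp : Cyc Z v p) (hr : Cyc Z r v) :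
    ∀ u, u ∈ Z → Ar D v u → u = p ∨ u = r := by
  intro u hu har
  rcases h.ch v u (cyc_mem hp).1 hu har with k | k
  · exact Or.inl (cyc_unique nd k hp)
  · exact Or.inr (cyc_unique' nd k hr)

theorem Chl.opp (h : Chl D Z) (hT : Ts T D a b c) (nd : Z.Nodup) (h4 : 4 ≤ Z.length)
    {v p r : V} (hp : Cyc Z v p) (hr : Cyc Z r v) : p ≠ r ∧ ¬ Ar D p r := by
  have cT := hT.pl.disc.cx
  have n1 : v ≠ p := ar_ne cT hT.pl (h.arc _ _ hp)
  have n2 : r ≠ v := ar_ne cT hT.pl (h.arc _ _ hr)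
  have n3 : p ≠ r := by
    rintro rfl
    exact cyc_no2 nd (by omega) hp hr
  refine ⟨n3, fun har => ?_⟩
  rcases h.ch p r (cyc_mem hp).2 (cyc_mem hr).1 har with k | k
  · have := (cyc_three nd hp k hr n1 n3 n2).perm.length_eq
    simp only [List.length_cons, List.length_nil] at this
    omega
  · exact n1 (cyc_unique nd hr k)

/-- a dummy in the region of a chordless cycle has a neighbour off the cycle -/
theorem dummy_off [Infinite V] (hT : Ts T D a b c) (hR : Reg T X D Z) (hZ : Chl D Z) {u : V}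
    (hu : u ∈ verts X) (hur : Re D u) (huZ : u ∉ Z) {d : V} (hd : d ∈ verts X)
    (hdr : ¬ Re D d) : ∃ y, Adj T d y ∧ y ∉ Z := by
  by_contra hcon
  push Not at hcon
  have cT := hT.pl.disc.cx
  have cX := hR.disc.cx
  have hdZ : d ∉ Z := fun h => hdr (hR.re d h)
  have dl : d ∉ [a, b, c] := fun h => hdr ((reg_self hT).re d h)
  obtain ⟨L, l1, l2, l3, l4, l5⟩ := link hT.pl.disc hT.pl.bd (verts_mono hR.sub hd) dl
  have lX : ∀ x y, Cyc L x y → (d, x, y) ∈ X := fun x y h => hR.tri_in hd hdZ ((l4 x y).2 h)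
  have hLZ : ∀ x y, Cyc L x y → Cyc Z x y := by
    intro x y h
    have h1 := lX x y h
    have hx := hcon x ((l5 x).2 (cyc_mem h).1)
    have hy := hcon y ((l5 y).2 (cyc_mem h).2)
    have har : Ar D x y := hT.re x y (Or.inl ⟨d, cT.rot (hR.sub h1)⟩) (hR.re x hx) (hR.re y hy)
    rcases hZ.ch x y hx hy har with k | k
    · exact k
    · exact absurd ⟨d, cX.rot h1⟩ (bd_cyc hR.bd k).2
  have hL : L ≠ [] := by
    rintro rfl
    simp at l2
  have hiff := cyc_sub hR.bd.nodup hL hLZ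
  have hsub : cone d L ⊆ X := by
    rintro ⟨p, q, r⟩ ht
    rw [mem_cone] at ht
    rcases ht with ⟨rfl, h1⟩ | ⟨rfl, h1⟩ | ⟨rfl, h1⟩
    · exact lX q r h1
    · exact (rot3 cX (lX r p h1)).2
    · exact (rot3 cX (lX p q h1)).1
  have hcone := cone_disc d l1 l2 l3
  have heq := sub_eq_bd cX hR.disc.conn hsub hcone.1.cx (by
    intro p q h1 h2
    rw [dir_cone] at h1 ⊢
    rcases h1 with ⟨rfl, h1⟩ | ⟨rfl, h1⟩ | h1
    · exact Or.inr (Or.inl ⟨rfl, h1⟩)
    · exact Or.inl ⟨rfl, h1⟩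
    · exact absurd h2 (bd_cyc hR.bd (hLZ _ _ h1)).2) (by
    obtain ⟨x, hx⟩ := List.exists_mem_of_ne_nil L hL
    obtain ⟨y, hy⟩ := (mem_cyc hx).1
    exact ⟨(d, x, y), (mem_cone _ _ _ _ _).2 (Or.inl ⟨rfl, hy⟩)⟩)
  rw [← heq, verts_cone d hL] at hu
  rcases hu with rfl | hu
  · exact hdr hur
  · exact huZ (hcon u ((l5 u).2 hu))

/-- no inner real vertex is joined to both boundary neighbours of a boundary vertex -/
def No2 (X : Finset (V × V × V)) (D : V → V → Prop) (Z : List V) : Prop :=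
  ∀ v p r, Cyc Z v p → Cyc Z r v → ∀ w, w ∈ verts X → w ∉ Z → Re D w → Adj X w p → ¬ Adj X w r

/-- **B2 (beta)**: the two boundary faces at a small corner are not both dummy faces -/
theorem corner_dum [Infinite V] (hT : Ts T D a b c) (hR : Reg T X D Z) {v p r : V} {m : List V}
    (hpZ : p ∈ Z) (hrZ : r ∈ Z) (hvZ : v ∈ Z)
    (hP : Path X D Z v p m r) (hpr : ¬ Ar D p r)
    (hno : ∀ w, w ∈ verts X → w ∉ Z → Re D w → Adj X w p → ¬ Adj X w r)
    (hnq : ∀ d, d ∈ verts X → ¬ Re D d → ∃ y, Adj T d y ∧ y ∉ Z)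
    (h1 : sv X D v + qv X D v ≤ 1) {d : V} {m' : List V} (hm : m = d :: m') (hd : ¬ Re D d)
    {e : V} {m2 : List V} (hm2 : m = m2 ++ [e]) (he : ¬ Re D e) : False := by
  have cT := hT.pl.disc.cx
  have cX := hR.disc.cx
  have f1 : Face X v p d := hP.fc p d (by rw [hm]; exact Or.inl ⟨rfl, rfl⟩)
  have f2 : Face X v e r := by
    refine hP.fc e r ?_
    rw [hm2, show p :: (m2 ++ [e] ++ [r]) = (p :: m2) ++ [e, r] by simp, nx_snoc]
    exact Or.inr ⟨rfl, rfl⟩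
  have hde : d = e := by
    by_contra hne
    have := qv_two cX hd he (face_adj cX f1).2.2 (face_adj cX f2).1 hne
    omega
  subst hde
  -- the neighbours of the dummy
  obtain ⟨i1, i2⟩ := hP.inn d (by rw [hm]; simp)
  obtain ⟨x1, x2, x3, x4, a1, a2, a3, a4, a5⟩ := hT.du d (verts_mono hR.sub i1) hd
  obtain ⟨y, y1, y2⟩ := hnq d i1 hd
  have up : ∀ {x y : V}, Adj X x y → Adj T x y := by
    rintro x y (⟨z, hz⟩ | ⟨z, hz⟩)
    · exact Or.inl ⟨z, hR.sub hz⟩
    · exact Or.inr ⟨z, hR.sub hz⟩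
  have ap : Adj T d p := (up (face_adj cX f1).2.1).symm
  have ar : Adj T d r := up (face_adj cX f2).2.1
  have hyr : Re D y := Ts.dummy_nbr hT hd y1
  have npy : p ≠ y := fun e => y2 (e ▸ hpZ)
  have nry : r ≠ y := fun e => y2 (e ▸ hrZ)
  have npr : p ≠ r := by
    rintro rfl
    have := hP.nd
    simp at this
  have k1 := quad_adj a1 a2 a3 a4 ((a5 p).1 ap) ((a5 r).1 ar) ((a5 y).1 y1) npr npy nry
  have k2 := quad_adj a1 a2 a3 a4 ((a5 r).1 ar) ((a5 p).1 ap) ((a5 y).1 y1) npr.symm nry npy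
  have k1' : Ar D p y := k1.resolve_left hpr
  have k2' : Ar D r y := k2.resolve_left (fun h => hpr (ar_symm h))
  -- `y` is in `X`
  have dr : d ∉ verts (T \ X) := fun h => i2 (hR.sep d i1 h)
  have ady : Adj X d y := by
    rcases (adj_split hR.sub d y).1 y1 with k | k
    · exact absurd (adj_vert (sdiff_isCx cT cX) k).1 dr
    · exact k
  have yX : y ∈ verts X := (adj_vert cX ady).2.1
  have yr : y ∉ verts (T \ X) := fun h => y2 (hR.sep y yX h)
  have toX : ∀ {z : V}, Ar D z y → Adj X y z := by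
    intro z hz
    rcases (adj_split hR.sub y z).1 (hT.pl.ar_adj hz).symm with k | k
    · exact absurd (adj_vert (sdiff_isCx cT cX) k).1 yr
    · exact k
  exact hno y yX y2 hyr (toX k1') (toX k2')

omit [DecidableEq V] in
/-- not both ends of an arc are the mid vertex of a triangle -/
theorem mid_two (htr : ∀ x y z, D x y → D y z → ¬ D z x) {q v t : V} (h1 : Ar D q v)
    (h2 : Ar D v t) (h3 : Ar D t q) (n1 : ¬ SoSi D q v t) (n2 : ¬ SoSi D v q t) : False := by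
  unfold SoSi at n1 n2
  rcases h1 with h1 | h1 <;> rcases h2 with h2 | h2 <;> rcases h3 with h3 | h3
  · exact htr _ _ _ h1 h2 h3
  · exact n1 (Or.inl ⟨h1, h3⟩)
  · exact n2 (Or.inr ⟨h1, h2⟩)
  · exact n1 (Or.inl ⟨h1, h3⟩)
  · exact n1 (Or.inr ⟨h1, h3⟩)
  · exact n2 (Or.inl ⟨h1, h2⟩)
  · exact n1 (Or.inr ⟨h1, h3⟩)
  · exact htr _ _ _ h1 h3 h2

/-- the data of a region with good inner vertices and chordless boundary of length at least four -/
structure Rg (T X : Finset (V × V × V)) (D : V → V → Prop) (Z : List V) : Prop where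
  reg : Reg T X D Z
  chl : Chl D Z
  len : 4 ≤ Z.length
  good : ∀ u, u ∈ verts X → Re D u → u ∉ Z → Good T D u
  inn : ∃ u, u ∈ verts X ∧ Re D u ∧ u ∉ Z
  no2 : No2 X D Z

theorem Rg.path [Infinite V] (hT : Ts T D a b c) (hR : Rg T X D Z) {v p r : V}
    (hp : Cyc Z v p) (hr : Cyc Z r v) :
    ∃ m, m ≠ [] ∧ Path X D Z v p m r ∧ (∀ x y, (v, x, y) ∈ X ↔ Nx (p :: (m ++ [r])) x y) := by
  have nd := hR.reg.bd.nodup
  obtain ⟨m, h1, h2, h3⟩ := path_of hT hR.reg hp hr (hR.chl.nbr nd hp hr)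
  refine ⟨m, ?_, h1, h2⟩
  rintro rfl
  have h4 : (v, p, r) ∈ X := (h2 p r).2 (Or.inl ⟨rfl, rfl⟩)
  exact (hR.chl.opp hT nd hR.len hp hr).2 (hT.re p r
    (Or.inl ⟨v, hT.pl.disc.cx.rot (hR.reg.sub h4)⟩) h1.pr h1.rr)

theorem Rg.pos [Infinite V] (hF : FanT V) (hM : MCw T D a b c) (hT : Ts T D a b c)
    (hR : Rg T X D Z) {v : V} (hv : v ∈ Z) : 1 ≤ sv X D v + qv X D v := by
  obtain ⟨⟨p, hp⟩, ⟨r, hr⟩⟩ := mem_cyc hv
  obtain ⟨m, h1, h2, _⟩ := hR.path hT hp hr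
  exact corner_pos hF hM hT hR.reg hR.good h2 h1

/-- an edge `q v` of the boundary between two small corners is on a dummy face -/
theorem Rg.edge [Infinite V] (hF : FanT V) (hM : MCw T D a b c) (hT : Ts T D a b c)
    (hR : Rg T X D Z) {q v t : V} (hqv : Cyc Z q v) (ht : (q, v, t) ∈ X)
    (hq : sv X D q + qv X D q ≤ 1) (hv : sv X D v + qv X D v ≤ 1) : ¬ Re D t := by
  intro htr
  have cX := hR.reg.disc.cx
  have nd := hR.reg.bd.nodup
  obtain ⟨⟨s, hs⟩, _⟩ := mem_cyc (cyc_mem hqv).2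
  obtain ⟨_, ⟨q', hq'⟩⟩ := mem_cyc (cyc_mem hqv).1
  -- at `q`
  obtain ⟨m, m1, m2, m3⟩ := hR.path hT hqv hq'
  have c1 : ¬ SoSi D q v t := by
    match m, m1, m2, m3 with
    | w :: m', _, m2, m3 =>
      have : (q, v, w) ∈ X := (m3 v w).2 (Or.inl ⟨rfl, rfl⟩)
      have e := cX.uniq this ht
      subst e
      exact corner_mid hF hM hT hR.reg hR.good m2 (hR.no2 q v q' hqv hq') hq rfl htr
  -- at `v`
  obtain ⟨m, m1, m2, m3⟩ := hR.path hT hs hqv
  have c2 : ¬ SoSi D v q t := by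
    obtain ⟨m', w, rfl⟩ : ∃ m' w, m = m' ++ [w] := by
      rcases List.eq_nil_or_concat m with k' | ⟨l', y', k'⟩
      · exact absurd k' m1
      · exact ⟨l', y', by simpa using k'⟩
    have : (v, w, q) ∈ X := by
      refine (m3 w q).2 ?_
      rw [show s :: (m' ++ [w] ++ [q]) = (s :: m') ++ [w, q] by simp, nx_snoc]
      exact Or.inr ⟨rfl, rfl⟩
    have e := cX.uniq (rot3 cX this).2 ht
    subst e
    have hrev := m2.rev
    rw [List.reverse_append, List.reverse_singleton, List.singleton_append] at hrev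
    refine corner_mid hF hM hT hR.reg hR.good hrev ?_ hv rfl htr
    intro w h1 h2 h3 h4 h5
    exact hR.no2 v s q hs hqv w h1 h2 h3 h5 h4
  have cT := hT.pl.disc.cx
  have hf := Reg.face_re hT (Or.inl (hR.reg.sub ht)) (hR.reg.re q (cyc_mem hqv).1)
    (hR.reg.re v (cyc_mem hqv).2) htr
  exact mid_two hT.pl.tri hf.1 hf.2.1 hf.2.2 c1 c2

/-- **No three consecutive small corners.** -/
theorem Rg.no_three [Infinite V] (hF : FanT V) (hM : MCw T D a b c) (hT : Ts T D a b c)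
    (hR : Rg T X D Z) {q v s : V} (hqv : Cyc Z q v) (hvs : Cyc Z v s)
    (hq : sv X D q + qv X D q ≤ 1) (hv : sv X D v + qv X D v ≤ 1)
    (hs : sv X D s + qv X D s ≤ 1) : False := by
  have cX := hR.reg.disc.cx
  have nd := hR.reg.bd.nodup
  obtain ⟨m, m1, m2, m3⟩ := hR.path hT hvs hqv
  have hopp := hR.chl.opp hT nd hR.len hvs hqv
  obtain ⟨d, md, hmd⟩ : ∃ d md, m = d :: md := by
    cases m with
    | nil => exact absurd rfl m1
    | cons d md => exact ⟨d, md, rfl⟩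
  obtain ⟨me, e, hme⟩ : ∃ m' w, m = m' ++ [w] := by
    rcases List.eq_nil_or_concat m with k' | ⟨l', y', k'⟩
    · exact absurd k' m1
    · exact ⟨l', y', by simpa using k'⟩
  have f1 : (v, s, d) ∈ X := by
    refine (m3 s d).2 ?_
    rw [hmd]
    exact Or.inl ⟨rfl, rfl⟩
  have f2 : (v, e, q) ∈ X := by
    refine (m3 e q).2 ?_
    rw [hme, show s :: (me ++ [e] ++ [q]) = (s :: me) ++ [e, q] by simp, nx_snoc]
    exact Or.inr ⟨rfl, rfl⟩
  have hd : ¬ Re D d := hR.edge hF hM hT hvs f1 hv hs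
  have he : ¬ Re D e := hR.edge hF hM hT hqv (rot3 cX f2).2 hq hv
  obtain ⟨u, u1, u2, u3⟩ := hR.inn
  exact corner_dum hT hR.reg (cyc_mem hvs).2 (cyc_mem hqv).1 (cyc_mem hvs).1 m2 hopp.2
    (hR.no2 v s q hvs hqv)
    (fun d hd hdr => dummy_off hT hR.reg hR.chl u1 u2 u3 hd hdr) hv hmd hd hme he

end Pool.Agent.H13.G4
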