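import Pool.Agent.H13.G4.FanD

/-!
# The link of a boundary vertex of a disc

`link_bd`: the triangles at a boundary vertex `v` form a path from the successor `a` to the
predecessor `c` of `v` on the boundary.

`sub_eq_bd`: a subcomplex which is closed under crossing inner edges is everything.
`inner_off`: a vertex of a subdisc `X` off its boundary is off the boundary of the disc.
-/

set_option autoImplicit false

namespace Pool.Agent.H13.G4

open Relation Pool.Agent.H13.DA Pool.Agent.H72.G4

variable {V : Type*} [DecidableEq V] {T : Finset (V × V × V)}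

omit [DecidableEq V] in
theorem sub_eq_bd (hT : IsCx T) (hc : Conn T) {X : Finset (V × V × V)} (hX : X ⊆ T) (cX : IsCx X)
    (cl : ∀ a b, Dir X a b → Dir T b a → Dir X b a) (ne : X.Nonempty) : X = T := by
  obtain ⟨s, hs⟩ := ne
  apply Finset.Subset.antisymm hX
  intro t ht
  have key : ∀ t, ReflTransGen (Step T) s t → t ∈ X := by
    intro t hr
    induction hr with
    | refl => exact hs
    | tail _ h ih =>
      cases h with
      | rot _ => exact cX.rot ih
      | flip h1 h2 =>
        obtain ⟨d, hd⟩ := cl _ _ ⟨_, ih⟩ ⟨_, h2⟩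
        rw [hT.uniq h2 (hX hd)]
        exact hd
  exact key t (hc s (hX hs) t ht)

/-- a vertex of the subdisc `X` off the boundary of `X` is off the boundary of `T` -/
theorem inner_off (hT : IsCx T) {X : Finset (V × V × V)} (cX : IsCx X) (hX : X ⊆ T)
    {Z l : List V} (hZ : IsBd X Z) (hl : IsBd T l)
    (hV : ∀ x, x ∈ verts X → x ∈ verts (T \ X) → x ∈ Z) {v : V} (hv : v ∈ verts X)
    (hvZ : v ∉ Z) : v ∉ l := by
  intro hvl
  obtain ⟨w, hw⟩ := (mem_cyc hvl).1
  obtain ⟨⟨c, hc⟩, h2⟩ := bd_cyc hl hw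
  have h1 : (v, w, c) ∈ X := by
    by_contra h
    exact hvZ (hV v hv (vert1 (Finset.mem_sdiff.2 ⟨hc, h⟩)))
  have h3 : Bd X v w := bd_dir.2 ⟨⟨c, h1⟩, fun ⟨d, hd⟩ => h2 ⟨d, hX hd⟩⟩
  exact hvZ (cyc_mem ((hZ.iff v w).1 h3)).1

omit [DecidableEq V] in
theorem nx_cyc_off {L P : List V} {u : V} (nd : (u :: P).Nodup) (hL : L ~r (u :: P)) {x y : V}
    (hx : x ≠ u) (hy : y ≠ u) : Cyc L x y ↔ Nx P x y := by
  rw [cyc_rot hL]
  constructor
  · intro h
    cases P with
    | nil =>
      rcases h with ⟨rfl, _⟩ | h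
      · exact absurd rfl hx
      · exact h.elim
    | cons a m =>
      change Nx (u :: a :: (m ++ [u])) x y at h
      rcases h with ⟨h, _⟩ | h
      · exact absurd h hx
      · rw [show a :: (m ++ [u]) = (a :: m) ++ [u] by simp] at h
        obtain ⟨l', z, hz⟩ : ∃ l' z, a :: m = l' ++ [z] := by
          rcases List.eq_nil_or_concat (a :: m) with k' | ⟨l', y', k'⟩
          · exact absurd k' (by simp)
          · exact ⟨l', y', by simpa using k'⟩
        rw [hz, List.append_assoc, List.singleton_append, nx_snoc] at h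
        rw [hz]
        rcases h with h | ⟨_, h⟩
        · exact h
        · exact absurd h hy
  · intro h
    refine cyc_nx ?_
    cases P with
    | nil => exact h.elim
    | cons a m => exact Or.inr h

/-- **The link of a boundary vertex.** -/
theorem link_bd [Infinite V] (hD : Disc T) {l : List V} (hl : IsBd T l) {v a c : V}
    (ha : Cyc l v a) (hc : Cyc l c v) :
    ∃ m : List V, (a :: (m ++ [c])).Nodup ∧ v ∉ a :: (m ++ [c]) ∧
      (∀ x y, (v, x, y) ∈ T ↔ Nx (a :: (m ++ [c])) x y) ∧
      (∀ x, Adj T v x ↔ x ∈ a :: (m ++ [c])) := by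
  have hT := hD.cx
  obtain ⟨u, hu⟩ := Infinite.exists_notMem_finset (verts T)
  obtain ⟨S, hS, hTS, hVS, hAS⟩ := cone_sph hD hl hu
  have hvl : v ∈ l := (cyc_mem ha).1
  have hv : v ∈ verts T := hl.verts hT hvl
  have huv : v ≠ u := fun e => hu (e ▸ hv)
  have hne : ∀ {x : V}, x ∈ verts T → x ≠ u := fun hx e => hu (e ▸ hx)
  obtain ⟨⟨w, hw⟩, hav⟩ := bd_cyc hl ha
  have hcv := bd_cyc hl hc
  have h4 : 4 ≤ (verts S).card := by
    have h1 : insert u l.toFinset ⊆ verts S := by
      rw [hVS]
      apply Finset.insert_subset_insert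
      intro z hz
      exact hl.verts hT (List.mem_toFinset.1 hz)
    have h2 := Finset.card_le_card h1
    have hul : u ∉ l.toFinset := fun h => hu (hl.verts hT (List.mem_toFinset.1 h))
    rw [Finset.card_insert_of_notMem hul, List.toFinset_card_of_nodup hl.nodup] at h2
    have := hl.len
    omega
  obtain ⟨T', P0, a1, a2, a3, a4, a5, a6, a7, a8⟩ := star hS (hTS hw) h4
  -- the link of `v` in the sphere
  have b1 : (P0 ++ [w, a]).reverse.Nodup := List.nodup_reverse.2 a2.nodup
  have b4 : ∀ x y, (v, x, y) ∈ S ↔ Cyc (P0 ++ [w, a]).reverse x y := by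
    intro x y
    rw [a6, cyc_reverse]
  -- a triangle of the sphere at `v` without `u` is in `T`
  have htri : ∀ x y, x ≠ u → y ≠ u → ((v, x, y) ∈ S ↔ (v, x, y) ∈ T) := by
    intro x y hx hy
    refine ⟨fun h => ?_, fun h => hTS h⟩
    have h1 : Adj S v x := Or.inl ⟨y, h⟩
    have h2 : Adj S x y := Or.inl ⟨v, hS.cx.rot h⟩
    have h3 : Adj S y v := Or.inl ⟨x, (rot3 hS.cx h).2⟩
    have g1 : Adj T v x := by
      rcases (hAS v x).1 h1 with k | ⟨k, _⟩ | ⟨k, _⟩
      · exact k
      · exact absurd k huv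
      · exact absurd k hx
    have g2 : Adj T x y := by
      rcases (hAS x y).1 h2 with k | ⟨k, _⟩ | ⟨k, _⟩
      · exact k
      · exact absurd k hx
      · exact absurd k hy
    have g3 : Adj T y v := by
      rcases (hAS y v).1 h3 with k | ⟨k, _⟩ | ⟨k, _⟩
      · exact k
      · exact absurd k hy
      · exact absurd k huv
    -- one of the three directed edges is a directed edge of `T`
    by_cases e1 : Dir T v x
    · obtain ⟨z, hz⟩ := e1
      rw [hS.cx.uniq h (hTS hz)]
      exact hz
    by_cases e2 : Dir T x y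
    · obtain ⟨z, hz⟩ := e2
      have := hS.cx.uniq (hS.cx.rot h) (hTS hz)
      subst this
      exact (rot3 hT hz).2
    by_cases e3 : Dir T y v
    · obtain ⟨z, hz⟩ := e3
      have := hS.cx.uniq (rot3 hS.cx h).2 (hTS hz)
      subst this
      exact hT.rot hz
    exfalso
    -- all three are boundary edges, reversed: `x → v`, `y → x`, `v → y` on the boundary
    have k1 : Cyc l x v := (hl.iff x v).1 (bd_dir.2 ⟨g1.resolve_left e1, e1⟩)
    have k2 : Cyc l y x := (hl.iff y x).1 (bd_dir.2 ⟨g2.resolve_left e2, e2⟩)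
    have k3 : Cyc l v y := (hl.iff v y).1 (bd_dir.2 ⟨g3.resolve_left e3, e3⟩)
    obtain ⟨m1, m2, m3⟩ := cx_ne hS.cx h
    have hr := cyc_three hl.nodup k3 k2 k1 m3.symm m2.symm m1.symm
    -- then the triangle closes `T` to a sphere inside `S`
    obtain ⟨q1, q2, q3⟩ := close_add hD (hl.rot hr)
    have hsub : T ∪ tri y v x ⊆ S := by
      refine Finset.union_subset hTS (tri_sub hS.cx ?_)
      exact (rot3 hS.cx h).2
    have heq := sub_eq hS.cx hS.conn hsub q1.cx q1.clos
      ⟨_, Finset.mem_union_left _ hw⟩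
    have : u ∈ verts (T ∪ tri y v x) := by
      rw [heq, hVS]
      exact Finset.mem_insert_self _ _
    rw [q2] at this
    exact hu this
  have auv : Adj S v u := (hAS v u).2 (Or.inr (Or.inr ⟨rfl, hvl⟩))
  have umem : u ∈ (P0 ++ [w, a]).reverse := by
    rcases auv with ⟨z, hz⟩ | ⟨z, hz⟩
    · exact (cyc_mem ((b4 u z).1 hz)).1
    · exact (cyc_mem ((b4 z u).1 (hS.cx.rot hz))).2
  obtain ⟨P, hP⟩ := rot_head umem
  have nd := hP.nodup_iff.1 b1
  have len : 3 ≤ (u :: P).length := by
    have e := hP.perm.length_eq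
    rw [List.length_reverse] at e
    have := a2.len
    omega
  have ndP := (List.nodup_cons.1 nd)
  -- the triangles of `T` at `v`
  have c4 : ∀ x y, (v, x, y) ∈ T ↔ Nx P x y := by
    intro x y
    constructor
    · intro h
      have hx : x ≠ u := hne (vert2 hT h)
      have hy : y ≠ u := hne (vert3 hT h)
      exact (nx_cyc_off nd hP hx hy).1 ((b4 x y).1 (hTS h))
    · intro h
      have hx : x ≠ u := fun e => ndP.1 (e ▸ (nx_mem h).1)
      have hy : y ≠ u := fun e => ndP.1 (e ▸ (nx_mem h).2)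
      exact (htri x y hx hy).1 ((b4 x y).2 ((nx_cyc_off nd hP hx hy).2 h))
  match P, nd, len, ndP, c4 with
  | [], _, len, _, _ => simp at len
  | [_], _, len, _, _ => simp at len
  | a' :: b' :: m', nd, len, ndP, c4 =>
    obtain ⟨m, c', hm⟩ : ∃ m c', b' :: m' = m ++ [c'] := by
      rcases List.eq_nil_or_concat (b' :: m') with k' | ⟨l', y', k'⟩
      · exact absurd k' (by simp)
      · exact ⟨l', y', by simpa using k'⟩
    have mem : ∀ x, Adj T v x ↔ x ∈ a' :: b' :: m' := by
      intro x
      constructor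
      · rintro (⟨z, hz⟩ | ⟨z, hz⟩)
        · exact (nx_mem ((c4 x z).1 hz)).1
        · exact (nx_mem ((c4 z x).1 (hT.rot hz))).2
      · intro hx
        rcases nx_some m' a' b' x hx with ⟨r, h⟩ | ⟨r, h⟩
        · exact Or.inl ⟨r, (c4 x r).2 h⟩
        · exact Or.inr ⟨r, (rot3 hT ((c4 r x).2 h)).2⟩
    -- the head is `a`
    have ea : a' = a := by
      have h1 : (v, a', b') ∈ T := (c4 a' b').2 (Or.inl ⟨rfl, rfl⟩)
      have h2 : ¬ Dir T a' v := by
        rintro ⟨z, hz⟩
        have h3 := (c4 z a').1 (hT.rot hz)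
        have := nx_tail h3
        exact (List.nodup_cons.1 ndP.2).1 this
      exact cyc_unique hl.nodup ((hl.iff v a').1 (bd_dir.2 ⟨⟨_, h1⟩, h2⟩)) ha
    have ec : c' = c := by
      have hc' : c' ∈ a' :: b' :: m' := by
        rw [hm]
        simp
      have h2 : ¬ Dir T v c' := by
        rintro ⟨z, hz⟩
        have h3 := (c4 c' z).1 hz
        rw [hm, show a' :: (m ++ [c']) = (a' :: m) ++ [c'] by simp] at h3
        have h4 := nx_init h3
        have h5 := ndP.2
        rw [hm, show a' :: (m ++ [c']) = (a' :: m) ++ [c'] by simp, List.nodup_append] at h5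
        exact h5.2.2 c' h4 c' (by simp) rfl
      have h1 : Dir T c' v := ((mem c').2 hc').resolve_left h2
      exact cyc_unique' hl.nodup ((hl.iff c' v).1 (bd_dir.2 ⟨h1, h2⟩)) hc
    subst ea ec
    rw [hm] at ndP c4 mem
    refine ⟨m, ndP.2, ?_, c4, mem⟩
    intro hvm
    exact (adj_vert hT ((mem v).2 hvm)).2.2 rfl

end Pool.Agent.H13.G4
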