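import Pool.Agent.H13.G4.BdLink
import Pool.Agent.H72.G4.Contr
import Pool.Agent.H96.G4.Chg

/-!
# The corners of a region

`Reg T X D Z` : `X` is a subdisc of `T` with boundary `Z`, all vertices of `Z` real.
* `Reg.dm` : the count of helper96 applies to `X`.
* `corner_pos` : at a corner `s + q ≥ 1`.
* `no_three` : no three consecutive corners have `s + q = 1`.
-/

set_option autoImplicit false

namespace Pool.Agent.H13.G4

open Relation Pool.Agent.H13.DA Pool.Agent.H72.G4 Pool.Agent.H96.G4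

variable {V : Type*} [DecidableEq V] {T : Finset (V × V × V)} {D : V → V → Prop} {a b c : V}

/-- a region -/
structure Reg (T X : Finset (V × V × V)) (D : V → V → Prop) (Z : List V) : Prop where
  sub : X ⊆ T
  disc : Disc X
  bd : IsBd X Z
  sep : ∀ v, v ∈ verts X → v ∈ verts (T \ X) → v ∈ Z
  re : ∀ v, v ∈ Z → Re D v

variable {X : Finset (V × V × V)} {Z : List V}

/-- the whole disc is a region -/
theorem reg_self (hT : Ts T D a b c) : Reg T T D [a, b, c] := by
  refine ⟨Finset.Subset.refl _, hT.pl.disc, hT.pl.bd, ?_, ?_⟩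
  · intro v _ h
    obtain ⟨x, y, h⟩ := mem_verts.1 h
    exact absurd (Finset.mem_sdiff.1 h).1 (Finset.mem_sdiff.1 h).2
  · intro v hv
    obtain ⟨h1, h2, h3⟩ := hT.out
    simp only [List.mem_cons, List.not_mem_nil, or_false] at hv
    rcases hv with rfl | rfl | rfl
    · exact ⟨_, h1⟩
    · exact ⟨_, h2⟩
    · exact ⟨_, h3⟩

theorem Reg.inner (hR : Reg T X D Z) (hT : Ts T D a b c) {v : V} (hv : v ∈ verts X)
    (hvZ : v ∉ Z) : ¬ Tr a b c v := by
  intro h
  refine inner_off hT.pl.disc.cx hR.disc.cx hR.sub hR.bd hT.pl.bd hR.sep hv hvZ ?_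
  simpa [Tr] using h

theorem Reg.tri_in (hR : Reg T X D Z) {v x y : V} (hv : v ∈ verts X) (hvZ : v ∉ Z)
    (h : (v, x, y) ∈ T) : (v, x, y) ∈ X := by
  by_contra hc
  exact hvZ (hR.sep v hv (vert1 (Finset.mem_sdiff.2 ⟨h, hc⟩)))

theorem Ts.dummy_nbr (hT : Ts T D a b c) {x y : V} (hxr : ¬ Re D x) (h : Adj T x y) :
    Re D y := by
  obtain ⟨x1, x2, x3, x4, a1, a2, a3, a4, a5⟩ :=
    hT.du x (adj_vert hT.pl.disc.cx h).1 hxr
  rcases (a5 y).1 h with rfl | rfl | rfl | rfl
  · exact ⟨_, Or.inl a1⟩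
  · exact ⟨_, Or.inl a2⟩
  · exact ⟨_, Or.inl a3⟩
  · exact ⟨_, Or.inl a4⟩

theorem Reg.dm (hR : Reg T X D Z) (hT : Ts T D a b c) : Dm X D Z := by
  classical
  have cT := hT.pl.disc.cx
  have cX := hR.disc.cx
  refine ⟨hR.re, ?_, ?_, ?_, hT.pl.asymm, hT.pl.tri⟩
  · intro x y z h hx hy
    exact hT.re x y (Or.inl ⟨z, hR.sub h⟩) hx hy
  · intro x y z h hx
    exact Ts.dummy_nbr hT hx (Or.inl ⟨z, hR.sub h⟩)
  · intro x hx hxr
    have hxZ : x ∉ Z := fun h => hxr (hR.re x h)
    obtain ⟨x1, x2, x3, x4, a1, a2, a3, a4, a5⟩ := hT.du x (verts_mono hR.sub hx) hxr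
    have xl : x ∉ [a, b, c] := fun h => hxr ((reg_self hT).re x h)
    have irr : ∀ u, ¬ D u u := fun u h => hT.pl.asymm u u h h
    have e : (X.filter (fun t => t.1 = x)).image (fun t => t.2.1) = {x1, x2, x3, x4} := by
      ext y
      simp only [Finset.mem_image, Finset.mem_filter, Finset.mem_insert, Finset.mem_singleton]
      rw [← a5 y]
      constructor
      · rintro ⟨⟨p, q, r⟩, ⟨h1, h2⟩, h3⟩
        simp only at h2 h3
        subst h2 h3
        exact Or.inl ⟨r, hR.sub h1⟩
      · intro h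
        obtain ⟨⟨z, hz⟩, _⟩ := inner_dir hT.pl.bd xl h
        exact ⟨(x, y, z), ⟨hR.tri_in hx hxZ hz, rfl⟩, rfl⟩
    rw [← Finset.card_image_of_injOn (f := fun t : V × V × V => t.2.1), e]
    · rw [Finset.card_insert_of_notMem, Finset.card_insert_of_notMem,
        Finset.card_insert_of_notMem, Finset.card_singleton]
      · simp only [Finset.mem_singleton]
        rintro rfl
        exact irr _ a3
      · simp only [Finset.mem_insert, Finset.mem_singleton, not_or]
        refine ⟨?_, ?_⟩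
        · rintro rfl
          exact irr _ a2
        · rintro rfl
          exact hT.pl.asymm _ _ a2 a3
      · simp only [Finset.mem_insert, Finset.mem_singleton, not_or]
        refine ⟨?_, ?_, ?_⟩
        · rintro rfl
          exact irr _ a1
        · rintro rfl
          exact hT.pl.asymm _ _ a1 a2
        · rintro rfl
          exact irr _ a4
    · rintro ⟨p, q, r⟩ h1 ⟨p', q', r'⟩ h2 h3
      obtain ⟨k1, k2⟩ := Finset.mem_filter.1 (Finset.mem_coe.1 h1)
      obtain ⟨k3, k4⟩ := Finset.mem_filter.1 (Finset.mem_coe.1 h2)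
      simp only at k2 k4 h3
      subst k2 k4 h3
      rw [cX.uniq k1 k3]

/-! ### lower bounds of `s` and `q` -/

theorem Reg.face_re (hT : Ts T D a b c) {v x y : V} (h : Face T v x y) (hv : Re D v)
    (hx : Re D x) (hy : Re D y) : Ar D v x ∧ Ar D x y ∧ Ar D y v := by
  have cT := hT.pl.disc.cx
  rcases h with h | h
  · exact ⟨hT.re _ _ (Or.inl ⟨y, h⟩) hv hx, hT.re _ _ (Or.inl ⟨v, cT.rot h⟩) hx hy,
      hT.re _ _ (Or.inl ⟨x, (rot3 cT h).2⟩) hy hv⟩
  · exact ⟨hT.re _ _ (Or.inr ⟨y, (rot3 cT h).2⟩) hv hx,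
      hT.re _ _ (Or.inr ⟨v, cT.rot h⟩) hx hy, hT.re _ _ (Or.inr ⟨x, h⟩) hy hv⟩

omit [DecidableEq V] in
theorem sosi_symm {v y z : V} (h : SoSi D v y z) : SoSi D v z y :=
  h.imp And.symm And.symm

theorem sv_pos {v x y : V} (h : Face X v x y) (hx : Re D x) (hy : Re D y)
    (hs : SoSi D v x y) : 1 ≤ sv X D v := by
  classical
  unfold sv
  apply Finset.card_pos.2
  rcases h with h | h
  · exact ⟨_, Finset.mem_filter.2 ⟨h, rfl, hx, hy, hs⟩⟩
  · exact ⟨_, Finset.mem_filter.2 ⟨h, rfl, hy, hx, sosi_symm hs⟩⟩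

theorem sv_two {v x w y : V} (hX : IsCx X) (hxy : x ≠ y) (h : Face X v x w) (h' : Face X v w y)
    (hx : Re D x) (hw : Re D w) (hy : Re D y) (hs : SoSi D v x w) (hs' : SoSi D v w y) :
    2 ≤ sv X D v := by
  classical
  unfold sv
  apply Finset.one_lt_card.2
  have xw : x ≠ w := by
    rcases h with h | h
    · exact (cx_ne hX h).2.1
    · exact (cx_ne hX h).2.1.symm
  have wy : w ≠ y := by
    rcases h' with h | h
    · exact (cx_ne hX h).2.1
    · exact (cx_ne hX h).2.1.symm
  have k1 : ∃ t ∈ X.filter (fun t => t.1 = v ∧ Re D t.2.1 ∧ Re D t.2.2 ∧ SoSi D v t.2.1 t.2.2),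
      t = (v, x, w) ∨ t = (v, w, x) := by
    rcases h with h | h
    · exact ⟨_, Finset.mem_filter.2 ⟨h, rfl, hx, hw, hs⟩, Or.inl rfl⟩
    · exact ⟨_, Finset.mem_filter.2 ⟨h, rfl, hw, hx, sosi_symm hs⟩, Or.inr rfl⟩
  have k2 : ∃ t ∈ X.filter (fun t => t.1 = v ∧ Re D t.2.1 ∧ Re D t.2.2 ∧ SoSi D v t.2.1 t.2.2),
      t = (v, w, y) ∨ t = (v, y, w) := by
    rcases h' with h | h
    · exact ⟨_, Finset.mem_filter.2 ⟨h, rfl, hw, hy, hs'⟩, Or.inl rfl⟩
    · exact ⟨_, Finset.mem_filter.2 ⟨h, rfl, hy, hw, sosi_symm hs'⟩, Or.inr rfl⟩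
  obtain ⟨t1, m1, e1⟩ := k1
  obtain ⟨t2, m2, e2⟩ := k2
  refine ⟨t1, m1, t2, m2, ?_⟩
  rcases e1 with rfl | rfl <;> rcases e2 with rfl | rfl <;>
    simp only [ne_eq, Prod.mk.injEq, true_and, not_and]
  · exact fun e => absurd e xw
  · exact fun e => absurd e hxy
  · exact hxy
  · exact fun e => absurd e wy

theorem qv_pos {v d : V} (hX : IsCx X) (hd : ¬ Re D d) (h : Adj X v d) : 1 ≤ qv X D v := by
  classical
  unfold qv
  exact Finset.card_pos.2 ⟨d, Finset.mem_filter.2 ⟨(adj_vert hX h).2.1, hd, h⟩⟩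

theorem qv_two {v d d' : V} (hX : IsCx X) (hd : ¬ Re D d) (hd' : ¬ Re D d') (h : Adj X v d)
    (h' : Adj X v d') (hne : d ≠ d') : 2 ≤ qv X D v := by
  classical
  unfold qv
  exact Finset.one_lt_card.2 ⟨d, Finset.mem_filter.2 ⟨(adj_vert hX h).2.1, hd, h⟩,
    d', Finset.mem_filter.2 ⟨(adj_vert hX h').2.1, hd', h'⟩, hne⟩

omit [DecidableEq V] in
theorem face_adj (hX : IsCx X) {v x y : V} (h : Face X v x y) : Adj X v x ∧ Adj X x y ∧
    Adj X v y := by
  rcases h with h | h
  · exact ⟨Or.inl ⟨y, h⟩, Or.inl ⟨v, hX.rot h⟩, Or.inr ⟨x, (rot3 hX h).2⟩⟩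
  · exact ⟨Or.inr ⟨y, (rot3 hX h).2⟩, Or.inr ⟨v, hX.rot h⟩, Or.inl ⟨x, h⟩⟩

/-! ### two mid corners side by side -/

/-- two mid corners at `v` on both sides of an inner neighbour `u`: impossible -/
theorem mid_mid (hF : FanT V) (hM : MCw T D a b c) (hT : Ts T D a b c) {v x u y : V}
    (hu : ¬ Tr a b c u) (hg : Good T D u) (h1 : Face T v x u) (h2 : Face T v u y) (hxy : x ≠ y)
    (hv : Re D v) (hx : Re D x) (hur : Re D u) (hy : Re D y) (n1 : ¬ SoSi D v x u)
    (n2 : ¬ SoSi D v u y) : False := by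
  have cT := hT.pl.disc.cx
  have tri := hT.pl.tri
  have asm := hT.pl.asymm
  obtain ⟨a1, a2, a3⟩ := Reg.face_re hT h1 hv hx hur
  obtain ⟨b1, b2, b3⟩ := Reg.face_re hT h2 hv hur hy
  have sp : ∀ {p : V}, Ar D v p → Ar D p u → ¬ SoSi D v p u → (D p v ↔ D p u) := by
    intro p hp hpu hn
    rcases b1 with k | k
    · -- `v → u`, so `p → v`
      have h3 : D p v := by
        rcases hp with h | h
        · exact absurd (Or.inl ⟨h, k⟩) hn
        · exact h
      have h4 : D p u := by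
        rcases hpu with h | h
        · exact h
        · exact absurd h3 (tri _ _ _ k h)
      exact ⟨fun _ => h4, fun _ => h3⟩
    · have h3 : D v p := by
        rcases hp with h | h
        · exact h
        · exact absurd (Or.inr ⟨h, k⟩) hn
      have h4 : D u p := by
        rcases hpu with h | h
        · exact absurd h (tri _ _ _ k h3)
        · exact h
      exact ⟨fun h => absurd h (asm _ _ h3), fun h => absurd h (asm _ _ h4)⟩
  have sx := sp a1 a2 n1
  have sy := sp (ar_symm b3) (ar_symm b2) (fun h => n2 (sosi_symm h))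
  rcases h1 with h1 | h1
  · -- `(v, x, u)`, so `(u, v, x)`
    have g1 := (rot3 cT h1).2
    rcases h2 with h2 | h2
    · exact no_contract hF hM hT hu hg h2 g1 hy hx b1 sy sx
    · exact hxy (cT.uniq g1 ((rot3 cT h2).2))
  · rcases h2 with h2 | h2
    · exact hxy (cT.uniq h1 h2)
    · exact no_contract hF hM hT hu hg h1 ((rot3 cT h2).2) hx hy b1 sx sy

/-! ### a corner as a path -/

/-- the triangles of `X` at the boundary vertex `v` as a path of inner vertices from the boundary
neighbour `p` to the boundary neighbour `r` -/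
structure Path (X : Finset (V × V × V)) (D : V → V → Prop) (Z : List V) (v p : V) (m : List V)
    (r : V) : Prop where
  nd : (p :: (m ++ [r])).Nodup
  vr : Re D v
  pr : Re D p
  rr : Re D r
  fc : ∀ x y, Nx (p :: (m ++ [r])) x y → Face X v x y
  inn : ∀ x, x ∈ m → x ∈ verts X ∧ x ∉ Z

theorem Path.rev {v p r : V} {m : List V} (h : Path X D Z v p m r) :
    Path X D Z v r m.reverse p := by
  have e : r :: (m.reverse ++ [p]) = (p :: (m ++ [r])).reverse := by simp
  refine ⟨?_, h.vr, h.rr, h.pr, ?_, ?_⟩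
  · rw [e]
    exact List.nodup_reverse.2 h.nd
  · intro x y hxy
    rw [e, nx_reverse] at hxy
    exact (h.fc y x hxy).symm
  · intro x hx
    exact h.inn x (List.mem_reverse.1 hx)

theorem path_of [Infinite V] (hT : Ts T D a b c) (hR : Reg T X D Z) {v p r : V}
    (hp : Cyc Z v p) (hr : Cyc Z r v) (hch : ∀ u, u ∈ Z → Ar D v u → u = p ∨ u = r) :
    ∃ m, Path X D Z v p m r ∧ (∀ x y, (v, x, y) ∈ X ↔ Nx (p :: (m ++ [r])) x y) ∧
      (∀ x, Adj X v x ↔ x ∈ p :: (m ++ [r])) := by
  obtain ⟨m, h1, h2, h3, h4⟩ := link_bd hR.disc hR.bd hp hr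
  refine ⟨m, ⟨h1, hR.re v (cyc_mem hp).1, hR.re p (cyc_mem hp).2, hR.re r (cyc_mem hr).1,
    fun x y h => Or.inl ((h3 x y).2 h), ?_⟩, h3, h4⟩
  intro x hx
  have hx' : x ∈ p :: (m ++ [r]) := by simp [hx]
  have hadj := (h4 x).2 hx'
  refine ⟨(adj_vert hR.disc.cx hadj).2.1, fun hxZ => ?_⟩
  have har : Ar D v x := by
    refine hT.re v x ?_ (hR.re v (cyc_mem hp).1) (hR.re x hxZ)
    rcases hadj with ⟨z, hz⟩ | ⟨z, hz⟩
    · exact Or.inl ⟨z, hR.sub hz⟩
    · exact Or.inr ⟨z, hR.sub hz⟩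
  simp only [List.nodup_cons, List.mem_append, List.mem_cons, List.not_mem_nil, or_false,
    not_or] at h1
  rcases hch x hxZ har with rfl | rfl
  · exact h1.1.1 hx
  · have := h1.2
    rw [List.nodup_append] at this
    exact this.2.2 x hx x (by simp) rfl

/-- **B1**: at a corner which is not a single face, `s + q ≥ 1` -/
theorem corner_pos (hF : FanT V) (hM : MCw T D a b c) (hT : Ts T D a b c) (hR : Reg T X D Z)
    (hg : ∀ u, u ∈ verts X → Re D u → u ∉ Z → Good T D u) {v p r : V} {m : List V}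
    (hP : Path X D Z v p m r) (hm : m ≠ []) : 1 ≤ sv X D v + qv X D v := by
  by_contra hcon
  have hs : sv X D v = 0 := by omega
  have hq : qv X D v = 0 := by omega
  have cX := hR.disc.cx
  match m, hm, hP with
  | w :: m', _, hP =>
    have hpw : Face X v p w := hP.fc p w (Or.inl ⟨rfl, rfl⟩)
    have hwr : Re D w := by
      by_contra hd
      have := qv_pos cX hd (face_adj cX hpw).2.2
      omega
    obtain ⟨y, hy, hyr, hwy⟩ : ∃ y, Face X v w y ∧ Re D y ∧ p ≠ y := by
      match m', hP with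
      | [], hP =>
        refine ⟨r, hP.fc w r (Or.inr (Or.inl ⟨rfl, rfl⟩)), hP.rr, ?_⟩
        rintro rfl
        have := hP.nd
        simp at this
      | y :: m'', hP =>
        have hwy : Face X v w y := hP.fc w y (Or.inr (Or.inl ⟨rfl, rfl⟩))
        refine ⟨y, hwy, ?_, ?_⟩
        · by_contra hd
          have := qv_pos cX hd (face_adj cX hwy).2.2
          omega
        · rintro rfl
          have := hP.nd
          simp at this
    obtain ⟨i1, i2⟩ := hP.inn w (by simp)
    have n1 : ¬ SoSi D v p w := fun h => by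
      have := sv_pos hpw hP.pr hwr h
      omega
    have n2 : ¬ SoSi D v w y := fun h => by
      have := sv_pos hy hwr hyr h
      omega
    have up : ∀ {x y z : V}, Face X x y z → Face T x y z := fun h =>
      h.imp (fun k => hR.sub k) (fun k => hR.sub k)
    exact mid_mid hF hM hT (hR.inner hT i1 i2) (hg w i1 hwr i2) (up hpw) (up hy) hwy
      hP.vr hP.pr hwr hyr n1 n2

/-- **B2 (alpha)**: at a corner with `s + q ≤ 1` the first face, if real, is a mid face -/
theorem corner_mid (hF : FanT V) (hM : MCw T D a b c) (hT : Ts T D a b c) (hR : Reg T X D Z)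
    (hg : ∀ u, u ∈ verts X → Re D u → u ∉ Z → Good T D u) {v p r : V} {m : List V}
    (hP : Path X D Z v p m r)
    (hno : ∀ w, w ∈ verts X → w ∉ Z → Re D w → Adj X w p → ¬ Adj X w r)
    (h1 : sv X D v + qv X D v ≤ 1) {w : V} {m' : List V} (hm : m = w :: m') (hw : Re D w) :
    ¬ SoSi D v p w := by
  intro hS
  subst hm
  have cX := hR.disc.cx
  have hpw : Face X v p w := hP.fc p w (Or.inl ⟨rfl, rfl⟩)
  have hs := sv_pos hpw hP.pr hw hS
  have hq : qv X D v = 0 := by omega
  obtain ⟨i1, i2⟩ := hP.inn w (by simp)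
  have up : ∀ {x y z : V}, Face X x y z → Face T x y z := fun h =>
    h.imp (fun k => hR.sub k) (fun k => hR.sub k)
  match m', hP with
  | [], hP =>
    have hwr : Face X v w r := hP.fc w r (Or.inr (Or.inl ⟨rfl, rfl⟩))
    exact hno w i1 i2 hw (face_adj cX hpw).2.1.symm (face_adj cX hwr).2.1
  | u :: m'', hP =>
    have hwu : Face X v w u := hP.fc w u (Or.inr (Or.inl ⟨rfl, rfl⟩))
    have hur : Re D u := by
      by_contra hd
      have := qv_pos cX hd (face_adj cX hwu).2.2
      omega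
    have pu : p ≠ u := by
      rintro rfl
      have := hP.nd
      simp at this
    have n1 : ¬ SoSi D v w u := fun h => by
      have := sv_two cX pu hpw hwu hP.pr hw hur hS h
      omega
    obtain ⟨i3, i4⟩ := hP.inn u (by simp)
    obtain ⟨y, hy, hyr, hwy, hpy⟩ : ∃ y, Face X v u y ∧ Re D y ∧ w ≠ y ∧ p ≠ y := by
      match m'', hP with
      | [], hP =>
        refine ⟨r, hP.fc u r (Or.inr (Or.inr (Or.inl ⟨rfl, rfl⟩))), hP.rr, ?_, ?_⟩
        · rintro rfl
          have := hP.nd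
          simp at this
        · rintro rfl
          have := hP.nd
          simp at this
      | y :: m3, hP =>
        have hwy : Face X v u y := hP.fc u y (Or.inr (Or.inr (Or.inl ⟨rfl, rfl⟩)))
        refine ⟨y, hwy, ?_, ?_, ?_⟩
        · by_contra hd
          have := qv_pos cX hd (face_adj cX hwy).2.2
          omega
        · rintro rfl
          have := hP.nd
          simp at this
        · rintro rfl
          have := hP.nd
          simp at this
    have n2 : ¬ SoSi D v u y := by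
      intro h
      -- two source / sink corners `(p, w)` and `(u, y)`
      have : 2 ≤ sv X D v := by
        classical
        unfold sv
        apply Finset.one_lt_card.2
        have k1 : ∃ t ∈ X.filter (fun t => t.1 = v ∧ Re D t.2.1 ∧ Re D t.2.2 ∧
            SoSi D v t.2.1 t.2.2), t = (v, p, w) ∨ t = (v, w, p) := by
          rcases hpw with h | h
          · exact ⟨_, Finset.mem_filter.2 ⟨h, rfl, hP.pr, hw, hS⟩, Or.inl rfl⟩
          · exact ⟨_, Finset.mem_filter.2 ⟨h, rfl, hw, hP.pr, sosi_symm hS⟩, Or.inr rfl⟩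
        have k2 : ∃ t ∈ X.filter (fun t => t.1 = v ∧ Re D t.2.1 ∧ Re D t.2.2 ∧
            SoSi D v t.2.1 t.2.2), t = (v, u, y) ∨ t = (v, y, u) := by
          rcases hy with k | k
          · exact ⟨_, Finset.mem_filter.2 ⟨k, rfl, hur, hyr, h⟩, Or.inl rfl⟩
          · exact ⟨_, Finset.mem_filter.2 ⟨k, rfl, hyr, hur, sosi_symm h⟩, Or.inr rfl⟩
        obtain ⟨t1, m1, e1⟩ := k1
        obtain ⟨t2, m2, e2⟩ := k2
        refine ⟨t1, m1, t2, m2, ?_⟩
        have wu : w ≠ u := by
          rintro rfl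
          have := hP.nd
          simp at this
        rcases e1 with rfl | rfl <;> rcases e2 with rfl | rfl <;>
          simp only [ne_eq, Prod.mk.injEq, true_and, not_and]
        · exact fun e => absurd e pu
        · exact fun e => absurd e hpy
        · exact fun e => absurd e wu
        · exact fun e => absurd e hwy
      omega
    exact mid_mid hF hM hT (hR.inner hT i3 i4) (hg u i3 hur i4) (up hwu) (up hy) hwy
      hP.vr hw hur hyr n1 n2

end Pool.Agent.H13.G4
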