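import Pool.Agent.H13.G4.Bdd

/-!
# The sum of the charges of the inner vertices of a region

`inner_sum` : inner sum of `4 - s - q` `= 4 - 2 |Z| +` sum of `s + q` over the corners.
`sum_outer` : the whole disc: at least one.
`sum_four`, `sum_five` : regions of chordless cycles of length four (at least two), five (at least
one).
-/

set_option autoImplicit false

namespace Pool.Agent.H13.G4

open Relation Pool.Agent.H13.DA Pool.Agent.H72.G4 Pool.Agent.H96.G4

variable {V : Type*} [DecidableEq V] {T : Finset (V × V × V)} {D : V → V → Prop} {a b c : V}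
variable {X : Finset (V × V × V)} {Z : List V}

theorem Reg.adj_iff (hR : Reg T X D Z) (hT : Ts T D a b c) {v y : V} (hv : v ∈ verts X)
    (hvZ : v ∉ Z) : Adj X v y ↔ Adj T v y := by
  have cT := hT.pl.disc.cx
  have vr : v ∉ verts (T \ X) := fun h => hvZ (hR.sep v hv h)
  rw [adj_split hR.sub]
  constructor
  · exact Or.inr
  · rintro (h | h)
    · exact absurd (adj_vert (sdiff_isCx cT hR.disc.cx) h).1 vr
    · exact h

theorem sv_inner (hR : Reg T X D Z) {v : V} (hv : v ∈ verts X) (hvZ : v ∉ Z) :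
    sv X D v = sv T D v := by
  classical
  unfold sv
  congr 1
  ext ⟨x, y, z⟩
  simp only [Finset.mem_filter]
  constructor
  · rintro ⟨h1, h2⟩
    exact ⟨hR.sub h1, h2⟩
  · rintro ⟨h1, h2, h3⟩
    subst h2
    exact ⟨hR.tri_in hv hvZ h1, rfl, h3⟩

theorem qv_inner (hR : Reg T X D Z) (hT : Ts T D a b c) {v : V} (hv : v ∈ verts X)
    (hvZ : v ∉ Z) : qv X D v = qv T D v := by
  classical
  unfold qv
  congr 1
  ext y
  simp only [Finset.mem_filter]
  constructor
  · rintro ⟨_, h2, h3⟩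
    have h4 := (hR.adj_iff hT hv hvZ).1 h3
    exact ⟨(adj_vert hT.pl.disc.cx h4).2.1, h2, h4⟩
  · rintro ⟨_, h2, h3⟩
    have h4 := (hR.adj_iff hT hv hvZ).2 h3
    exact ⟨(adj_vert hR.disc.cx h4).2.1, h2, h4⟩

open Classical in
theorem inner_sum (hR : Reg T X D Z) (hT : Ts T D a b c) :
    ∑ v ∈ (verts X).filter (fun v => Re D v ∧ v ∉ Z), ((4 : ℤ) - sv T D v - qv T D v) =
      4 - 2 * Z.length + (Z.map fun v => ((sv X D v : ℤ) + qv X D v)).sum := by
  have h1 := (hR.dm hT).count hR.disc hR.bd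
  have e1 : (verts X).filter (fun v => Re D v) =
      (verts X).filter (fun v => Re D v ∧ v ∉ Z) ∪ Z.toFinset := by
    ext v
    simp only [Finset.mem_union, Finset.mem_filter, List.mem_toFinset]
    constructor
    · rintro ⟨h1, h2⟩
      by_cases h : v ∈ Z
      · exact Or.inr h
      · exact Or.inl ⟨h1, h2, h⟩
    · rintro (⟨h1, h2, _⟩ | h)
      · exact ⟨h1, h2⟩
      · exact ⟨hR.bd.verts hR.disc.cx h, hR.re v h⟩
  have e2 : Disjoint ((verts X).filter (fun v => Re D v ∧ v ∉ Z)) Z.toFinset := by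
    rw [Finset.disjoint_left]
    intro v h1 h2
    exact (Finset.mem_filter.1 h1).2.2 (List.mem_toFinset.1 h2)
  rw [e1, Finset.sum_union e2, List.sum_toFinset _ hR.bd.nodup] at h1
  have e3 : ∑ v ∈ (verts X).filter (fun v => Re D v ∧ v ∉ Z),
      ((4 : ℤ) - sv X D v - qv X D v) =
      ∑ v ∈ (verts X).filter (fun v => Re D v ∧ v ∉ Z), ((4 : ℤ) - sv T D v - qv T D v) := by
    apply Finset.sum_congr rfl
    intro v hv
    obtain ⟨h2, _, h3⟩ := Finset.mem_filter.1 hv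
    rw [sv_inner hR h2 h3, qv_inner hR hT h2 h3]
  rw [e3] at h1
  have e4 : (Z.map fun v => ((4 : ℤ) - sv X D v - qv X D v)).sum =
      4 * Z.length - (Z.map fun v => ((sv X D v : ℤ) + qv X D v)).sum := by
    induction Z with
    | nil => simp
    | cons z m ih =>
      clear h1 e1 e2 e3 hR ih
      induction (z :: m) with
      | nil => simp
      | cons y l ih =>
        simp only [List.map_cons, List.sum_cons, List.length_cons]
        rw [ih]
        push_cast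
        ring
  rw [e4] at h1
  linarith

/-- the outer triangle is not a face -/
theorem outer_no (hM : MCw T D a b c) : (a, b, c) ∉ T := by
  intro h
  have hD := hM.pl.disc
  have hT := hD.cx
  have hnd := hM.pl.bd.nodup
  obtain ⟨n1, n2, n3⟩ := cx_ne hT h
  have e : tri a b c = T := by
    refine sub_eq_bd hT hD.conn (tri_sub hT h) ?_ ?_ ⟨_, mem_tri.2 (Or.inl rfl)⟩
    · exact tri_isCx hT h
    · intro x y h1 h2
      exfalso
      rw [dir_tri] at h1
      have key : ∀ {p q : V}, Cyc [a, b, c] p q → Dir T q p → False := fun hc hd =>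
        (bd_cyc hM.pl.bd hc).2 hd
      rcases h1 with ⟨rfl, rfl⟩ | ⟨rfl, rfl⟩ | ⟨rfl, rfl⟩
      · exact key (by rw [cyc3]; exact Or.inl ⟨rfl, rfl⟩) h2
      · exact key (by rw [cyc3]; exact Or.inr (Or.inl ⟨rfl, rfl⟩)) h2
      · exact key (by rw [cyc3]; exact Or.inr (Or.inr (Or.inl ⟨rfl, rfl⟩))) h2
  have hv : ∀ x, Re D x → Tr a b c x := by
    intro x hx
    have := hM.pl.re_mem hx
    rw [← e, verts_tri] at this
    simpa [Tr] using this
  refine hM.bad ?_
  intro O hO hE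
  exact ⟨O, hO, fun x y hxy => hE x y (hv x ⟨y, Or.inl hxy⟩) (hv y ⟨x, Or.inr hxy⟩) hxy,
    fun _ _ _ _ _ => Iff.rfl⟩

open Classical in
/-- **the whole disc**: the inner vertices have total charge at least one -/
theorem sum_outer [Infinite V] (hF : FanT V) (hM : MCw T D a b c) (hT : Ts T D a b c)
    (hg : ∀ u, Re D u → ¬ Tr a b c u → Good T D u) :
    1 ≤ ∑ v ∈ (verts T).filter (fun v => Re D v ∧ ¬ Tr a b c v),
      ((4 : ℤ) - sv T D v - qv T D v) := by
  have hR := reg_self hT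
  have cT := hT.pl.disc.cx
  have mem : ∀ v, v ∈ [a, b, c] ↔ Tr a b c v := by
    intro v
    simp [Tr]
  have hg' : ∀ u, u ∈ verts T → Re D u → u ∉ [a, b, c] → Good T D u := fun u _ h1 h2 =>
    hg u h1 (fun h => h2 ((mem u).2 h))
  have e := inner_sum hR hT
  have e0 : (verts T).filter (fun v => Re D v ∧ v ∉ [a, b, c]) =
      (verts T).filter (fun v => Re D v ∧ ¬ Tr a b c v) := by
    apply Finset.filter_congr
    intro v _
    rw [mem]
  rw [e0] at e
  rw [e]
  have key : ∀ v p r, Cyc [a, b, c] v p → Cyc [a, b, c] r v → (v, p, r) ∉ T →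
      (∀ u, u ∈ [a, b, c] → Ar D v u → u = p ∨ u = r) → 1 ≤ sv T D v + qv T D v := by
    intro v p r hp hr hf hch
    obtain ⟨m, h1, h2, h3⟩ := path_of hT hR hp hr hch
    refine corner_pos hF hM hT hR hg' h1 ?_
    rintro rfl
    exact hf ((h2 p r).2 (Or.inl ⟨rfl, rfl⟩))
  have no := outer_no hM
  have irr : ∀ x, ¬ Ar D x x := fun x h => (ar_ne cT hT.pl h) rfl
  have ka := key a b c (by rw [cyc3]; exact Or.inl ⟨rfl, rfl⟩)
    (by rw [cyc3]; exact Or.inr (Or.inr (Or.inl ⟨rfl, rfl⟩))) no (by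
      intro u hu har
      simp only [List.mem_cons, List.not_mem_nil, or_false] at hu
      rcases hu with rfl | rfl | rfl
      · exact absurd har (irr _)
      · exact Or.inl rfl
      · exact Or.inr rfl)
  have kb := key b c a (by rw [cyc3]; exact Or.inr (Or.inl ⟨rfl, rfl⟩))
    (by rw [cyc3]; exact Or.inl ⟨rfl, rfl⟩) (fun h => no (rot3 cT h).2) (by
      intro u hu har
      simp only [List.mem_cons, List.not_mem_nil, or_false] at hu
      rcases hu with rfl | rfl | rfl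
      · exact Or.inr rfl
      · exact absurd har (irr _)
      · exact Or.inl rfl)
  have kc := key c a b (by rw [cyc3]; exact Or.inr (Or.inr (Or.inl ⟨rfl, rfl⟩)))
    (by rw [cyc3]; exact Or.inr (Or.inl ⟨rfl, rfl⟩)) (fun h => no (rot3 cT h).1) (by
      intro u hu har
      simp only [List.mem_cons, List.not_mem_nil, or_false] at hu
      rcases hu with rfl | rfl | rfl
      · exact Or.inl rfl
      · exact Or.inr rfl
      · exact absurd har (irr _))
  simp only [List.map_cons, List.map_nil, List.sum_cons, List.sum_nil, List.length_cons,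
    List.length_nil]
  omega

open Classical in
/-- **regions of chordless cycles of length four** -/
theorem sum_four [Infinite V] (hF : FanT V) (hM : MCw T D a b c) (hT : Ts T D a b c)
    {z1 z2 z3 z4 : V} (hR : Rg T X D [z1, z2, z3, z4]) :
    2 ≤ ∑ v ∈ (verts X).filter (fun v => Re D v ∧ v ∉ [z1, z2, z3, z4]),
      ((4 : ℤ) - sv T D v - qv T D v) := by
  have e := inner_sum hR.reg hT
  rw [e]
  have cc : ∀ x y, Cyc [z1, z2, z3, z4] x y ↔
      (x = z1 ∧ y = z2) ∨ (x = z2 ∧ y = z3) ∨ (x = z3 ∧ y = z4) ∨ (x = z4 ∧ y = z1) := by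
    intro a b
    rw [cyc3]
    simp only [List.cons_append, List.nil_append, Nx, or_false]
  have p1 := hR.pos hF hM hT (v := z1) (by simp)
  have p2 := hR.pos hF hM hT (v := z2) (by simp)
  have p3 := hR.pos hF hM hT (v := z3) (by simp)
  have p4 := hR.pos hF hM hT (v := z4) (by simp)
  have c12 := (cc z1 z2).2 (Or.inl ⟨rfl, rfl⟩)
  have c23 := (cc z2 z3).2 (Or.inr (Or.inl ⟨rfl, rfl⟩))
  have c34 := (cc z3 z4).2 (Or.inr (Or.inr (Or.inl ⟨rfl, rfl⟩)))
  have c41 := (cc z4 z1).2 (Or.inr (Or.inr (Or.inr ⟨rfl, rfl⟩)))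
  have t1 := hR.no_three hF hM hT c41 c12
  have t2 := hR.no_three hF hM hT c12 c23
  have t3 := hR.no_three hF hM hT c23 c34
  have t4 := hR.no_three hF hM hT c34 c41
  simp only [List.map_cons, List.map_nil, List.sum_cons, List.sum_nil, List.length_cons,
    List.length_nil]
  by_contra hcon
  have h1 : ¬ (sv X D z4 + qv X D z4 ≤ 1 ∧ sv X D z1 + qv X D z1 ≤ 1 ∧
      sv X D z2 + qv X D z2 ≤ 1) := fun h => t1 h.1 h.2.1 h.2.2
  have h2 : ¬ (sv X D z1 + qv X D z1 ≤ 1 ∧ sv X D z2 + qv X D z2 ≤ 1 ∧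
      sv X D z3 + qv X D z3 ≤ 1) := fun h => t2 h.1 h.2.1 h.2.2
  have h3 : ¬ (sv X D z2 + qv X D z2 ≤ 1 ∧ sv X D z3 + qv X D z3 ≤ 1 ∧
      sv X D z4 + qv X D z4 ≤ 1) := fun h => t3 h.1 h.2.1 h.2.2
  have h4 : ¬ (sv X D z3 + qv X D z3 ≤ 1 ∧ sv X D z4 + qv X D z4 ≤ 1 ∧
      sv X D z1 + qv X D z1 ≤ 1) := fun h => t4 h.1 h.2.1 h.2.2
  omega

open Classical in
/-- **regions of chordless cycles of length five** -/
theorem sum_five [Infinite V] (hF : FanT V) (hM : MCw T D a b c) (hT : Ts T D a b c)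
    {z1 z2 z3 z4 z5 : V} (hR : Rg T X D [z1, z2, z3, z4, z5]) :
    1 ≤ ∑ v ∈ (verts X).filter (fun v => Re D v ∧ v ∉ [z1, z2, z3, z4, z5]),
      ((4 : ℤ) - sv T D v - qv T D v) := by
  have e := inner_sum hR.reg hT
  rw [e]
  have cc : ∀ x y, Cyc [z1, z2, z3, z4, z5] x y ↔
      (x = z1 ∧ y = z2) ∨ (x = z2 ∧ y = z3) ∨ (x = z3 ∧ y = z4) ∨ (x = z4 ∧ y = z5) ∨
        (x = z5 ∧ y = z1) := by
    intro a b
    rw [cyc3]
    simp only [List.cons_append, List.nil_append, Nx, or_false]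
  have p1 := hR.pos hF hM hT (v := z1) (by simp)
  have p2 := hR.pos hF hM hT (v := z2) (by simp)
  have p3 := hR.pos hF hM hT (v := z3) (by simp)
  have p4 := hR.pos hF hM hT (v := z4) (by simp)
  have p5 := hR.pos hF hM hT (v := z5) (by simp)
  have c12 := (cc z1 z2).2 (Or.inl ⟨rfl, rfl⟩)
  have c23 := (cc z2 z3).2 (Or.inr (Or.inl ⟨rfl, rfl⟩))
  have c34 := (cc z3 z4).2 (Or.inr (Or.inr (Or.inl ⟨rfl, rfl⟩)))
  have c45 := (cc z4 z5).2 (Or.inr (Or.inr (Or.inr (Or.inl ⟨rfl, rfl⟩))))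
  have c51 := (cc z5 z1).2 (Or.inr (Or.inr (Or.inr (Or.inr ⟨rfl, rfl⟩))))
  have h1 : ¬ (sv X D z5 + qv X D z5 ≤ 1 ∧ sv X D z1 + qv X D z1 ≤ 1 ∧
      sv X D z2 + qv X D z2 ≤ 1) := fun h => hR.no_three hF hM hT c51 c12 h.1 h.2.1 h.2.2
  have h2 : ¬ (sv X D z1 + qv X D z1 ≤ 1 ∧ sv X D z2 + qv X D z2 ≤ 1 ∧
      sv X D z3 + qv X D z3 ≤ 1) := fun h => hR.no_three hF hM hT c12 c23 h.1 h.2.1 h.2.2
  have h3 : ¬ (sv X D z2 + qv X D z2 ≤ 1 ∧ sv X D z3 + qv X D z3 ≤ 1 ∧
      sv X D z4 + qv X D z4 ≤ 1) := fun h => hR.no_three hF hM hT c23 c34 h.1 h.2.1 h.2.2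
  have h4 : ¬ (sv X D z3 + qv X D z3 ≤ 1 ∧ sv X D z4 + qv X D z4 ≤ 1 ∧
      sv X D z5 + qv X D z5 ≤ 1) := fun h => hR.no_three hF hM hT c34 c45 h.1 h.2.1 h.2.2
  have h5 : ¬ (sv X D z4 + qv X D z4 ≤ 1 ∧ sv X D z5 + qv X D z5 ≤ 1 ∧
      sv X D z1 + qv X D z1 ≤ 1) := fun h => hR.no_three hF hM hT c45 c51 h.1 h.2.1 h.2.2
  simp only [List.map_cons, List.map_nil, List.sum_cons, List.sum_nil, List.length_cons,
    List.length_nil]
  by_contra hcon
  omega

end Pool.Agent.H13.G4
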