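import Pool.Agent.H13.G4.Bde
import Pool.Agent.H13.G4.Pc

/-!
# Requests at the boundary of a region

`Rqs X D Z U1 U2 R` : the facts about the requests at the boundary vertices of the region `X`.
`net6 = 6 (s + q) - 2 |U1| - 2 |U2| - 3 |R|`.
-/

set_option autoImplicit false

namespace Pool.Agent.H13.G4

open Relation Pool.Agent.H13.DA Pool.Agent.H72.G4 Pool.Agent.H96.G4

variable {V : Type*}

/-- `m` is the mid vertex of the triangle `p, q, m` -/
def Mid (D : V → V → Prop) (m p q : V) : Prop :=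
  (D p m ∧ D m q ∧ D p q) ∨ (D q m ∧ D m p ∧ D q p)

/-- the edge `b o` is special on the other side of `d` -/
def Spc (X : Finset (V × V × V)) (D : V → V → Prop) (b d o : V) : Prop :=
  ∃ z, z ≠ d ∧ Face X b o z ∧ (¬ Re D z ∨ Mid D z b o)

/-- the facts about the requests -/
structure Rqs (X : Finset (V × V × V)) (D : V → V → Prop) (Z : List V)
    (U1 U2 R : V → V → Prop) : Prop where
  u1 : ∀ b a, b ∈ Z → U1 b a → Re D a ∧ a ∉ Z ∧ ∃ d x, ¬ Re D d ∧ Face X b a d ∧ Re D x ∧
    Face X b a x ∧ Mid D a b x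
  u2 : ∀ b d, b ∈ Z → U2 b d → ¬ Re D d ∧ ∃ o i, o ≠ i ∧ o ∉ Z ∧ i ∉ Z ∧ Face X b d o ∧
    Face X b d i ∧ (Spc X D b d o ∨ Spc X D b d i)
  r : ∀ b v, b ∈ Z → R b v → Re D v ∧ v ∉ Z ∧ ∃ x y, x ≠ y ∧ Re D x ∧ Re D y ∧
    Face X b x v ∧ Mid D x b v ∧ Face X b v y ∧ Mid D v b y ∧
    (y ∈ Z ∨ Spc X D b v y)

theorem mid_symm {D : V → V → Prop} {m p q : V} (h : Mid D m p q) : Mid D m q p := Or.symm h

theorem mid_ne {D : V → V → Prop} (asm : ∀ x y, D x y → ¬ D y x) {m p q : V}
    (h : Mid D m p q) : ¬ Mid D q p m := by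
  rintro (⟨k1, k2, k3⟩ | ⟨k1, k2, k3⟩) <;> rcases h with ⟨h1, h2, h3⟩ | ⟨h1, h2, h3⟩
  · exact asm _ _ h2 k2
  · exact asm _ _ h3 k1
  · exact asm _ _ h1 k3
  · exact asm _ _ h1 k1

theorem sosi_of_mid {D : V → V → Prop} {a b x : V} (h : Mid D a b x) : SoSi D b a x := by
  rcases h with ⟨h1, h2, h3⟩ | ⟨h1, h2, h3⟩
  · exact Or.inl ⟨h1, h3⟩
  · exact Or.inr ⟨h2, h3⟩

/-- not a source or sink: the mid vertex -/
theorem mid_of {D : V → V → Prop} (htr : ∀ x y z, D x y → D y z → ¬ D z x) {m p q : V}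
    (h1 : Ar D m p) (h2 : Ar D p q) (h3 : Ar D q m) (n : ¬ SoSi D m p q) : Mid D m p q := by
  unfold SoSi at n
  rcases h1 with h1 | h1
  · rcases h3 with h3 | h3
    · rcases h2 with h2 | h2
      · exact absurd h3 (htr _ _ _ h1 h2)
      · exact Or.inr ⟨h3, h1, h2⟩
    · exact absurd (Or.inl ⟨h1, h3⟩) n
  · rcases h3 with h3 | h3
    · exact absurd (Or.inr ⟨h1, h3⟩) n
    · rcases h2 with h2 | h2
      · exact Or.inl ⟨h1, h3, h2⟩
      · exact absurd h1 (htr _ _ _ h3 h2)

variable [DecidableEq V] {T : Finset (V × V × V)} {D : V → V → Prop} {a b c : V}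
variable {X : Finset (V × V × V)} {Z : List V} {U1 U2 R : V → V → Prop}

open Classical in
/-- the number of vertices of `X` with the property `P` -/
noncomputable def cn (X : Finset (V × V × V)) (P : V → Prop) : ℕ := ((verts X).filter P).card

open Classical in
/-- the source / sink corners at `b` -/
noncomputable def SC (X : Finset (V × V × V)) (D : V → V → Prop) (b : V) :
    Finset (V × V × V) :=
  X.filter (fun t => t.1 = b ∧ Re D t.2.1 ∧ Re D t.2.2 ∧ SoSi D b t.2.1 t.2.2)

theorem sc_card (b : V) : (SC X D b).card = sv X D b := by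
  unfold SC sv
  congr

theorem mem_SC {b x y : V} : (b, x, y) ∈ SC X D b ↔ (b, x, y) ∈ X ∧ Re D x ∧ Re D y ∧
    SoSi D b x y := by
  classical
  unfold SC
  rw [Finset.mem_filter]
  simp

/-- a source / sink corner as a member of `SC` -/
theorem face_SC {b x y : V} (h : Face X b x y) (hx : Re D x) (hy : Re D y)
    (hs : SoSi D b x y) : ∃ t ∈ SC X D b, t = (b, x, y) ∨ t = (b, y, x) := by
  rcases h with h | h
  · exact ⟨_, mem_SC.2 ⟨h, hx, hy, hs⟩, Or.inl rfl⟩
  · exact ⟨_, mem_SC.2 ⟨h, hy, hx, sosi_symm hs⟩, Or.inr rfl⟩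

theorem u1_aux (asm : ∀ x y, D x y → ¬ D y x) (hQ : Rqs X D Z U1 U2 R) {b : V} (hb : b ∈ Z)
    (hX : IsCx X) (S : Finset (V × V × V))
    (hS : ∀ a x, Re D a → Re D x → a ∉ Z → Face X b a x → Mid D a b x →
      ∃ t ∈ S, t = (b, a, x) ∨ t = (b, x, a)) : cn X (U1 b) ≤ S.card := by
  classical
  unfold cn
  refine Finset.card_le_card_of_forall_subsingleton
    (fun a t => (t.2.1 = a ∧ Mid D a b t.2.2) ∨ (t.2.2 = a ∧ Mid D a b t.2.1)) ?_ ?_
  · intro a ha
    obtain ⟨_, h1⟩ := Finset.mem_filter.1 ha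
    obtain ⟨h2, h3, d, x, h4, h5, h6, h7, h8⟩ := hQ.u1 b a hb h1
    obtain ⟨t, t1, t2⟩ := hS a x h2 h6 h3 h7 h8
    refine ⟨t, t1, ?_⟩
    rcases t2 with rfl | rfl
    · exact Or.inl ⟨rfl, h8⟩
    · exact Or.inr ⟨rfl, h8⟩
  · intro t _ a ha a' ha'
    obtain ⟨_, h1⟩ := ha
    obtain ⟨_, h2⟩ := ha'
    rcases h1 with ⟨h1, h3⟩ | ⟨h1, h3⟩ <;> rcases h2 with ⟨h2, h4⟩ | ⟨h2, h4⟩
    · exact h1.symm.trans h2
    · rw [h2] at h3
      rw [h1] at h4
      exact absurd h4 (mid_ne asm h3)
    · rw [h2] at h3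
      rw [h1] at h4
      exact absurd h4 (mid_ne asm h3)
    · exact h1.symm.trans h2

/-- (A) -/
theorem u1_le (asm : ∀ x y, D x y → ¬ D y x) (hQ : Rqs X D Z U1 U2 R) {b : V} (hb : b ∈ Z)
    (hX : IsCx X) : cn X (U1 b) ≤ sv X D b := by
  rw [← sc_card]
  exact u1_aux asm hQ hb hX _ fun a x h1 h2 _ h3 h4 => face_SC h3 h1 h2 (sosi_of_mid h4)

/-- (B) -/
theorem u2_le (hQ : Rqs X D Z U1 U2 R) {b : V} (hb : b ∈ Z) (hX : IsCx X) :
    cn X (U2 b) ≤ qv X D b := by
  classical
  unfold cn qv
  apply Finset.card_le_card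
  intro d hd
  obtain ⟨h0, h1⟩ := Finset.mem_filter.1 hd
  obtain ⟨h2, o, i, _, _, _, h3, _⟩ := hQ.u2 b d hb h1
  exact Finset.mem_filter.2 ⟨h0, h2, (face_adj hX h3).1⟩

theorem r_disj (asm : ∀ x y, D x y → ¬ D y x) (hQ : Rqs X D Z U1 U2 R) {b : V} (hb : b ∈ Z)
    (hX : IsCx X) {v v' : V} (hv : R b v) (hv' : R b v') (hf : Face X b v v') : False := by
  obtain ⟨a1, a2, x, y, xy, rx, ry, f1, m1, f2, m2, sp⟩ := hQ.r b v hb hv
  obtain ⟨a1', a2', x', y', xy', rx', ry', f1', m1', f2', m2', sp'⟩ := hQ.r b v' hb hv'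
  have g1 : v' = x ∨ v' = y := by
    rcases two_faces hX hf f1.symm f2 with e | e | e
    · exact Or.inl e
    · exact absurd e xy
    · exact Or.inr e
  have g2 : v = x' ∨ v = y' := by
    rcases two_faces hX hf.symm f1'.symm f2' with e | e | e
    · exact Or.inl e
    · exact absurd e xy'
    · exact Or.inr e
  rcases g1 with rfl | rfl
  · rcases g2 with rfl | rfl
    · exact mid_ne asm m1 m1'
    · rcases sp' with k | ⟨z, z1, z2, z3⟩
      · exact a2 k
      · have e : z = y := by
          rcases two_faces hX z2 f1.symm f2 with e | e | e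
          · exact absurd e z1
          · exact absurd e xy
          · exact e
        subst e
        rcases z3 with k | k
        · exact k ry
        · exact mid_ne asm m2 (mid_symm (mid_symm k))
  · rcases g2 with rfl | rfl
    · rcases sp with k | ⟨z, z1, z2, z3⟩
      · exact a2' k
      · have e : z = y' := by
          rcases two_faces hX z2 f1'.symm f2' with e | e | e
          · exact absurd e z1
          · exact absurd e xy'
          · exact e
        subst e
        rcases z3 with k | k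
        · exact k ry'
        · exact mid_ne asm m2' k
    · exact mid_ne asm m2 m2'

/-- (C) -/
theorem r_le (asm : ∀ x y, D x y → ¬ D y x) (hQ : Rqs X D Z U1 U2 R) {b : V} (hb : b ∈ Z)
    (hX : IsCx X) : 2 * cn X (R b) ≤ sv X D b := by
  classical
  rw [← sc_card]
  unfold cn
  have := Finset.card_mul_le_card_mul (s := (verts X).filter (R b)) (t := SC X D b)
    (fun v t => t.2.1 = v ∨ t.2.2 = v) (m := 2) (n := 1) ?_ ?_
  · omega
  · intro v hv
    obtain ⟨_, h1⟩ := Finset.mem_filter.1 hv
    obtain ⟨a1, a2, x, y, xy, rx, ry, f1, m1, f2, m2, _⟩ := hQ.r b v hb h1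
    obtain ⟨t1, h1, e1⟩ := face_SC f1 rx a1 (sosi_of_mid m1)
    obtain ⟨t2, h2, e2⟩ := face_SC f2 a1 ry (sosi_of_mid m2)
    have hxv : x ≠ v := by
      rcases f1 with h | h
      · exact (cx_ne hX h).2.1
      · exact (cx_ne hX h).2.1.symm
    have hvy : v ≠ y := by
      rcases f2 with h | h
      · exact (cx_ne hX h).2.1
      · exact (cx_ne hX h).2.1.symm
    apply Finset.one_lt_card.2
    refine ⟨t1, ?_, t2, ?_, ?_⟩
    · rw [Finset.mem_bipartiteAbove]
      refine ⟨h1, ?_⟩
      rcases e1 with rfl | rfl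
      · exact Or.inr rfl
      · exact Or.inl rfl
    · rw [Finset.mem_bipartiteAbove]
      refine ⟨h2, ?_⟩
      rcases e2 with rfl | rfl
      · exact Or.inl rfl
      · exact Or.inr rfl
    · rcases e1 with rfl | rfl <;> rcases e2 with rfl | rfl <;>
        simp only [ne_eq, Prod.mk.injEq, true_and, not_and]
      · exact fun e => absurd e hxv
      · exact fun e => absurd e xy
      · exact xy
      · exact fun e => absurd e hvy
  · rintro ⟨b', x, y⟩ ht
    have hb' : b' = b := by
      unfold SC at ht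
      exact (Finset.mem_filter.1 ht).2.1
    subst hb'
    have hX' := (mem_SC.1 ht).1
    rw [Finset.card_le_one]
    intro v hv v' hv'
    rw [Finset.mem_bipartiteBelow, Finset.mem_filter] at hv hv'
    obtain ⟨⟨_, h1⟩, h2⟩ := hv
    obtain ⟨⟨_, h3⟩, h4⟩ := hv'
    simp only at h2 h4
    rcases h2 with rfl | rfl <;> rcases h4 with rfl | rfl
    · rfl
    · exact (r_disj asm hQ hb hX h1 h3 (Or.inl hX')).elim
    · exact (r_disj asm hQ hb hX h3 h1 (Or.inl hX')).elim
    · rfl

/-- (D) -/
theorem u1_zero (hQ : Rqs X D Z U1 U2 R) {b : V} (hb : b ∈ Z) (hX : IsCx X)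
    (hq : qv X D b = 0) : cn X (U1 b) = 0 := by
  classical
  unfold cn
  rw [Finset.card_eq_zero, Finset.filter_eq_empty_iff]
  intro a _ h1
  obtain ⟨_, _, d, x, h4, h5, _⟩ := hQ.u1 b a hb h1
  have := qv_pos hX h4 (face_adj hX h5).2.2
  omega

/-- (E) -/
theorem u2_zero (hQ : Rqs X D Z U1 U2 R) {b : V} (hb : b ∈ Z) (hX : IsCx X)
    (hf : sv X D b + qv X D b ≤ 1) : cn X (U2 b) = 0 := by
  classical
  unfold cn
  rw [Finset.card_eq_zero, Finset.filter_eq_empty_iff]
  intro d _ h1
  obtain ⟨h2, o, i, h3, h4, h5, h6, h7, h8⟩ := hQ.u2 b d hb h1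
  have hd := qv_pos hX h2 (face_adj hX h6).1
  have key : ∀ {o : V}, Face X b d o → Spc X D b d o → False := by
    rintro o ho ⟨z, z1, z2, z3⟩
    by_cases hz : Re D z
    · have hm := z3.resolve_left (not_not.2 hz)
      have hor : Re D o := by
        rcases hm with ⟨k, _, k'⟩ | ⟨k, _, k'⟩
        · exact ⟨_, Or.inr k'⟩
        · exact ⟨_, Or.inl k'⟩
      have := sv_pos (z2.symm : Face X b z o) hz hor (sosi_of_mid hm)
      omega
    · have := qv_two hX h2 hz (face_adj hX h6).1 (face_adj hX z2).2.2 z1.symm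
      omega
  rcases h8 with h8 | h8
  · exact key h6 h8
  · exact key h7 h8

/-- the face on a boundary edge, seen from an end with `s + q ≤ 1` -/
theorem Rg.midface [Infinite V] (hF : FanT V) (hM : MCw T D a b c) (hT : Ts T D a b c)
    (hR : Rg T X D Z) {q v t : V} (hqv : Cyc Z q v) (ht : (q, v, t) ∈ X) (htr : Re D t) :
    (sv X D q + qv X D q ≤ 1 → ¬ SoSi D q v t) ∧ (sv X D v + qv X D v ≤ 1 → ¬ SoSi D v q t) := by
  have cX := hR.reg.disc.cx
  obtain ⟨⟨s, hs⟩, _⟩ := mem_cyc (cyc_mem hqv).2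
  obtain ⟨_, ⟨q', hq'⟩⟩ := mem_cyc (cyc_mem hqv).1
  constructor
  · intro hq
    obtain ⟨m, m1, m2, m3⟩ := hR.path hT hqv hq'
    match m, m1, m2, m3 with
    | w :: m', _, m2, m3 =>
      have : (q, v, w) ∈ X := (m3 v w).2 (Or.inl ⟨rfl, rfl⟩)
      have e := cX.uniq this ht
      subst e
      exact corner_mid hF hM hT hR.reg hR.good m2 (hR.no2 q v q' hqv hq') hq rfl htr
  · intro hv
    obtain ⟨m, m1, m2, m3⟩ := hR.path hT hs hqv
    obtain ⟨m', w, rfl⟩ : ∃ m' w, m = m' ++ [w] := by
      rcases List.eq_nil_or_concat m with k' | ⟨l', y', k'⟩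
      · exact absurd k' m1
      · exact ⟨l', y', by simpa using k'⟩
    have : (v, w, q) ∈ X := by
      refine (m3 w q).2 ?_
      rw [show s :: (m' ++ [w] ++ [q]) = (s :: m') ++ [w, q] by simp, nx_snoc]
      exact Or.inr ⟨rfl, rfl⟩
    have e := cX.uniq (rot3 cX this).2 ht
    subst e
    have hrev := m2.rev
    rw [List.reverse_append, List.reverse_singleton, List.singleton_append] at hrev
    refine corner_mid hF hM hT hR.reg hR.good hrev ?_ hv rfl htr
    intro w h1 h2 h3 h4 h5
    exact hR.no2 v s q hs hqv w h1 h2 h3 h5 h4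

/-- (F) -/
theorem near_one [Infinite V] (hF : FanT V) (hM : MCw T D a b c) (hT : Ts T D a b c)
    (hR : Rg T X D Z) (hQ : Rqs X D Z U1 U2 R) {v p : V} (hvp : Cyc Z v p ∨ Cyc Z p v)
    (hp : sv X D p + qv X D p ≤ 1) :
    cn X (U2 v) + 1 ≤ qv X D v ∨
      (cn X (U1 v) + 1 ≤ sv X D v ∧ (sv X D v ≤ 2 → qv X D v = 0 → cn X (R v) = 0)) := by
  classical
  have cX := hR.reg.disc.cx
  have cT := hT.pl.disc.cx
  have asm := hT.pl.asymm
  have hvZ : v ∈ Z := by
    rcases hvp with h | h
    · exact (cyc_mem h).1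
    · exact (cyc_mem h).2
  have hpZ : p ∈ Z := by
    rcases hvp with h | h
    · exact (cyc_mem h).2
    · exact (cyc_mem h).1
  obtain ⟨t, ft, hmt⟩ : ∃ t, Face X v p t ∧ (Re D t → Mid D p v t) := by
    have gen : ∀ {t : V}, Face X v p t → (Re D t → ¬ SoSi D p v t) → Re D t → Mid D p v t := by
      intro t ht h1 h2
      have up : Face T v p t := ht.imp (fun k => hR.reg.sub k) (fun k => hR.reg.sub k)
      obtain ⟨g1, g2, g3⟩ := Reg.face_re hT up (hR.reg.re v hvZ) (hR.reg.re p hpZ) h2
      exact mid_of hT.pl.tri (ar_symm g1) (ar_symm g3) (ar_symm g2) (h1 h2)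
    rcases hvp with h | h
    · obtain ⟨⟨t, ht⟩, _⟩ := bd_cyc hR.reg.bd h
      refine ⟨t, Or.inl ht, gen (Or.inl ht) fun htr => ?_⟩
      exact (hR.midface hF hM hT h ht htr).2 hp
    · obtain ⟨⟨t, ht⟩, _⟩ := bd_cyc hR.reg.bd h
      have ht' : Face X v p t := Or.inr (cX.rot ht)
      refine ⟨t, ht', gen ht' fun htr => ?_⟩
      exact (hR.midface hF hM hT h ht htr).1 hp
  by_cases htr : Re D t
  · right
    have hm := hmt htr
    have hpr := hR.reg.re p hpZ
    obtain ⟨t0, t1, t2⟩ := face_SC ft hpr htr (sosi_of_mid hm)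
    have hpt : p ≠ t := by
      rcases ft with h | h
      · exact (cx_ne cX h).2.1
      · exact (cx_ne cX h).2.1.symm
    refine ⟨?_, ?_⟩
    · have h1 : cn X (U1 v) ≤ ((SC X D v).erase t0).card := by
        refine u1_aux asm hQ hvZ cX _ ?_
        intro a x ha hx haZ hfa hma
        obtain ⟨s, s1, s2⟩ := face_SC hfa ha hx (sosi_of_mid hma)
        refine ⟨s, Finset.mem_erase.2 ⟨?_, s1⟩, s2⟩
        rintro rfl
        have hap : a ≠ p := fun e => haZ (e ▸ hpZ)
        rcases t2 with rfl | rfl <;> rcases s2 with s2 | s2 <;>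
          simp only [Prod.mk.injEq, true_and] at s2
        · exact hap s2.1.symm
        · obtain ⟨rfl, rfl⟩ := s2
          exact mid_ne asm hma hm
        · obtain ⟨rfl, rfl⟩ := s2
          exact mid_ne asm hma hm
        · exact hap s2.2.symm
      rw [Finset.card_erase_of_mem t1, sc_card] at h1
      have h2 : 1 ≤ sv X D v := by
        rw [← sc_card]
        exact Finset.card_pos.2 ⟨t0, t1⟩
      omega
    · intro hs hq
      unfold cn
      rw [Finset.card_eq_zero, Finset.filter_eq_empty_iff]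
      intro w _ hw
      obtain ⟨a1, a2, x, y, xy, rx, ry, g1, m1, g2, m2, sp⟩ := hQ.r v w hvZ hw
      have hwp : w ≠ p := fun e => a2 (e ▸ hpZ)
      have hxw : x ≠ w := by
        rcases g1 with h | h
        · exact (cx_ne cX h).2.1
        · exact (cx_ne cX h).2.1.symm
      have hwy : w ≠ y := by
        rcases g2 with h | h
        · exact (cx_ne cX h).2.1
        · exact (cx_ne cX h).2.1.symm
      obtain ⟨s1, u1, e1⟩ := face_SC g1 rx a1 (sosi_of_mid m1)
      obtain ⟨s2, u2, e2⟩ := face_SC g2 a1 ry (sosi_of_mid m2)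
      have s12 : s1 ≠ s2 := by
        rcases e1 with rfl | rfl <;> rcases e2 with rfl | rfl <;>
          simp only [ne_eq, Prod.mk.injEq, true_and, not_and]
        · exact fun e => absurd e hxw
        · exact fun e => absurd e xy
        · exact xy
        · exact fun e => absurd e hwy
      have hcard : (SC X D v).card ≤ 2 := by
        rw [sc_card]
        exact hs
      -- every corner is `s1` or `s2`
      have two : ∀ s ∈ SC X D v, s = s1 ∨ s = s2 := by
        intro s hs
        by_contra hcon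
        push Not at hcon
        have : 2 < (SC X D v).card :=
          Finset.two_lt_card.2 ⟨s, hs, s1, u1, s2, u2, hcon.1, hcon.2, s12⟩
        omega
      rcases two t0 t1 with e | e
      · -- the corner `{p, t} = {x, w}`
        have hx : x = p ∧ w = t := by
          rw [e] at t2
          rcases t2 with k | k <;> rcases e1 with e1 | e1 <;> rw [k] at e1 <;>
            simp only [Prod.mk.injEq, true_and] at e1
          · exact ⟨e1.1.symm, e1.2.symm⟩
          · exact absurd e1.1.symm hwp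
          · exact absurd e1.2.symm hwp
          · exact ⟨e1.2.symm, e1.1.symm⟩
        obtain ⟨rfl, rfl⟩ := hx
        rcases sp with k | ⟨z, z1, z2, z3⟩
        · -- `y` is the other boundary neighbour
          have yar : Ar D v y := by
            have up : Face T v w y := g2.imp (fun k => hR.reg.sub k) (fun k => hR.reg.sub k)
            exact ar_symm (Reg.face_re hT up (hR.reg.re v hvZ) a1 ry).2.2
          have hch := hR.chl.ch v y hvZ k yar
          have nd := hR.reg.bd.nodup
          have wx : Adj X w x := (face_adj cX g1).2.1.symm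
          have wy : Adj X w y := (face_adj cX g2).2.1
          have wX : w ∈ verts X := (adj_vert cX wx).1
          rcases hvp with h | h
          · rcases hch with h' | h'
            · exact xy (cyc_unique nd h h')
            · exact hR.no2 v x y h h' w wX a2 a1 wx wy
          · rcases hch with h' | h'
            · exact hR.no2 v y x h' h w wX a2 a1 wy wx
            · exact xy (cyc_unique' nd h h')
        · by_cases hz : Re D z
          · have hmz := z3.resolve_left (not_not.2 hz)
            obtain ⟨s3, u3, e3⟩ := face_SC (z2.symm : Face X v z y) hz ry (sosi_of_mid hmz)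
            rcases two s3 u3 with e' | e'
            · rw [e'] at e3
              rcases e3 with k' | k' <;> rcases e1 with e1 | e1 <;> rw [k'] at e1 <;>
                simp only [Prod.mk.injEq, true_and] at e1
              · exact hwy e1.2.symm
              · exact xy e1.2.symm
              · exact xy e1.1.symm
              · exact hwy e1.1.symm
            · rw [e'] at e3
              rcases e3 with k' | k' <;> rcases e2 with e2 | e2 <;> rw [k'] at e2 <;>
                simp only [Prod.mk.injEq, true_and] at e2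
              · exact z1 e2.1
              · exact hwy e2.2.symm
              · exact hwy e2.1.symm
              · exact z1 e2
          · have := qv_pos cX hz (face_adj cX z2).2.2
            omega
      · -- the corner `{p, t} = {w, y}`
        have hy : y = p ∧ w = t := by
          rw [e] at t2
          rcases t2 with k | k <;> rcases e2 with e2 | e2 <;> rw [k] at e2 <;>
            simp only [Prod.mk.injEq, true_and] at e2
          · exact absurd e2.1.symm hwp
          · exact ⟨e2.1.symm, e2.2.symm⟩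
          · exact ⟨e2.2.symm, e2.1.symm⟩
          · exact absurd e2.2.symm hwp
        obtain ⟨rfl, rfl⟩ := hy
        exact mid_ne asm m2 hm
  · left
    have h1 : t ∈ (verts X).filter (fun y => ¬ Re D y ∧ Adj X v y) := by
      have := (face_adj cX ft).2.2
      exact Finset.mem_filter.2 ⟨(adj_vert cX this).2.1, htr, this⟩
    have h2 : (verts X).filter (U2 v) ⊂ (verts X).filter (fun y => ¬ Re D y ∧ Adj X v y) := by
      refine Finset.ssubset_iff_subset_ne.2 ⟨?_, ?_⟩
      · intro d hd
        obtain ⟨k0, k1⟩ := Finset.mem_filter.1 hd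
        obtain ⟨k2, o, i, _, _, _, k3, _⟩ := hQ.u2 v d hvZ k1
        exact Finset.mem_filter.2 ⟨k0, k2, (face_adj cX k3).1⟩
      · intro e
        rw [← e] at h1
        obtain ⟨_, k1⟩ := Finset.mem_filter.1 h1
        obtain ⟨k2, o, i, k3, k4, k5, k6, k7, _⟩ := hQ.u2 v t hvZ k1
        have ft' : Face X v t p := ft.symm
        rcases two_faces cX k6 k7 ft' with e | e | e
        · exact k3 e
        · exact k5 (e ▸ hpZ)
        · exact k4 (e ▸ hpZ)
    have h3 := Finset.card_lt_card h2
    have e1 : qv X D v = ((verts X).filter (fun y => ¬ Re D y ∧ Adj X v y)).card := by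
      unfold qv
      congr
    rw [e1]
    unfold cn
    omega

end Pool.Agent.H13.G4
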