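import Pool.Agent.H13.G4.Bdf

/-!
# The total charge of the inner vertices exceeds the requests at the boundary

For a region `X` with boundary `Z` (the outer triangle, a chordless 4-cycle or 5-cycle)
`sum over Z of 2 |U1| + 2 |U2| + 3 |R| < 6 * sum over the inner vertices of (4 - s - q)`.

Every edge of the boundary pays `8` to its two ends (in units of `1/6`): the face at the edge is a
real triangle (`6` at an end which is not its mid vertex, `2` at its mid vertex) or a quadrangle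
(`4` at both ends), and every boundary vertex keeps at least what its two boundary edges ask.
-/

set_option autoImplicit false

namespace Pool.Agent.H13.G4

open Relation Pool.Agent.H13.DA Pool.Agent.H72.G4 Pool.Agent.H96.G4

variable {V : Type*} [DecidableEq V] {T : Finset (V × V × V)} {D : V → V → Prop} {a b c : V}
variable {X : Finset (V × V × V)} {Z : List V} {U1 U2 R : V → V → Prop}

/-- the facts about the requests at the boundary `Z` of the region `X` -/
structure Rqt (X : Finset (V × V × V)) (D : V → V → Prop) (Z : List V)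
    (U1 U2 R : V → V → Prop) : Prop where
  u1 : ∀ b a, b ∈ Z → U1 b a → Re D a ∧ a ∉ Z ∧ ∃ d x, ¬ Re D d ∧ Face X b a d ∧ Re D x ∧
    Face X b a x ∧ Mid D a b x
  u2 : ∀ b d, b ∈ Z → U2 b d → ¬ Re D d ∧ ∃ o i, o ≠ i ∧ o ∉ Z ∧ i ∉ Z ∧ Face X b d o ∧
    Face X b d i
  r : ∀ b v, b ∈ Z → R b v → Re D v ∧ v ∉ Z ∧ ∃ x y, x ≠ y ∧ Re D x ∧ Re D y ∧
    Face X b x v ∧ Mid D x b v ∧ Face X b v y ∧ Mid D v b y ∧
    (y ∈ Z ∨ Spc X D b v y)

omit [DecidableEq V] in
theorem Rqt.toRqs (h : Rqt X D Z U1 U2 R) : Rqs X D Z U1 (fun _ _ => False) R :=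
  ⟨h.u1, fun _ _ _ h => h.elim, h.r⟩

/-- six times the requests -/
noncomputable def rq (X : Finset (V × V × V)) (U1 U2 R : V → V → Prop) (b : V) : ℕ :=
  2 * cn X (U1 b) + 2 * cn X (U2 b) + 3 * cn X (R b)

open Classical in
/-- the share of the boundary edge `x y` at its end `x` -/
noncomputable def en (X : Finset (V × V × V)) (D : V → V → Prop) (x y : V) : ℕ :=
  if ∃ t, Face X x y t ∧ ¬ Re D t then 4
  else if ∃ t, Face X x y t ∧ Re D t ∧ SoSi D x y t then 6 else 2

omit [DecidableEq V] in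
theorem face_swap (hX : IsCx X) {x y z : V} (h : Face X x y z) : Face X y x z := by
  rcases h with h | h
  · exact Or.inr (hX.rot h)
  · exact Or.inl (rot3 hX h).2

/-- the unique face of the region at a boundary edge -/
theorem bd_face (hR : Reg T X D Z) {x y : V} (h : Cyc Z x y) :
    ∃ t, (x, y, t) ∈ X ∧ (∀ z, Face X x y z → z = t) ∧ (∀ z, Face X y x z → z = t) := by
  have cX := hR.disc.cx
  obtain ⟨⟨t, ht⟩, h2⟩ := bd_cyc hR.bd h
  have key : ∀ z, Face X x y z → z = t := by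
    rintro z (hz | hz)
    · exact cX.uniq hz ht
    · exact absurd ⟨z, (rot3 cX hz).2⟩ h2
  exact ⟨t, ht, key, fun z hz => key z (face_swap cX hz)⟩

omit [DecidableEq V] in
theorem en_dum {x y t : V} (h : Face X x y t) (hd : ¬ Re D t) : en X D x y = 4 := by
  classical
  unfold en
  rw [if_pos ⟨t, h, hd⟩]

omit [DecidableEq V] in
theorem en_real {x y t : V} (h : Face X x y t) (hr : Re D t)
    (hu : ∀ z, Face X x y z → z = t) :
    (SoSi D x y t → en X D x y = 6) ∧ (¬ SoSi D x y t → en X D x y = 2) := by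
  classical
  unfold en
  have n1 : ¬ ∃ t, Face X x y t ∧ ¬ Re D t := by
    rintro ⟨z, z1, z2⟩
    exact z2 (hu z z1 ▸ hr)
  rw [if_neg n1]
  constructor
  · intro hs
    rw [if_pos ⟨t, h, hr, hs⟩]
  · intro hs
    rw [if_neg]
    rintro ⟨z, z1, z2, z3⟩
    exact hs (hu z z1 ▸ z3)

/-- every boundary edge pays at least `8` -/
theorem en_edge (hT : Ts T D a b c) (hR : Reg T X D Z) {x y : V} (h : Cyc Z x y) :
    8 ≤ en X D x y + en X D y x := by
  have cX := hR.disc.cx
  obtain ⟨t, ht, k1, k2⟩ := bd_face hR h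
  have f1 : Face X x y t := Or.inl ht
  have f2 := face_swap cX f1
  by_cases hr : Re D t
  · obtain ⟨a1, a2⟩ := en_real f1 hr k1
    obtain ⟨b1, b2⟩ := en_real f2 hr k2
    have hf := Reg.face_re hT (Or.inl (hR.sub ht)) (hR.re x (cyc_mem h).1)
      (hR.re y (cyc_mem h).2) hr
    by_cases s1 : SoSi D x y t
    · have e1 := a1 s1
      by_cases s2 : SoSi D y x t
      · have := b1 s2
        omega
      · have := b2 s2
        omega
    · by_cases s2 : SoSi D y x t
      · have e1 := a2 s1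
        have := b1 s2
        omega
      · exact (mid_two hT.pl.tri hf.1 hf.2.1 hf.2.2 s1 s2).elim
  · have e1 := en_dum f1 hr
    have e2 := en_dum f2 hr
    omega

theorem u2_sub (hQ : Rqt X D Z U1 U2 R) {b : V} (hb : b ∈ Z) (hX : IsCx X) (E : Finset V)
    (hE : ∀ e ∈ E, ¬ Re D e ∧ ∃ p, p ∈ Z ∧ Face X b p e) :
    cn X (U2 b) + E.card ≤ qv X D b := by
  classical
  unfold cn qv
  rw [← Finset.card_union_of_disjoint]
  · apply Finset.card_le_card
    intro d hd
    rw [Finset.mem_union] at hd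
    rcases hd with hd | hd
    · obtain ⟨h0, h1⟩ := Finset.mem_filter.1 hd
      obtain ⟨h2, o, i, _, _, _, h3, _⟩ := hQ.u2 b d hb h1
      exact Finset.mem_filter.2 ⟨h0, h2, (face_adj hX h3).1⟩
    · obtain ⟨h1, p, h2, h3⟩ := hE d hd
      have h4 := (face_adj hX h3).2.2
      exact Finset.mem_filter.2 ⟨(adj_vert hX h4).2.1, h1, h4⟩
  · rw [Finset.disjoint_left]
    intro d hd hd'
    obtain ⟨_, h1⟩ := Finset.mem_filter.1 hd
    obtain ⟨h2, o, i, h3, h4, h5, h6, h7⟩ := hQ.u2 b d hb h1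
    obtain ⟨_, p, h8, h9⟩ := hE d hd'
    rcases two_faces hX (Or.symm h9 : Face X b d p) h6 h7 with e | e | e
    · exact h4 (e ▸ h8)
    · exact h3 e
    · exact h5 (e ▸ h8)

/-- the facts at a boundary corner -/
theorem corner_core (hR : Reg T X D Z)
    (hQ : Rqt X D Z U1 U2 R) {v p r t t' : V} (hp : Cyc Z v p) (hr : Cyc Z r v)
    (ht : (v, p, t) ∈ X) (ht' : (r, v, t') ∈ X) (hpr : p ≠ r) (tZ : t ∉ Z) (tZ' : t' ∉ Z) :
    (en X D v p = 2 ∨ (en X D v p = 4 ∧ ¬ Re D t) ∨ (en X D v p = 6 ∧ Re D t ∧ SoSi D v p t)) ∧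
    (en X D v r = 2 ∨ (en X D v r = 4 ∧ ¬ Re D t') ∨
      (en X D v r = 6 ∧ Re D t' ∧ SoSi D v r t')) ∧
    (en X D v p = 6 ∨ en X D v r = 6 → 1 ≤ sv X D v) ∧
    (en X D v p = 6 → en X D v r = 6 → 2 ≤ sv X D v ∧
      (sv X D v ≤ 2 → cn X (R v) = 0 ∨ t = t')) ∧
    (cn X (U2 v) ≤ qv X D v) ∧
    (en X D v p = 4 ∨ en X D v r = 4 → cn X (U2 v) + 1 ≤ qv X D v) ∧
    (en X D v p = 4 → en X D v r = 4 → cn X (U2 v) + 2 ≤ qv X D v ∨ t = t') := by
  classical
  have cX := hR.disc.cx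
  have vZ := (cyc_mem hp).1
  have pZ := (cyc_mem hp).2
  have rZ := (cyc_mem hr).1
  have pre := hR.re p pZ
  have rre := hR.re r rZ
  obtain ⟨t1, ht1, k1, _⟩ := bd_face hR hp
  have e1 : t = t1 := cX.uniq ht ht1
  subst e1
  obtain ⟨t2, ht2, _, k2⟩ := bd_face hR hr
  have e2 : t' = t2 := cX.uniq ht' ht2
  subst e2
  have f1 : Face X v p t := Or.inl ht
  have f2 : Face X v r t' := face_swap cX (Or.inl ht')
  have c1 : en X D v p = 2 ∨ (en X D v p = 4 ∧ ¬ Re D t) ∨
      (en X D v p = 6 ∧ Re D t ∧ SoSi D v p t) := by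
    by_cases h : Re D t
    · obtain ⟨g1, g2⟩ := en_real f1 h k1
      by_cases hs : SoSi D v p t
      · exact Or.inr (Or.inr ⟨g1 hs, h, hs⟩)
      · exact Or.inl (g2 hs)
    · exact Or.inr (Or.inl ⟨en_dum f1 h, h⟩)
  have c2 : en X D v r = 2 ∨ (en X D v r = 4 ∧ ¬ Re D t') ∨
      (en X D v r = 6 ∧ Re D t' ∧ SoSi D v r t') := by
    by_cases h : Re D t'
    · obtain ⟨g1, g2⟩ := en_real f2 h k2
      by_cases hs : SoSi D v r t'
      · exact Or.inr (Or.inr ⟨g1 hs, h, hs⟩)
      · exact Or.inl (g2 hs)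
    · exact Or.inr (Or.inl ⟨en_dum f2 h, h⟩)
  have s1 : en X D v p = 6 → Re D t ∧ SoSi D v p t := by
    intro h
    rcases c1 with h' | ⟨h', _⟩ | h'
    · omega
    · omega
    · exact h'.2
  have s2 : en X D v r = 6 → Re D t' ∧ SoSi D v r t' := by
    intro h
    rcases c2 with h' | ⟨h', _⟩ | h'
    · omega
    · omega
    · exact h'.2
  have d1 : en X D v p = 4 → ¬ Re D t := by
    intro h
    rcases c1 with h' | h' | ⟨h', _⟩
    · omega
    · exact h'.2
    · omega
  have d2 : en X D v r = 4 → ¬ Re D t' := by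
    intro h
    rcases c2 with h' | h' | ⟨h', _⟩
    · omega
    · exact h'.2
    · omega
  refine ⟨c1, c2, ?_, ?_, ?_, ?_, ?_⟩
  · rintro (h | h)
    · obtain ⟨g1, g2⟩ := s1 h
      exact sv_pos f1 pre g1 g2
    · obtain ⟨g1, g2⟩ := s2 h
      exact sv_pos f2 rre g1 g2
  · intro h h'
    obtain ⟨g1, g2⟩ := s1 h
    obtain ⟨g3, g4⟩ := s2 h'
    obtain ⟨w1, m1, q1⟩ := face_SC f1 pre g1 g2
    obtain ⟨w2, m2, q2⟩ := face_SC f2 rre g3 g4
    have w12 : w1 ≠ w2 := by
      have n1 : p ≠ t' := fun e => tZ' (e ▸ pZ)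
      have n2 : t ≠ r := fun e => tZ (e ▸ rZ)
      rcases q1 with rfl | rfl <;> rcases q2 with rfl | rfl <;>
        simp only [ne_eq, Prod.mk.injEq, true_and, not_and]
      · exact fun e => absurd e hpr
      · exact fun e => absurd e n1
      · exact fun e => absurd e n2
      · exact fun _ e => absurd e hpr
    have h2 : 2 ≤ sv X D v := by
      rw [← sc_card]
      exact Finset.one_lt_card.2 ⟨w1, m1, w2, m2, w12⟩
    refine ⟨h2, fun h3 => ?_⟩
    by_cases htt : t = t'
    · exact Or.inr htt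
    left
    unfold cn
    rw [Finset.card_eq_zero, Finset.filter_eq_empty_iff]
    intro w _ hw
    obtain ⟨a1, a2, x, y, xy, rx, ry, g1', m1', g2', m2', sp⟩ := hQ.r v w vZ hw
    obtain ⟨z1, u1, e1⟩ := face_SC g1' rx a1 (sosi_of_mid m1')
    obtain ⟨z2, u2, e2⟩ := face_SC g2' a1 ry (sosi_of_mid m2')
    have hxw : x ≠ w := by
      rcases g1' with h | h
      · exact (cx_ne cX h).2.1
      · exact (cx_ne cX h).2.1.symm
    have hwy : w ≠ y := by
      rcases g2' with h | h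
      · exact (cx_ne cX h).2.1
      · exact (cx_ne cX h).2.1.symm
    have z12 : z1 ≠ z2 := by
      rcases e1 with rfl | rfl <;> rcases e2 with rfl | rfl <;>
        simp only [ne_eq, Prod.mk.injEq, true_and, not_and]
      · exact fun e => absurd e hxw
      · exact fun e => absurd e xy
      · exact xy
      · exact fun e => absurd e hwy
    have hcard : (SC X D v).card ≤ 2 := by
      rw [sc_card]
      exact h3
    have two : ∀ s ∈ SC X D v, s = z1 ∨ s = z2 := by
      intro s hs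
      by_contra hcon
      push Not at hcon
      have : 2 < (SC X D v).card :=
        Finset.two_lt_card.2 ⟨s, hs, z1, u1, z2, u2, hcon.1, hcon.2, z12⟩
      omega
    -- `w` is in both corners
    have hw1 : ∀ s, (s = z1 ∨ s = z2) → s.2.1 = w ∨ s.2.2 = w := by
      rintro s (rfl | rfl)
      · rcases e1 with rfl | rfl
        · exact Or.inr rfl
        · exact Or.inl rfl
      · rcases e2 with rfl | rfl
        · exact Or.inl rfl
        · exact Or.inr rfl
    have hwp : w ≠ p := fun e => a2 (e ▸ pZ)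
    have hwr : w ≠ r := fun e => a2 (e ▸ rZ)
    have k3 : t = w := by
      have := hw1 w1 (two w1 m1)
      rcases q1 with rfl | rfl
      · rcases this with k | k
        · exact absurd k.symm hwp
        · exact k
      · rcases this with k | k
        · exact k
        · exact absurd k.symm hwp
    have k4 : t' = w := by
      have := hw1 w2 (two w2 m2)
      rcases q2 with rfl | rfl
      · rcases this with k | k
        · exact absurd k.symm hwr
        · exact k
      · rcases this with k | k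
        · exact k
        · exact absurd k.symm hwr
    exact htt (k3.trans k4.symm)
  · have := u2_sub hQ vZ cX ∅ (by simp)
    simpa using this
  · rintro (h | h)
    · have := u2_sub hQ vZ cX {t} (by
        intro e he
        rw [Finset.mem_singleton] at he
        subst he
        exact ⟨d1 h, p, pZ, f1⟩)
      simpa using this
    · have := u2_sub hQ vZ cX {t'} (by
        intro e he
        rw [Finset.mem_singleton] at he
        subst he
        exact ⟨d2 h, r, rZ, f2⟩)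
      simpa using this
  · intro h h'
    by_cases htt : t = t'
    · exact Or.inr htt
    left
    have := u2_sub hQ vZ cX {t, t'} (by
      intro e he
      rw [Finset.mem_insert, Finset.mem_singleton] at he
      rcases he with rfl | rfl
      · exact ⟨d1 h, p, pZ, f1⟩
      · exact ⟨d2 h', r, rZ, f2⟩)
    rwa [Finset.card_pair htt] at this

/-- the arithmetic of a boundary corner -/
theorem corner_ar {s q A B C x y : ℕ} (hA : A ≤ s) (hA0 : q = 0 → A = 0) (hB : B ≤ q)
    (hC : 2 * C ≤ s) (hp : 1 ≤ s + q) (hx : x = 2 ∨ x = 4 ∨ x = 6) (hy : y = 2 ∨ y = 4 ∨ y = 6)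
    (h6 : x = 6 ∨ y = 6 → 1 ≤ s) (h66 : x = 6 → y = 6 → 2 ≤ s)
    (h4 : x = 4 ∨ y = 4 → B + 1 ≤ q) :
    2 * A + 2 * B + 3 * C + x + y ≤ 6 * (s + q) + 3 := by
  by_cases hq : q = 0
  · have := hA0 hq
    rcases hx with rfl | rfl | rfl <;> rcases hy with rfl | rfl | rfl <;> simp at h6 h66 h4 <;>
      omega
  · rcases hx with rfl | rfl | rfl <;> rcases hy with rfl | rfl | rfl <;> simp at h6 h66 h4 <;>
      omega

theorem corner_ar0 {s q A B C x y : ℕ} (hA : A ≤ s) (hA0 : q = 0 → A = 0) (hB : B ≤ q)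
    (hC : 2 * C ≤ s) (hp : 1 ≤ s + q) (hx : x = 2 ∨ x = 4 ∨ x = 6) (hy : y = 2 ∨ y = 4 ∨ y = 6)
    (h6 : x = 6 ∨ y = 6 → 2 ≤ s + q ∧ 1 ≤ s) (h66 : x = 6 → y = 6 → 2 ≤ s ∧ (s ≤ 2 → C = 0))
    (h4 : x = 4 ∨ y = 4 → B + 1 ≤ q) (h44 : x = 4 → y = 4 → B + 2 ≤ q ∨ 2 ≤ s + q) :
    2 * A + 2 * B + 3 * C + x + y ≤ 6 * (s + q) := by
  by_cases hq : q = 0
  · have := hA0 hq
    rcases hx with rfl | rfl | rfl <;> rcases hy with rfl | rfl | rfl <;>
      simp at h6 h66 h4 h44 <;> omega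
  · rcases hx with rfl | rfl | rfl <;> rcases hy with rfl | rfl | rfl <;>
      simp at h6 h66 h4 h44 <;> omega

omit [DecidableEq V] in
/-- the first and the last inner vertex of a boundary corner -/
theorem ends_of (cX : IsCx X) {v p r : V} {m : List V} (hP : Path X D Z v p m r)
    (hiff : ∀ x y, (v, x, y) ∈ X ↔ Nx (p :: (m ++ [r])) x y) (hm : m ≠ []) :
    ∃ t t', (v, p, t) ∈ X ∧ (r, v, t') ∈ X ∧ t ∉ Z ∧ t' ∉ Z ∧ t ∈ verts X ∧
      (∃ m', m = t :: m') ∧ (∃ m2, m = m2 ++ [t']) := by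
  obtain ⟨t, m', h1⟩ : ∃ d md, m = d :: md := by
    cases m with
    | nil => exact absurd rfl hm
    | cons d md => exact ⟨d, md, rfl⟩
  obtain ⟨m2, t', h2⟩ : ∃ m' w, m = m' ++ [w] := by
    rcases List.eq_nil_or_concat m with k' | ⟨l', y', k'⟩
    · exact absurd k' hm
    · exact ⟨l', y', by simpa using k'⟩
  refine ⟨t, t', ?_, ?_, ?_, ?_, ?_, ⟨m', h1⟩, ⟨m2, h2⟩⟩
  · rw [hiff, h1]
    exact Or.inl ⟨rfl, rfl⟩
  · refine (rot3 cX ?_).2
    rw [hiff, h2, show p :: (m2 ++ [t'] ++ [r]) = (p :: m2) ++ [t', r] by simp, nx_snoc]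
    exact Or.inr ⟨rfl, rfl⟩
  · exact (hP.inn t (by rw [h1]; simp)).2
  · exact (hP.inn t' (by rw [h2]; simp)).2
  · exact (hP.inn t (by rw [h1]; simp)).1

/-- a corner of the outer triangle -/
theorem net_outer_corner [Infinite V] (hF : FanT V) (hM : MCw T D a b c) (hT : Ts T D a b c)
    (hg : ∀ u, u ∈ verts T → Re D u → u ∉ [a, b, c] → Good T D u)
    (hQ : Rqt T D [a, b, c] U1 U2 R) {v p r : V}
    (hp : Cyc [a, b, c] v p) (hr : Cyc [a, b, c] r v) (hpr : p ≠ r) (hf : (v, p, r) ∉ T)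
    (hch : ∀ u, u ∈ [a, b, c] → Ar D v u → u = p ∨ u = r) :
    rq T U1 U2 R v + en T D v p + en T D v r ≤ 6 * (sv T D v + qv T D v) + 3 := by
  have hR := reg_self hT
  have cT := hT.pl.disc.cx
  have asm := hT.pl.asymm
  have vZ := (cyc_mem hp).1
  obtain ⟨m, h1, h2, _⟩ := path_of hT hR hp hr hch
  have hm : m ≠ [] := by
    rintro rfl
    exact hf ((h2 p r).2 (Or.inl ⟨rfl, rfl⟩))
  obtain ⟨t, t', k1, k2, k3, k4, _, _, _⟩ := ends_of cT h1 h2 hm
  obtain ⟨f1, f2, f3, f4, f5, f6, f7⟩ := corner_core hR hQ hp hr k1 k2 hpr k3 k4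
  have hQ' := hQ.toRqs
  unfold rq
  refine corner_ar (u1_le asm hQ' vZ cT) (fun h => u1_zero hQ' vZ cT h) f5 (r_le asm hQ' vZ cT)
    (corner_pos hF hM hT hR hg h1 hm) ?_ ?_ f3 (fun h h' => (f4 h h').1) f6
  · rcases f1 with h | h | h
    · exact Or.inl h
    · exact Or.inr (Or.inl h.1)
    · exact Or.inr (Or.inr h.1)
  · rcases f2 with h | h | h
    · exact Or.inl h
    · exact Or.inr (Or.inl h.1)
    · exact Or.inr (Or.inr h.1)

/-- a corner of a chordless cycle of length at least four -/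
theorem Rg.corner [Infinite V] (hF : FanT V) (hM : MCw T D a b c) (hT : Ts T D a b c)
    (hR : Rg T X D Z) (hQ : Rqt X D Z U1 U2 R) {v p r : V}
    (hp : Cyc Z v p) (hr : Cyc Z r v) :
    rq X U1 U2 R v + en X D v p + en X D v r ≤ 6 * (sv X D v + qv X D v) := by
  have nd := hR.reg.bd.nodup
  have cX := hR.reg.disc.cx
  have asm := hT.pl.asymm
  have vZ := (cyc_mem hp).1
  obtain ⟨m, hm, h1, h2⟩ := hR.path hT hp hr
  have hopp := hR.chl.opp hT nd hR.len hp hr
  obtain ⟨t, t', k1, k2, k3, k4, k5, ⟨m', k6⟩, ⟨m2, k7⟩⟩ := ends_of cX h1 h2 hm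
  obtain ⟨f1, f2, f3, f4, f5, f6, f7⟩ := corner_core hR.reg hQ hp hr k1 k2 hopp.1 k3 k4
  have hQ' := hQ.toRqs
  have g1 : en X D v p = 6 → Re D t ∧ SoSi D v p t := by
    intro h
    rcases f1 with h' | ⟨h', _⟩ | h'
    · omega
    · omega
    · exact h'.2
  have g2 : en X D v r = 6 → Re D t' ∧ SoSi D v r t' := by
    intro h
    rcases f2 with h' | ⟨h', _⟩ | h'
    · omega
    · omega
    · exact h'.2
  have g3 : en X D v p = 4 → ¬ Re D t := by
    intro h
    rcases f1 with h' | h' | ⟨h', _⟩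
    · omega
    · exact h'.2
    · omega
  unfold rq
  refine corner_ar0 (u1_le asm hQ' vZ cX) (fun h => u1_zero hQ' vZ cX h) f5 (r_le asm hQ' vZ cX)
    (hR.pos hF hM hT vZ) ?_ ?_ ?_ ?_ f6 ?_
  · rcases f1 with h | h | h
    · exact Or.inl h
    · exact Or.inr (Or.inl h.1)
    · exact Or.inr (Or.inr h.1)
  · rcases f2 with h | h | h
    · exact Or.inl h
    · exact Or.inr (Or.inl h.1)
    · exact Or.inr (Or.inr h.1)
  · intro h
    refine ⟨?_, f3 h⟩
    by_contra hcon
    rcases h with h | h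
    · obtain ⟨e1, e2⟩ := g1 h
      exact (hR.midface hF hM hT hp k1 e1).1 (by omega) e2
    · obtain ⟨e1, e2⟩ := g2 h
      exact (hR.midface hF hM hT hr k2 e1).2 (by omega) e2
  · intro h h'
    obtain ⟨e1, e2⟩ := f4 h h'
    refine ⟨e1, fun e3 => ?_⟩
    rcases e2 e3 with e4 | e4
    · exact e4
    · obtain ⟨e5, e6⟩ := g1 h
      subst e4
      exact (hR.no2 v p r hp hr t k5 k3 e5
        (face_adj cX (Or.inl k1 : Face X v p t)).2.1.symm
        (face_adj cX (Or.inl k2 : Face X r v t)).2.2.symm).elim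
  · intro h h'
    rcases f7 h h' with e | e
    · exact Or.inl e
    · right
      by_contra hcon
      subst e
      have hd := g3 h
      obtain ⟨u, u1, u2, u3⟩ := hR.inn
      exact corner_dum hT hR.reg (cyc_mem hp).2 (cyc_mem hr).1 vZ h1 hopp.2
        (hR.no2 v p r hp hr)
        (fun d hd hdr => dummy_off hT hR.reg hR.chl u1 u2 u3 hd hdr) (by omega) k6 hd k7 hd

open Classical in
/-- **the outer triangle** -/
theorem net_outer [Infinite V] (hF : FanT V) (hM : MCw T D a b c) (hT : Ts T D a b c)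
    (hg : ∀ u, u ∈ verts T → Re D u → u ∉ [a, b, c] → Good T D u)
    (hQ : Rqt T D [a, b, c] U1 U2 R) :
    ((([a, b, c].map (rq T U1 U2 R)).sum : ℕ) : ℤ) <
      6 * ∑ v ∈ (verts T).filter (fun v => Re D v ∧ v ∉ [a, b, c]),
        ((4 : ℤ) - sv T D v - qv T D v) := by
  have hR := reg_self hT
  rw [inner_sum hR hT]
  have cT := hT.pl.disc.cx
  have no := outer_no hM
  have irr : ∀ x, ¬ Ar D x x := fun x h => (ar_ne cT hT.pl h) rfl
  have c1 : Cyc [a, b, c] a b := by rw [cyc3]; exact Or.inl ⟨rfl, rfl⟩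
  have c2 : Cyc [a, b, c] b c := by rw [cyc3]; exact Or.inr (Or.inl ⟨rfl, rfl⟩)
  have c3 : Cyc [a, b, c] c a := by rw [cyc3]; exact Or.inr (Or.inr (Or.inl ⟨rfl, rfl⟩))
  have nd := hR.bd.nodup
  simp only [List.nodup_cons, List.mem_cons, List.not_mem_nil, or_false, not_or] at nd
  obtain ⟨⟨nab, nac⟩, nbc, _⟩ := nd
  have x1 := net_outer_corner hF hM hT hg hQ c1 c3 nbc no (by
    intro u hu har
    simp only [List.mem_cons, List.not_mem_nil, or_false] at hu
    rcases hu with rfl | rfl | rfl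
    · exact absurd har (irr _)
    · exact Or.inl rfl
    · exact Or.inr rfl)
  have x2 := net_outer_corner hF hM hT hg hQ c2 c1 (Ne.symm nac) (fun h => no (rot3 cT h).2) (by
    intro u hu har
    simp only [List.mem_cons, List.not_mem_nil, or_false] at hu
    rcases hu with rfl | rfl | rfl
    · exact Or.inr rfl
    · exact absurd har (irr _)
    · exact Or.inl rfl)
  have x3 := net_outer_corner hF hM hT hg hQ c3 c2 nab (fun h => no (rot3 cT h).1) (by
    intro u hu har
    simp only [List.mem_cons, List.not_mem_nil, or_false] at hu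
    rcases hu with rfl | rfl | rfl
    · exact Or.inl rfl
    · exact Or.inr rfl
    · exact absurd har (irr _))
  have y1 := en_edge hT hR c1
  have y2 := en_edge hT hR c2
  have y3 := en_edge hT hR c3
  simp only [List.map_cons, List.map_nil, List.sum_cons, List.sum_nil, List.length_cons,
    List.length_nil]
  push_cast
  omega

open Classical in
/-- **chordless cycles of length four** -/
theorem net_four [Infinite V] (hF : FanT V) (hM : MCw T D a b c) (hT : Ts T D a b c)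
    {z1 z2 z3 z4 : V} (hR : Rg T X D [z1, z2, z3, z4])
    (hQ : Rqt X D [z1, z2, z3, z4] U1 U2 R) :
    ((([z1, z2, z3, z4].map (rq X U1 U2 R)).sum : ℕ) : ℤ) <
      6 * ∑ v ∈ (verts X).filter (fun v => Re D v ∧ v ∉ [z1, z2, z3, z4]),
        ((4 : ℤ) - sv T D v - qv T D v) := by
  rw [inner_sum hR.reg hT]
  have cc : ∀ x y, Cyc [z1, z2, z3, z4] x y ↔
      (x = z1 ∧ y = z2) ∨ (x = z2 ∧ y = z3) ∨ (x = z3 ∧ y = z4) ∨ (x = z4 ∧ y = z1) := by
    intro a b
    rw [cyc3]
    simp only [List.cons_append, List.nil_append, Nx, or_false]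
  have c12 := (cc z1 z2).2 (Or.inl ⟨rfl, rfl⟩)
  have c23 := (cc z2 z3).2 (Or.inr (Or.inl ⟨rfl, rfl⟩))
  have c34 := (cc z3 z4).2 (Or.inr (Or.inr (Or.inl ⟨rfl, rfl⟩)))
  have c41 := (cc z4 z1).2 (Or.inr (Or.inr (Or.inr ⟨rfl, rfl⟩)))
  have x1 := hR.corner hF hM hT hQ c12 c41
  have x2 := hR.corner hF hM hT hQ c23 c12
  have x3 := hR.corner hF hM hT hQ c34 c23
  have x4 := hR.corner hF hM hT hQ c41 c34
  have y1 := en_edge hT hR.reg c12
  have y2 := en_edge hT hR.reg c23
  have y3 := en_edge hT hR.reg c34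
  have y4 := en_edge hT hR.reg c41
  simp only [List.map_cons, List.map_nil, List.sum_cons, List.sum_nil, List.length_cons,
    List.length_nil]
  push_cast
  omega

open Classical in
/-- **chordless cycles of length five** -/
theorem net_five [Infinite V] (hF : FanT V) (hM : MCw T D a b c) (hT : Ts T D a b c)
    {z1 z2 z3 z4 z5 : V} (hR : Rg T X D [z1, z2, z3, z4, z5])
    (hQ : Rqt X D [z1, z2, z3, z4, z5] U1 U2 R) :
    ((([z1, z2, z3, z4, z5].map (rq X U1 U2 R)).sum : ℕ) : ℤ) <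
      6 * ∑ v ∈ (verts X).filter (fun v => Re D v ∧ v ∉ [z1, z2, z3, z4, z5]),
        ((4 : ℤ) - sv T D v - qv T D v) := by
  rw [inner_sum hR.reg hT]
  have cc : ∀ x y, Cyc [z1, z2, z3, z4, z5] x y ↔
      (x = z1 ∧ y = z2) ∨ (x = z2 ∧ y = z3) ∨ (x = z3 ∧ y = z4) ∨ (x = z4 ∧ y = z5) ∨
        (x = z5 ∧ y = z1) := by
    intro a b
    rw [cyc3]
    simp only [List.cons_append, List.nil_append, Nx, or_false]
  have c12 := (cc z1 z2).2 (Or.inl ⟨rfl, rfl⟩)
  have c23 := (cc z2 z3).2 (Or.inr (Or.inl ⟨rfl, rfl⟩))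
  have c34 := (cc z3 z4).2 (Or.inr (Or.inr (Or.inl ⟨rfl, rfl⟩)))
  have c45 := (cc z4 z5).2 (Or.inr (Or.inr (Or.inr (Or.inl ⟨rfl, rfl⟩))))
  have c51 := (cc z5 z1).2 (Or.inr (Or.inr (Or.inr (Or.inr ⟨rfl, rfl⟩))))
  have x1 := hR.corner hF hM hT hQ c12 c51
  have x2 := hR.corner hF hM hT hQ c23 c12
  have x3 := hR.corner hF hM hT hQ c34 c23
  have x4 := hR.corner hF hM hT hQ c45 c34
  have x5 := hR.corner hF hM hT hQ c51 c45
  have y1 := en_edge hT hR.reg c12
  have y2 := en_edge hT hR.reg c23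
  have y3 := en_edge hT hR.reg c34
  have y4 := en_edge hT hR.reg c45
  have y5 := en_edge hT hR.reg c51
  simp only [List.map_cons, List.map_nil, List.sum_cons, List.sum_nil, List.length_cons,
    List.length_nil]
  push_cast
  omega

end Pool.Agent.H13.G4
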