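import Pool.Agent.H13.G4.Bdg
import Pool.Agent.H72.G4.Row

/-!
# The boundary of the context: requests in terms of the disc
-/

set_option autoImplicit false

namespace Pool.Agent.H13.G4

open Relation Pool.Agent.H13.DA Pool.Agent.H72.G4 Pool.Agent.H96.G4 Pool.Agent.H32.G4

variable {V : Type*} [DecidableEq V] {T : Finset (V × V × V)} {D : V → V → Prop} {a b c : V}
variable {X : Finset (V × V × V)} {Z : List V} {U1 U2 R : V → V → Prop}

/-- the inner vertex `a` may ask the boundary vertex `b`, its neighbour in a quad -/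
def A1 (T X : Finset (V × V × V)) (D : V → V → Prop) (Z : List V) (b a : V) : Prop :=
  In X D Z a ∧ ∃ d x, ¬ Re D d ∧ Face T b a d ∧ Re D x ∧ Face T b a x ∧ ¬ SoSi D a b x

/-- the quad `d` may ask the boundary vertex `b` from the opposite corner -/
def A2 (T X : Finset (V × V × V)) (D : V → V → Prop) (Z : List V) (b d : V) : Prop :=
  ¬ Re D d ∧ ∃ o i, o ≠ i ∧ In X D Z o ∧ In X D Z i ∧ Face T b d o ∧ Face T b d i

/-- the inner vertex `v` may request from the boundary vertex `b` -/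
def A3 (T X : Finset (V × V × V)) (D : V → V → Prop) (Z : List V) (b v : V) : Prop :=
  In X D Z v ∧ ∃ x y, x ≠ y ∧ Re D x ∧ Re D y ∧ Face T b x v ∧ ¬ SoSi D x b v ∧
    Face T b v y ∧ ¬ SoSi D v b y ∧ (y ∈ Z ∨ ¬ Sh T D b y)

theorem in_face (hR : Reg T X D Z) {v x y : V} (hv : In X D Z v) (h : Face T v x y) :
    Face X v x y :=
  h.imp (fun h => hR.tri_in hv.1 hv.2.2 h) (fun h => hR.tri_in hv.1 hv.2.2 h)

/-- in a region, an edge with an inner end has two faces -/
theorem in_other (hR : Reg T X D Z) {b v y : V} (hy : In X D Z y) (h : Face X b y v) :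
    ∃ z, z ≠ v ∧ Face X b y z := by
  have cX := hR.disc.cx
  rcases h with h | h
  · -- `(b, y, v)`
    have h2 : Dir X y b := by
      by_contra hc
      have : Bd X b y := bd_dir.2 ⟨⟨v, h⟩, hc⟩
      exact hy.2.2 (cyc_mem ((hR.bd.iff b y).1 this)).2
    obtain ⟨z, hz⟩ := h2
    exact ⟨z, apex_ne hR.disc hz h, Or.inr (rot3 cX hz).1⟩
  · have h1 : (y, b, v) ∈ X := (rot3 cX h).2
    have h2 : Dir X b y := by
      by_contra hc
      have : Bd X y b := bd_dir.2 ⟨⟨v, h1⟩, hc⟩
      exact hy.2.2 (cyc_mem ((hR.bd.iff y b).1 this)).1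
    obtain ⟨z, hz⟩ := h2
    exact ⟨z, apex_ne hR.disc hz h1, Or.inl hz⟩

theorem rqt_all (hT : Ts T D a b c) (hR : Reg T X D Z) :
    Rqt X D Z (A1 T X D Z) (A2 T X D Z) (A3 T X D Z) := by
  have cT := hT.pl.disc.cx
  have cX := hR.disc.cx
  have htr := hT.pl.tri
  refine ⟨?_, ?_, ?_⟩
  · rintro b a hb ⟨hI, d, x, h1, h2, h3, h4, h5⟩
    obtain ⟨g1, g2, g3⟩ := Reg.face_re hT h4 (hR.re b hb) hI.2.1 h3
    exact ⟨hI.2.1, hI.2.2, d, x, h1, face_swap cX (in_face hR hI (face_swap cT h2)), h3,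
      face_swap cX (in_face hR hI (face_swap cT h4)), mid_of htr (ar_symm g1) (ar_symm g3)
        (ar_symm g2) h5⟩
  · rintro b d hb ⟨h1, o, i, h2, h3, h4, h5, h6⟩
    have key : ∀ {o : V}, In X D Z o → Face T b d o → Face X b d o := by
      intro o ho hf
      have f1 : Face T o b d := by
        rcases hf with h | h
        · exact Or.inl (rot3 cT h).2
        · exact Or.inr (rot3 cT h).1
      have f2 := in_face hR ho f1
      rcases f2 with h | h
      · exact Or.inl (rot3 cX h).1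
      · exact Or.inr (rot3 cX h).2
    exact ⟨h1, o, i, h2, h3.2.2, h4.2.2, key h3 h5, key h4 h6⟩
  · rintro b v hb ⟨hI, x, y, h1, h2, h3, h4, h5, h6, h7, h8⟩
    obtain ⟨g1, g2, g3⟩ := Reg.face_re hT h4 (hR.re b hb) h2 hI.2.1
    obtain ⟨k1, k2, k3⟩ := Reg.face_re hT h6 (hR.re b hb) hI.2.1 h3
    have f1 : Face X b x v := by
      have e : Face T v b x := by
        rcases h4 with h | h
        · exact Or.inl (rot3 cT h).2
        · exact Or.inr (rot3 cT h).1
      rcases in_face hR hI e with h | h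
      · exact Or.inl (rot3 cX h).1
      · exact Or.inr (rot3 cX h).2
    have f2 : Face X b v y := face_swap cX (in_face hR hI (face_swap cT h6))
    have m2 : Mid D v b y := mid_of htr (ar_symm k1) (ar_symm k3) (ar_symm k2) h7
    refine ⟨hI.2.1, hI.2.2, x, y, h1, h2, h3, f1,
      mid_of htr (ar_symm g1) (ar_symm g3) (ar_symm g2) h5, f2, m2, ?_⟩
    by_cases hyZ : y ∈ Z
    · exact Or.inl hyZ
    right
    have hns := h8.resolve_left hyZ
    have hyI : In X D Z y := ⟨(adj_vert cX (face_adj cX f2).2.2).2.1, h3, hyZ⟩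
    obtain ⟨z, z1, z2⟩ := in_other hR hyI (Or.symm f2 : Face X b y v)
    refine ⟨z, z1, z2, ?_⟩
    by_cases hz : Re D z
    · right
      have up : Face T b y z := z2.imp (fun k => hR.sub k) (fun k => hR.sub k)
      obtain ⟨l1, l2, l3⟩ := Reg.face_re hT up (hR.re b hb) h3 hz
      refine mid_of htr l3 l1 l2 ?_
      intro hs
      refine hns ⟨z, hz, up, ?_⟩
      rcases hs with ⟨s1, s2⟩ | ⟨s1, s2⟩
      · exact ⟨fun _ => s2, fun _ => s1⟩
      · exact ⟨fun h => absurd h (hT.pl.asymm _ _ s1), fun h => absurd h (hT.pl.asymm _ _ s2)⟩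
    · exact Or.inl hz

open Classical in
/-- **the boundary of the context** -/
theorem ctx_net [Infinite V] (hF : FanT V) (hM : MCw T D a b c) (hT : Ts T D a b c)
    (hC : Ctx T X D a b c Z) (hQ : Rqt X D Z U1 U2 R) :
    (((Z.map (rq X U1 U2 R)).sum : ℕ) : ℤ) <
      6 * ∑ v ∈ (verts X).filter (fun v => Re D v ∧ v ∉ Z), ((4 : ℤ) - sv T D v - qv T D v) := by
  rcases hC.bnd with ⟨rfl, rfl⟩ | ⟨h1, h2 | h2⟩
  · exact net_outer hF hM hT hC.good hQ
  · match Z, h1, hQ, h2 with
    | [z1, z2, z3, z4], h1, hQ, _ => exact net_four hF hM hT h1 hQ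
  · match Z, h1, hQ, h2 with
    | [z1, z2, z3, z4, z5], h1, hQ, _ => exact net_five hF hM hT h1 hQ

open Classical in
theorem ctx_net' [Infinite V] (hF : FanT V) (hM : MCw T D a b c) (hT : Ts T D a b c)
    (hC : Ctx T X D a b c Z) :
    (((Z.map (rq X (A1 T X D Z) (A2 T X D Z) (A3 T X D Z))).sum : ℕ) : ℤ) <
      6 * ∑ v ∈ (verts X).filter (fun v => Re D v ∧ v ∉ Z), ((4 : ℤ) - sv T D v - qv T D v) :=
  ctx_net hF hM hT hC (rqt_all hT hC.reg)

omit [DecidableEq V] in
/-- the dummy of an ask to a neighbour is determined by the asker -/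
theorem a1_dummy (hT : Ts T D a b c) {w v x d d' : V} (h1 : ¬ Re D d) (h2 : Face T w v d)
    (h3 : ¬ Re D d') (h4 : Face T w v d') (h5 : Re D x) (h6 : Face T w v x) : d = d' := by
  rcases two_faces hT.pl.disc.cx h2 h4 h6 with e | e | e
  · exact e
  · exact absurd (e ▸ h5) h3
  · exact absurd (e ▸ h5) h1

end Pool.Agent.H13.G4
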