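import Pool.Agent.H35.G4.DisE
import Pool.Agent.H13.G4.Bdh
import Pool.Agent.H65.G4.X1

/-!
# The boundary half of the double count
-/

set_option autoImplicit false

namespace Pool.Agent.H13.G4

open Relation Pool.Agent.H13.DA Pool.Agent.H72.G4 Pool.Agent.H96.G4 Pool.Agent.H32.G4
open Pool.Agent.H35.G4 (Qd Nsp X1v Akr Ask Req IsW inn akp kb tb mem_inn)

variable {V : Type*} [DecidableEq V] {T : Finset (V × V × V)} {D : V → V → Prop} {a b c : V}
variable {X : Finset (V × V × V)} {Z : List V}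

omit [DecidableEq V] in
theorem qd_ar {u o f i d : V} (h : Qd T D d u o f i) : Ar D u o ∧ Ar D o f ∧ Ar D f i ∧
    Ar D i u :=
  ⟨Or.inl h.ao, Or.inl h.of, Or.inl h.fi, Or.inl h.ia⟩

omit [DecidableEq V] in
/-- opposite corners of a quad are not adjacent -/
theorem qd_opp (hT : Ts T D a b c) {u o f i d : V} (h : Qd T D d u o f i) : ¬ Ar D u f := by
  have tri := hT.pl.tri
  rintro (k | k)
  · exact tri _ _ _ k h.fi h.ia
  · exact tri _ _ _ k h.ao h.of

theorem dm_face (hT : Ts T D a b c) {x y d : V} (hd : ¬ Re D d) (h1 : Ar D x y)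
    (h2 : Adj T d x) (h3 : Adj T d y) : Face T x y d := by
  rcases hT.fc x y d (hT.pl.ar_adj h1) h3.symm h2 with h | ⟨_, _, h⟩
  · exact h
  · exfalso
    apply hd
    obtain ⟨h1, h2, h3⟩ := hT.out
    rcases h with rfl | rfl | rfl
    · exact (ar_re h1).1
    · exact (ar_re h2).1
    · exact (ar_re h3).1

/-- the four faces of a quad -/
theorem qd_face (hT : Ts T D a b c) {u o f i d : V} (h : Qd T D d u o f i) :
    Face T u o d ∧ Face T o f d ∧ Face T f i d ∧ Face T i u d := by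
  obtain ⟨a1, a2, a3, a4⟩ := qd_ar h
  have n1 := (h.nb u).2 (Or.inl rfl)
  have n2 := (h.nb o).2 (Or.inr (Or.inl rfl))
  have n3 := (h.nb f).2 (Or.inr (Or.inr (Or.inl rfl)))
  have n4 := (h.nb i).2 (Or.inr (Or.inr (Or.inr rfl)))
  exact ⟨dm_face hT h.nr a1 n1 n2, dm_face hT h.nr a2 n2 n3, dm_face hT h.nr a3 n3 n4,
    dm_face hT h.nr a4 n4 n1⟩

/-- neighbours of inner vertices are in the region -/
theorem in_nb (hT : Ts T D a b c) (hR : Reg T X D Z) {v y : V} (hv : In X D Z v)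
    (h : Adj T v y) : y ∈ verts X :=
  (adj_vert hR.disc.cx ((hR.adj_iff hT hv.1 hv.2.2).2 h)).2.1

omit [DecidableEq V] in
theorem mids_not {as : ∀ x y, D x y → ¬ D y x} {v x z : V} (h : Mid D v x z) :
    ¬ SoSi D v x z := by
  rcases h with ⟨h1, h2, h3⟩ | ⟨h1, h2, h3⟩ <;> rintro (⟨k1, k2⟩ | ⟨k1, k2⟩)
  · exact as _ _ h1 k1
  · exact as _ _ h2 k2
  · exact as _ _ h1 k2
  · exact as _ _ h2 k1

/-- an asker has a mid corner on the other side of the edges of the quad -/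
theorem akr_mid (hT : Ts T D a b c) {u o f i d w : V} (h : Akr T D u d)
    (hq : Qd T D d u o f i) (hw : w = o ∨ w = i) :
    ∃ z, Re D z ∧ Face T u w z ∧ ¬ SoSi D u w z := by
  have cT := hT.pl.disc.cx
  have asm := hT.pl.asymm
  have irr : ∀ x, ¬ Ar D x x := fun x h => (ar_ne cT hT.pl h) rfl
  obtain ⟨hd, x, ww, hR, hl, t1, t2⟩ := h
  have hw012 : ww 0 = CT.m ∧ ww 2 = CT.m := by
    rcases hl with hl | hl
    · simp only [List.ofFn_succ, List.ofFn_zero, List.cons.injEq] at hl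
      exact ⟨hl.1, hl.2.2.1⟩
    · simp only [List.ofFn_succ, List.ofFn_zero, List.cons.injEq] at hl
      exact ⟨hl.1, hl.2.2.1⟩
  have c0 := hR.cor 0
  have c2 := hR.cor 2
  rw [hw012.1] at c0
  rw [hw012.2] at c2
  have e1 : (0 : Fin 6) + 1 = 1 := rfl
  have e2 : (2 : Fin 6) + 1 = 3 := rfl
  rw [e1] at c0
  rw [e2] at c2
  have nb : ∀ j, Ar D u (x j) := fun j => (hR.nb _).2 ⟨j, rfl⟩
  have opp := qd_opp hT hq
  have h1 : x 1 = o ∨ x 1 = i := by
    rcases (hq.nb (x 1)).1 (Or.inr ⟨u, cT.rot t1⟩) with e | e | e | e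
    · exact absurd (e ▸ nb 1) (irr _)
    · exact Or.inl e
    · exact absurd (e ▸ nb 1) opp
    · exact Or.inr e
  have h2 : x 2 = o ∨ x 2 = i := by
    rcases (hq.nb (x 2)).1 (Or.inl ⟨u, cT.rot t2⟩) with e | e | e | e
    · exact absurd (e ▸ nb 2) (irr _)
    · exact Or.inl e
    · exact absurd (e ▸ nb 2) opp
    · exact Or.inr e
  have h12 : x 1 ≠ x 2 := fun e => absurd (hR.inj e) (by decide)
  have hw' : w = x 1 ∨ w = x 2 := by
    rcases hw with rfl | rfl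
    · rcases h1 with e | e
      · exact Or.inl e.symm
      · rcases h2 with e' | e'
        · exact Or.inr e'.symm
        · exact absurd (e.trans e'.symm) h12
    · rcases h1 with e | e
      · rcases h2 with e' | e'
        · exact absurd (e.trans e'.symm) h12
        · exact Or.inr e'.symm
      · exact Or.inl e.symm
  rcases hw' with rfl | rfl
  · refine ⟨x 0, (ar_re (nb 0)).2, Or.inr c0.1, ?_⟩
    rcases c0.2 with ⟨k1, k2, _⟩ | ⟨k1, k2, _⟩ <;> rintro (⟨l1, l2⟩ | ⟨l1, l2⟩)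
    · exact asm _ _ k1 l2
    · exact asm _ _ k2 l1
    · exact asm _ _ k2 l1
    · exact asm _ _ k1 l2
  · refine ⟨x 3, (ar_re (nb 3)).2, Or.inl c2.1, ?_⟩
    rcases c2.2 with ⟨k1, k2, _⟩ | ⟨k1, k2, _⟩ <;> rintro (⟨l1, l2⟩ | ⟨l1, l2⟩)
    · exact asm _ _ k1 l1
    · exact asm _ _ k2 l2
    · exact asm _ _ k2 l2
    · exact asm _ _ k1 l1

omit [DecidableEq V] in
/-- the two kinds of donors -/
theorem ask_cases (hT : Ts T D a b c) {v d w : V} (h : Ask T D Z v d w) :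
    (Ar D v w ∧ ∃ o f i, Qd T D d v o f i ∧ (w = o ∨ w = i)) ∨
      (¬ Ar D v w ∧ ∃ o i, Qd T D d v o w i ∧ o ∉ Z ∧ i ∉ Z) := by
  obtain ⟨o, f, i, h1, h2⟩ := h
  obtain ⟨a1, a2, a3, a4⟩ := qd_ar h1
  have opp := qd_opp hT h1
  rcases h2 with ⟨_, rfl⟩ | ⟨_, _, rfl⟩ | ⟨k1, k2, _, rfl⟩ |
    ⟨k1, k2, _, ⟨_, _, rfl⟩ | ⟨_, _, rfl⟩ | ⟨_, _, rfl⟩⟩
  · exact Or.inl ⟨a1, w, f, i, h1, Or.inl rfl⟩
  · exact Or.inl ⟨ar_symm a4, o, f, w, h1, Or.inr rfl⟩
  · exact Or.inr ⟨opp, o, i, h1, k1, k2⟩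
  · exact Or.inr ⟨opp, o, i, h1, k1, k2⟩
  · exact Or.inl ⟨a1, w, f, i, h1, Or.inl rfl⟩
  · exact Or.inl ⟨ar_symm a4, o, f, w, h1, Or.inr rfl⟩

/-- an ask to a neighbour -/
theorem don_u1 (hT : Ts T D a b c) {v d w : V} (hv : In X D Z v) (hk : Akr T D v d)
    (h : Ask T D Z v d w) (har : Ar D v w) : A1 T X D Z w v ∧ ¬ Re D d ∧ Face T w v d ∧
      ∃ z, Re D z ∧ Face T w v z := by
  have cT := hT.pl.disc.cx
  rcases ask_cases hT h with ⟨_, o, f, i, h1, hw⟩ | ⟨h0, _⟩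
  · obtain ⟨z, z1, z2, z3⟩ := akr_mid hT hk h1 hw
    obtain ⟨f1, _, _, f4⟩ := qd_face hT h1
    have hf : Face T w v d := by
      rcases hw with rfl | rfl
      · exact face_swap cT f1
      · exact f4
    exact ⟨⟨hv, d, z, h1.nr, hf, z1, face_swap cT z2, z3⟩, h1.nr, hf, z, z1, face_swap cT z2⟩
  · exact absurd har h0

/-- an ask to the opposite vertex -/
theorem don_u2 (hT : Ts T D a b c) (hR : Reg T X D Z) {v d w : V} (hv : In X D Z v)
    (h : Ask T D Z v d w) (har : ¬ Ar D v w) : A2 T X D Z w d := by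
  have cT := hT.pl.disc.cx
  rcases ask_cases hT h with ⟨h0, _⟩ | ⟨_, o, i, h1, h3, h4⟩
  · exact absurd h0 har
  obtain ⟨a1, a2, a3, a4⟩ := qd_ar h1
  have oX : o ∈ verts X := in_nb hT hR hv (hT.pl.ar_adj a1)
  have iX : i ∈ verts X := in_nb hT hR hv (hT.pl.ar_adj a4).symm
  obtain ⟨_, f2, f3, _⟩ := qd_face hT h1
  refine ⟨h1.nr, o, i, ?_, ⟨oX, (ar_re a1).2, h3⟩, ⟨iX, (ar_re a4).1, h4⟩,
    Or.symm (face_swap cT f2), Or.symm f3⟩
  rintro rfl
  exact hT.pl.asymm _ _ h1.ao h1.ia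

/-- asks to a neighbour: the asker and the donor determine the dummy -/
theorem don_d (hT : Ts T D a b c) {v d d' w : V} (hv : In X D Z v) (hk : Akr T D v d)
    (hk' : Akr T D v d') (h : Ask T D Z v d w) (h' : Ask T D Z v d' w) (har : Ar D v w) :
    d = d' := by
  obtain ⟨_, n1, f1, z, z1, z2⟩ := don_u1 hT hv hk h har
  obtain ⟨_, n2, f2, _⟩ := don_u1 hT hv hk' h' har
  exact a1_dummy hT n1 f1 n2 f2 z1 z2

/-- asks to the opposite vertex: the dummy and the donor determine the asker -/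
theorem don_a (hT : Ts T D a b c) {v v' d w : V} (h : Ask T D Z v d w)
    (h' : Ask T D Z v' d w) (har : ¬ Ar D v w) (har' : ¬ Ar D v' w) : v = v' := by
  rcases ask_cases hT h with ⟨h0, _⟩ | ⟨_, o, i, k, _⟩
  · exact absurd h0 har
  rcases ask_cases hT h' with ⟨h0, _⟩ | ⟨_, o', i', k', _⟩
  · exact absurd h0 har'
  have hv' := (k.nb v').1 ((k'.nb v').2 (Or.inl rfl))
  obtain ⟨_, a2, a3, _⟩ := qd_ar k
  rcases hv' with e | e | e | e
  · exact e.symm
  · exact absurd (e ▸ a2) har'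
  · subst e
    exact absurd k'.of (hT.pl.asymm _ _ k'.ao)
  · exact absurd (e ▸ ar_symm a3) har'

/-- **the number of asks at a vertex** -/
theorem kb_le (hT : Ts T D a b c) (hR : Reg T X D Z) {w : V} :
    kb T X D Z w ≤ cn X (A1 T X D Z w) + cn X (A2 T X D Z w) := by
  classical
  unfold kb cn
  set S := (akp T X D Z).filter (fun p => Ask T D Z p.1 p.2 w) with hS
  have mem : ∀ p ∈ S, In X D Z p.1 ∧ Akr T D p.1 p.2 ∧ Ask T D Z p.1 p.2 w := by
    intro p hp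
    obtain ⟨h1, h2⟩ := Finset.mem_filter.1 hp
    unfold akp at h1
    obtain ⟨h3, h4⟩ := Finset.mem_filter.1 h1
    exact ⟨mem_inn.1 (Finset.mem_product.1 h3).1, h4, h2⟩
  rw [← Finset.card_filter_add_card_filter_not (s := S) (fun p => Ar D p.1 w)]
  apply Nat.add_le_add
  · apply Finset.card_le_card_of_injOn (fun p => p.1)
    · intro p hp
      obtain ⟨h1, h2⟩ := Finset.mem_filter.1 (Finset.mem_coe.1 hp)
      obtain ⟨h3, h4, h5⟩ := mem p h1
      exact Finset.mem_coe.2 (Finset.mem_filter.2 ⟨h3.1, (don_u1 hT h3 h4 h5 h2).1⟩)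
    · rintro ⟨v, d⟩ hp ⟨v', d'⟩ hp' he
      obtain ⟨h1, h2⟩ := Finset.mem_filter.1 (Finset.mem_coe.1 hp)
      obtain ⟨h1', h2'⟩ := Finset.mem_filter.1 (Finset.mem_coe.1 hp')
      obtain ⟨h3, h4, h5⟩ := mem _ h1
      obtain ⟨h3', h4', h5'⟩ := mem _ h1'
      simp only at he h2 h3 h4 h5 h4' h5'
      subst he
      have := don_d hT h3 h4 h4' h5 h5' h2
      rw [this]
  · apply Finset.card_le_card_of_injOn (fun p => p.2)
    · intro p hp
      obtain ⟨h1, h2⟩ := Finset.mem_filter.1 (Finset.mem_coe.1 hp)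
      obtain ⟨h3, h4, h5⟩ := mem p h1
      have hd : p.2 ∈ verts X := by
        obtain ⟨o, f, i, hq, _⟩ := h5
        exact in_nb hT hR h3 ((hq.nb _).2 (Or.inl rfl)).symm
      exact Finset.mem_coe.2 (Finset.mem_filter.2 ⟨hd, don_u2 hT hR h3 h5 h2⟩)
    · rintro ⟨v, d⟩ hp ⟨v', d'⟩ hp' he
      obtain ⟨h1, h2⟩ := Finset.mem_filter.1 (Finset.mem_coe.1 hp)
      obtain ⟨h1', h2'⟩ := Finset.mem_filter.1 (Finset.mem_coe.1 hp')
      obtain ⟨h3, h4, h5⟩ := mem _ h1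
      obtain ⟨h3', h4', h5'⟩ := mem _ h1'
      simp only at he h2 h2' h5 h5'
      subst he
      have := don_a hT h5 h5' h2 h2'
      rw [this]

/-- the special arc of an `X1` vertex is special unless both ends are on the boundary -/
theorem x1v_special [Infinite V] (hM : MCw T D a b c) (hT : Ts T D a b c)
    (hC : Ctx T X D a b c Z) {v x1 x2 x3 x4 : V} (hv : In X D Z v)
    (h : X1v T D v x1 x2 x3 x4) (hrs : x2 ∉ Z ∨ x3 ∉ Z) : ¬ Nsp T D x2 x3 := by
  have cT := hT.pl.disc.cx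
  have asm := hT.pl.asymm
  rintro ⟨z, z1, z2, z3⟩
  have vT := hC.reg.inner hT hv.1 hv.2.2
  -- the vertex `z` on the other side
  have hzv : z ≠ v := by
    rintro rfl
    exact asm _ _ h.h2 (z3.2 h.h3)
  have g1 : Face T x2 x3 v := by
    rcases h.f23 with k | k
    · exact Or.inl (cT.rot k)
    · exact Or.inr (rot3 cT k).2
  have main : ∀ {x y : V}, (y = x2 ∧ x = x3) ∨ (y = x3 ∧ x = x2) → y ∉ Z → Face T x y v →
      Face T x y z → (D z x ↔ D z y) → False := by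
    intro x y hxy hy k1 k2 k3
    have har : Ar D v y := by
      rcases hxy with ⟨rfl, _⟩ | ⟨rfl, _⟩
      · exact Or.inr h.h2
      · exact Or.inl h.h3
    have yI : In X D Z y := ⟨in_nb hT hC.reg hv (hT.pl.ar_adj har), (ar_re har).2, hy⟩
    refine Pool.Agent.H65.G4.red_X1 (x := x) (y := y) (r := z) hM hT vT
      (hC.good v hv.1 hv.2.1 hv.2.2) h.nb h.h1 h.h2 h.h3 h.h4 h.h21 h.h23 h.h43
      h.n13 h.n24 h.n14 hxy
      (hC.reg.inner hT yI.1 yI.2.2) (hC.good y yI.1 yI.2.1 yI.2.2) ?_ z1 k3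
    rcases k1 with k1 | k1 <;> rcases k2 with k2 | k2
    · exact absurd (cT.uniq k2 k1) hzv
    · exact Or.inl ⟨k1, (rot3 cT k2).2⟩
    · exact Or.inr ⟨k2, (rot3 cT k1).2⟩
    · exact absurd (cT.uniq (rot3 cT k2).2 (rot3 cT k1).2) hzv
  rcases hrs with hr | hs
  · exact main (Or.inl ⟨rfl, rfl⟩) hr (face_swap cT g1) (face_swap cT z2) ⟨z3.2, z3.1⟩
  · exact main (Or.inr ⟨rfl, rfl⟩) hs g1 z2 z3

/-- a request at the boundary -/
theorem req_a3 [Infinite V] (hM : MCw T D a b c) (hT : Ts T D a b c)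
    (hC : Ctx T X D a b c Z) {v w e : V} (hv : In X D Z v) (h : Req T D v w e) :
    A3 T X D Z w v := by
  have cT := hT.pl.disc.cx
  have asm := hT.pl.asymm
  obtain ⟨x1, x2, x3, x4, hX, hw⟩ := h
  have sp := x1v_special hM hT hC hv hX
  obtain ⟨hN, h1, h2, h3, h4, h5, h6, h7, f1, f2, f3, n13, n24, n14⟩ := hX
  have rr : Re D x2 := ⟨_, Or.inl h5⟩
  have sr : Re D x3 := ⟨_, Or.inr h6⟩
  have tr : Re D x4 := ⟨_, Or.inl h7⟩
  have pr : Re D x1 := ⟨_, Or.inr h5⟩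
  refine ⟨hv, ?_⟩
  rcases hw with ⟨rfl, rfl⟩ | ⟨rfl, rfl⟩
  · refine ⟨x1, e, ?_, pr, sr, ?_, ?_, face_swap cT f2, ?_, ?_⟩
    · rintro rfl
      exact asm _ _ h1 h3
    · -- `Face T w x1 v`
      rcases f1 with k | k
      · exact Or.inr (rot3 cT k).2
      · exact Or.inl (cT.rot k)
    · rintro (⟨k1, k2⟩ | ⟨k1, k2⟩)
      · exact asm _ _ h5 k1
      · exact asm _ _ h1 k2
    · rintro (⟨k1, k2⟩ | ⟨k1, k2⟩)
      · exact asm _ _ h2 k1
      · exact asm _ _ h3 k2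
    · by_cases hs : e ∈ Z
      · exact Or.inl hs
      · exact Or.inr (sp (Or.inr hs))
  · refine ⟨x4, e, ?_, tr, rr, ?_, ?_, ?_, ?_, ?_⟩
    · rintro rfl
      exact asm _ _ h2 h4
    · -- `Face T w x4 v`
      rcases f3 with k | k
      · exact Or.inl (cT.rot k)
      · exact Or.inr (rot3 cT k).2
    · rintro (⟨k1, k2⟩ | ⟨k1, k2⟩)
      · exact asm _ _ h4 k2
      · exact asm _ _ h7 k1
    · exact face_swap cT (Or.symm f2)
    · rintro (⟨k1, k2⟩ | ⟨k1, k2⟩)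
      · exact asm _ _ h2 k2
      · exact asm _ _ h3 k1
    · by_cases hr : e ∈ Z
      · exact Or.inl hr
      · right
        rintro ⟨z, z1, z2, z3⟩
        exact sp (Or.inl hr) ⟨z, z1, face_swap cT z2, ⟨z3.2, z3.1⟩⟩

/-- **the number of requests at a vertex** -/
theorem tb_le [Infinite V] (hM : MCw T D a b c) (hT : Ts T D a b c)
    (hC : Ctx T X D a b c Z) {w : V} : tb T X D Z w ≤ cn X (A3 T X D Z w) := by
  classical
  unfold tb cn
  apply Finset.card_le_card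
  intro v hv
  obtain ⟨h1, e, h2⟩ := Finset.mem_filter.1 hv
  have hI := mem_inn.1 h1
  exact Finset.mem_filter.2 ⟨hI.1, req_a3 hM hT hC hI h2⟩

open Classical in
/-- **the boundary sum** in the form of the discharging -/
theorem bnd_sum [Infinite V] (hF : FanT V) (hM : MCw T D a b c) (hT : Ts T D a b c)
    (hC : Ctx T X D a b c Z) :
    ((∑ w ∈ Z.toFinset, (2 * kb T X D Z w + 3 * tb T X D Z w) : ℕ) : ℤ) <
      6 * ∑ v ∈ inn X D Z, ((4 : ℤ) - sv T D v - qv T D v) := by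
  have h1 := ctx_net' hF hM hT hC
  have h2 : ∑ w ∈ Z.toFinset, (2 * kb T X D Z w + 3 * tb T X D Z w) ≤
      (Z.map (rq X (A1 T X D Z) (A2 T X D Z) (A3 T X D Z))).sum := by
    rw [← List.sum_toFinset _ hC.reg.bd.nodup]
    apply Finset.sum_le_sum
    intro w _
    have k1 := kb_le (w := w) hT hC.reg
    have k2 := tb_le (w := w) hM hT hC
    unfold rq
    omega
  have e : inn X D Z = (verts X).filter (fun v => Re D v ∧ v ∉ Z) := by
    ext v
    rw [mem_inn, Finset.mem_filter]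
    rfl
  rw [e]
  refine lt_of_le_of_lt ?_ h1
  exact_mod_cast h2

end Pool.Agent.H13.G4
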