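import Pool.Agent.H13.G4.Count

/-!
# Replacing a disc inside a disc by another disc with the same boundary  [row T2]
-/

set_option autoImplicit false

namespace Pool.Agent.H13.G4

open Relation Pool.Agent.H13.DA Pool.Agent.H72.G4

variable {V : Type*} [DecidableEq V] {T : Finset (V × V × V)}

section

variable {X X' : Finset (V × V × V)} {Z : List V}

theorem dir_split (hX : X ⊆ T) {a b : V} : Dir T a b ↔ Dir X a b ∨ Dir (T \ X) a b := by
  constructor
  · rintro ⟨c, hc⟩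
    by_cases h : (a, b, c) ∈ X
    · exact Or.inl ⟨c, h⟩
    · exact Or.inr ⟨c, Finset.mem_sdiff.2 ⟨hc, h⟩⟩
  · rintro (⟨c, hc⟩ | ⟨c, hc⟩)
    · exact ⟨c, hX hc⟩
    · exact ⟨c, (Finset.mem_sdiff.1 hc).1⟩

theorem dir_ex (hT : IsCx T) (hX : X ⊆ T) {a b : V} (h1 : Dir X a b) (h2 : Dir (T \ X) a b) :
    False := by
  obtain ⟨c, hc⟩ := h1
  obtain ⟨d, hd⟩ := h2
  obtain ⟨hd1, hd2⟩ := Finset.mem_sdiff.1 hd
  have := hT.uniq (hX hc) hd1
  subst this
  exact hd2 hc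

/-- a directed edge is not both in the new disc and in the rest -/
theorem rep_ex (hT : IsCx T) (hX : X ⊆ T) (hZ : IsBd X Z) (hZ' : IsBd X' Z)
    (hA : ∀ x y, Adj X' x y → Adj (T \ X) x y → Cyc Z x y ∨ Cyc Z y x) {a b : V}
    (h1 : Dir X' a b) (h2 : Dir (T \ X) a b) : False := by
  rcases hA a b (Or.inl h1) (Or.inl h2) with k | k
  · exact dir_ex hT hX (bd_cyc hZ k).1 h2
  · exact (bd_cyc hZ' k).2 h1

theorem rep_bd (hT : IsCx T) (hX : X ⊆ T) (hZ : IsBd X Z) (hZ' : IsBd X' Z)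
    (hA : ∀ x y, Adj X' x y → Adj (T \ X) x y → Cyc Z x y ∨ Cyc Z y x) (a b : V) :
    Bd ((T \ X) ∪ X') a b ↔ Bd T a b := by
  have e1 : ∀ {x y}, Dir X x y → ¬ Dir X y x → Cyc Z x y := fun h h' =>
    (hZ.iff _ _).1 (bd_dir.2 ⟨h, h'⟩)
  have e2 : ∀ {x y}, Dir X' x y → ¬ Dir X' y x → Cyc Z x y := fun h h' =>
    (hZ'.iff _ _).1 (bd_dir.2 ⟨h, h'⟩)
  rw [bd_dir, bd_dir, dir_union, dir_union, dir_split hX, dir_split hX]
  constructor
  · rintro ⟨h1 | h1, h2⟩
    · refine ⟨Or.inr h1, ?_⟩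
      rintro (h3 | h3)
      · have h4 : ¬ Dir X a b := fun h => dir_ex hT hX h h1
        exact h2 (Or.inr (bd_cyc hZ' (e1 h3 h4)).1)
      · exact h2 (Or.inl h3)
    · have h4 : ¬ Dir X' b a := fun h => h2 (Or.inr h)
      obtain ⟨k1, k2⟩ := bd_cyc hZ (e2 h1 h4)
      refine ⟨Or.inl k1, ?_⟩
      rintro (h3 | h3)
      · exact k2 h3
      · exact h2 (Or.inl h3)
  · rintro ⟨h1 | h1, h2⟩
    · have h4 : ¬ Dir X b a := fun h => h2 (Or.inl h)
      obtain ⟨k1, k2⟩ := bd_cyc hZ' (e1 h1 h4)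
      refine ⟨Or.inr k1, ?_⟩
      rintro (h3 | h3)
      · exact h2 (Or.inr h3)
      · exact k2 h3
    · refine ⟨Or.inl h1, ?_⟩
      rintro (h3 | h3)
      · exact h2 (Or.inr h3)
      · have h4 : ¬ Dir X' a b := fun h => rep_ex hT hX hZ hZ' hA h h1
        exact h2 (Or.inl (bd_cyc hZ (e2 h3 h4)).1)

theorem rep_cx (hT : IsCx T) (cX : IsCx X) (hX : X ⊆ T) (hZ : IsBd X Z) (cX' : IsCx X')
    (hZ' : IsBd X' Z)
    (hA : ∀ x y, Adj X' x y → Adj (T \ X) x y → Cyc Z x y ∨ Cyc Z y x) :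
    IsCx ((T \ X) ∪ X') := by
  have cY := sdiff_isCx hT cX
  refine ⟨?_, ?_, ?_⟩
  · intro a b c h
    rcases Finset.mem_union.1 h with h | h
    · exact Finset.mem_union_left _ (cY.rot h)
    · exact Finset.mem_union_right _ (cX'.rot h)
  · intro a b c h
    rcases Finset.mem_union.1 h with h | h
    · exact cY.ne h
    · exact cX'.ne h
  · intro a b c d h h'
    rcases Finset.mem_union.1 h with h | h
    · rcases Finset.mem_union.1 h' with h' | h'
      · exact cY.uniq h h'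
      · exact (rep_ex hT hX hZ hZ' hA ⟨_, h'⟩ ⟨_, h⟩).elim
    · rcases Finset.mem_union.1 h' with h' | h'
      · exact (rep_ex hT hX hZ hZ' hA ⟨_, h⟩ ⟨_, h'⟩).elim
      · exact cX'.uniq h h'

/-- every triangle of the rest reaches the new disc -/
theorem rep_reach (hT : IsCx T) (hc : Conn T) (cX : IsCx X) (hX : X ⊆ T) (neX : X.Nonempty)
    (hZ : IsBd X Z) (hZ' : IsBd X' Z) :
    ∀ s ∈ T \ X, ∃ t ∈ X', ReflTransGen (Step ((T \ X) ∪ X')) s t := by
  have cY := sdiff_isCx hT cX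
  obtain ⟨x0, hx0⟩ := neX
  intro s hs
  obtain ⟨hs1, hs2⟩ := Finset.mem_sdiff.1 hs
  have hr := hc s hs1 x0 (hX hx0)
  -- follow the path backwards: head induction
  have key : ∀ u, ReflTransGen (Step T) u x0 → u ∈ T \ X →
      ∃ t ∈ X', ReflTransGen (Step ((T \ X) ∪ X')) u t := by
    intro u hu
    induction hu using ReflTransGen.head_induction_on with
    | refl => intro h; exact absurd hx0 (Finset.mem_sdiff.1 h).2
    | head h1 _ ih =>
      intro h
      cases h1 with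
      | @rot a b c h3 =>
        obtain ⟨t, ht, hr'⟩ := ih (cY.rot h)
        exact ⟨t, ht, ReflTransGen.head (Step.rot (Finset.mem_union_left _ h)) hr'⟩
      | @flip a b c d h3 h4 =>
        by_cases h5 : (b, a, d) ∈ X
        · have h6 : ¬ Dir X a b := fun k => dir_ex hT hX k ⟨c, h⟩
          have h7 : Cyc Z b a := (hZ.iff b a).1 (bd_dir.2 ⟨⟨d, h5⟩, h6⟩)
          obtain ⟨⟨e, he⟩, _⟩ := bd_cyc hZ' h7
          exact ⟨_, he, ReflTransGen.single
            (Step.flip (Finset.mem_union_left _ h) (Finset.mem_union_right _ he))⟩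
        · obtain ⟨t, ht, hr'⟩ := ih (Finset.mem_sdiff.2 ⟨h4, h5⟩)
          exact ⟨t, ht, ReflTransGen.head
            (Step.flip (Finset.mem_union_left _ h)
              (Finset.mem_union_left _ (Finset.mem_sdiff.2 ⟨h4, h5⟩))) hr'⟩
  exact key s hr hs

theorem rep_conn (hT : IsCx T) (hc : Conn T) (cX : IsCx X) (hX : X ⊆ T) (neX : X.Nonempty)
    (hZ : IsBd X Z) (hZ' : IsBd X' Z) (nX' : Conn X') (hcx : IsCx ((T \ X) ∪ X')) :
    Conn ((T \ X) ∪ X') := by
  have hr := rep_reach hT hc cX hX neX hZ hZ'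
  have hto : ∀ s ∈ (T \ X) ∪ X', ∃ t ∈ X', ReflTransGen (Step ((T \ X) ∪ X')) s t := by
    intro s hs
    rcases Finset.mem_union.1 hs with hs | hs
    · exact hr s hs
    · exact ⟨s, hs, ReflTransGen.refl⟩
  intro s hs t ht
  obtain ⟨s', hs', r1⟩ := hto s hs
  obtain ⟨t', ht', r2⟩ := hto t ht
  have r3 := reach_mono (Y := (T \ X) ∪ X') Finset.subset_union_right (nX' s' hs' t' ht')
  exact (r1.trans r3).trans (conn_symm hcx r2)

theorem rep_chi (hT : IsCx T) (hX : X ⊆ T) (cX : IsCx X) (hZ : IsBd X Z) (cX' : IsCx X')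
    (hZ' : IsBd X' Z)
    (hV : ∀ x, x ∈ verts X → x ∈ verts (T \ X) → x ∈ Z)
    (hV' : ∀ x, x ∈ verts X' → x ∈ verts (T \ X) → x ∈ Z)
    (hA : ∀ x y, Adj X' x y → Adj (T \ X) x y → Cyc Z x y ∨ Cyc Z y x) (h3 : chi X = chi X') :
    chi ((T \ X) ∪ X') = chi T := by
  classical
  have d1 : Disjoint (T \ X) X' := by
    rw [Finset.disjoint_left]
    rintro ⟨a, b, c⟩ h1 h2
    exact rep_ex hT hX hZ hZ' hA ⟨c, h2⟩ ⟨c, h1⟩
  have d2 : Disjoint (T \ X) X := Finset.sdiff_disjoint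
  have e0 : T = (T \ X) ∪ X := (Finset.sdiff_union_of_subset hX).symm
  have eV : verts (T \ X) ∩ verts X = verts (T \ X) ∩ verts X' := by
    ext x
    simp only [Finset.mem_inter]
    constructor
    · rintro ⟨h1, h2⟩
      exact ⟨h1, hZ'.verts cX' (hV x h2 h1)⟩
    · rintro ⟨h1, h2⟩
      exact ⟨h1, hZ.verts cX (hV' x h2 h1)⟩
  have eE : edges (T \ X) ∩ edges X = edges (T \ X) ∩ edges X' := by
    ext e
    induction e using Sym2.ind with
    | _ x y =>
      simp only [Finset.mem_inter, edge_iff]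
      constructor
      · rintro ⟨h1, h2⟩
        refine ⟨h1, ?_⟩
        -- the common edge is on the boundary of `X`
        have key : ∀ {x y}, Dir X x y → Dir (T \ X) y x → Adj X' x y := by
          intro x y k1 k2
          have k3 : ¬ Dir X y x := fun k => dir_ex hT hX k k2
          exact Or.inl (bd_cyc hZ' ((hZ.iff x y).1 (bd_dir.2 ⟨k1, k3⟩))).1
        rcases adj_dir.1 h2 with k1 | k1
        · rcases adj_dir.1 h1 with k2 | k2
          · exact (dir_ex hT hX k1 k2).elim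
          · exact key k1 k2
        · rcases adj_dir.1 h1 with k2 | k2
          · exact (key k1 k2).symm
          · exact (dir_ex hT hX k1 k2).elim
      · rintro ⟨h1, h2⟩
        refine ⟨h1, ?_⟩
        rcases hA x y h2 h1 with k | k
        · exact Or.inl (bd_cyc hZ k).1
        · exact Or.inr (bd_cyc hZ k).1
  have c1 := chi_union _ _ d1
  have c2 := chi_union _ _ d2
  rw [← e0] at c2
  rw [c1, c2, eV, eE, h3]

/-- **Replacement.**  A disc `X` inside the disc `T` is replaced by a disc `X'` with the same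
boundary. -/
theorem replace (hD : Disc T) (hX : X ⊆ T) (hDX : Disc X) (hZ : IsBd X Z)
    (hV : ∀ x, x ∈ verts X → x ∈ verts (T \ X) → x ∈ Z) (hDX' : Disc X') (hZ' : IsBd X' Z)
    (hV' : ∀ x, x ∈ verts X' → x ∈ verts (T \ X) → x ∈ Z)
    (hA : ∀ x y, Adj X' x y → Adj (T \ X) x y → Cyc Z x y ∨ Cyc Z y x) :
    Disc ((T \ X) ∪ X') ∧ ∀ l, IsBd T l → IsBd ((T \ X) ∪ X') l := by
  have hT := hD.cx
  have hcx := rep_cx hT hDX.cx hX hZ hDX'.cx hZ' hA
  have neX : X.Nonempty := by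
    obtain ⟨a, b, ⟨c, hc⟩, _⟩ := hDX.bd
    exact ⟨_, hc⟩
  have hbd := rep_bd hT hX hZ hZ' hA
  refine ⟨⟨hcx, rep_conn hT hD.conn hDX.cx hX neX hZ hZ' hDX'.conn hcx, ?_, ?_⟩, ?_⟩
  · obtain ⟨a, b, h⟩ := hD.bd
    exact ⟨a, b, (hbd a b).2 h⟩
  · rw [rep_chi hT hX hDX.cx hZ hDX'.cx hZ' hV hV' hA (hDX.chi.trans hDX'.chi.symm)]
    exact hD.chi
  · intro l hl
    exact ⟨hl.nodup, hl.len, fun a b => (hbd a b).trans (hl.iff a b)⟩

end

end Pool.Agent.H13.G4
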