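import Pool.Agent.H13.G4.Ops
import Pool.Agent.H13.G4.Rep
import Pool.Agent.H72.G4.CycL

/-!
# Fans and cones are discs  [row T4]

* `ear_new` : a triangle with a new vertex on a boundary edge.
* `pc v L` : the fan of triangles `(v, x, y)`, `y` after `x` on the list `L`;
  `pc_disc` : for `L = x :: y :: m` it is a disc with boundary `v :: L`.
* `cone v L` : the cone over the cyclic list `L`; `cone_disc` : a disc with boundary `L`.
-/

set_option autoImplicit false

namespace Pool.Agent.H13.G4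

open Relation Pool.Agent.H13.DA Pool.Agent.H72.G4

variable {V : Type*} [DecidableEq V] {T : Finset (V × V × V)}

/-- adding a triangle with a new vertex `w` on the boundary edge `x y` -/
theorem ear_new (hD : Disc T) {x y w : V} {m : List V} (hl : IsBd T (x :: y :: m))
    (hw : w ∉ verts T) :
    Disc (T ∪ tri y x w) ∧ IsBd (T ∪ tri y x w) (x :: w :: y :: m) := by
  have hT := hD.cx
  have nd := hl.nodup
  have nxy : x ≠ y := by
    intro h; simp [h] at nd
  obtain ⟨d1, d1'⟩ := bd_cyc hl (a := x) (b := y) (Or.inl ⟨rfl, rfl⟩)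
  have vx : x ∈ verts T := (dir_verts hT d1).1
  have vy : y ∈ verts T := (dir_verts hT d1).2
  have nxw : x ≠ w := fun e => hw (e ▸ vx)
  have nyw : y ≠ w := fun e => hw (e ▸ vy)
  have w1 : ∀ p, ¬ Dir T w p := fun p h => hw (dir_verts hT h).1
  have w2 : ∀ p, ¬ Dir T p w := fun p h => hw (dir_verts hT h).2
  have hcx : IsCx (T ∪ tri y x w) := cx_add hT nxy.symm nxw nyw.symm d1' (w2 x) (w1 y)
  have hdj := tri_disj hT (c := w) d1'
  have hconn : Conn (T ∪ tri y x w) :=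
    conn_add hD.conn (conn_tri y x w) d1 (dir_tri.2 (Or.inl ⟨rfl, rfl⟩))
  have hbd : IsBd (T ∪ tri y x w) (x :: w :: y :: m) := by
    refine ⟨?_, ?_, ?_⟩
    · have hwl : w ∉ x :: y :: m := fun h => hw (hl.verts hT h)
      simp only [List.nodup_cons, List.mem_cons, not_or] at nd hwl ⊢
      exact ⟨⟨nxw, nd.1.1, nd.1.2⟩, ⟨hwl.2.1, hwl.2.2⟩, nd.2⟩
    · have := hl.len
      simp only [List.length_cons] at this ⊢
      omega
    · intro a b
      rw [bd_dir, dir_union, dir_union, dir_tri, dir_tri, cyc3]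
      have hl' := hl.iff a b
      rw [bd_dir, cyc2] at hl'
      have k1 : Nx (y :: (m ++ [x])) a b → Dir T a b ∧ ¬ Dir T b a := fun h =>
        hl'.2 (Or.inr h)
      constructor
      · rintro ⟨h1, h2⟩
        rcases h1 with h1 | ⟨rfl, rfl⟩ | ⟨rfl, rfl⟩ | ⟨rfl, rfl⟩
        · have h3 : ¬ Dir T b a := fun h => h2 (Or.inl h)
          rcases hl'.1 ⟨h1, h3⟩ with ⟨rfl, rfl⟩ | h4
          · exact absurd (Or.inr (Or.inl ⟨rfl, rfl⟩)) h2
          · exact Or.inr (Or.inr h4)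
        · exact absurd (Or.inl d1) h2
        · exact Or.inl ⟨rfl, rfl⟩
        · exact Or.inr (Or.inl ⟨rfl, rfl⟩)
      · rintro (⟨rfl, rfl⟩ | ⟨rfl, rfl⟩ | h)
        · refine ⟨Or.inr (Or.inr (Or.inl ⟨rfl, rfl⟩)), ?_⟩
          rintro (h | ⟨h1, h2⟩ | ⟨h1, h2⟩ | ⟨h1, h2⟩)
          · exact w1 _ h
          · exact nyw h1.symm
          · exact nxw h1.symm
          · exact nxy h2
        · refine ⟨Or.inr (Or.inr (Or.inr ⟨rfl, rfl⟩)), ?_⟩
          rintro (h | ⟨h1, h2⟩ | ⟨h1, h2⟩ | ⟨h1, h2⟩)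
          · exact w2 _ h
          · exact nxw h2.symm
          · exact nxy h1.symm
          · exact nyw h1
        · obtain ⟨k2, k3⟩ := k1 h
          refine ⟨Or.inl k2, ?_⟩
          rintro (h' | ⟨rfl, rfl⟩ | ⟨rfl, rfl⟩ | ⟨rfl, rfl⟩)
          · exact k3 h'
          · have h5 := nx_tail h
            simp only [List.mem_append, List.mem_cons, List.not_mem_nil, or_false] at h5
            simp only [List.nodup_cons, List.mem_cons, not_or] at nd
            rcases h5 with h5 | h5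
            · exact nd.2.1 h5
            · exact nxy h5.symm
          · exact w1 _ k2
          · exact w2 _ k2
  refine ⟨⟨hcx, hconn, ⟨x, w, (hbd.iff x w).2 (Or.inl ⟨rfl, rfl⟩)⟩, ?_⟩, hbd⟩
  have e1 : (verts T ∩ verts (tri y x w)).card = 2 := by
    have e : verts T ∩ verts (tri y x w) = {y, x} := by
      rw [verts_tri]
      ext z
      simp only [Finset.mem_inter, Finset.mem_insert, Finset.mem_singleton]
      constructor
      · rintro ⟨h1, h2 | h2 | h2⟩
        · exact Or.inl h2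
        · exact Or.inr h2
        · exact absurd (h2 ▸ h1) hw
      · rintro (rfl | rfl)
        · exact ⟨vy, Or.inl rfl⟩
        · exact ⟨vx, Or.inr (Or.inl rfl)⟩
    rw [e, Finset.card_insert_of_notMem, Finset.card_singleton]
    simpa using nxy.symm
  have e2 : (edges T ∩ edges (tri y x w)).card = 1 := by
    have e3 : edges T ∩ edges (tri y x w) = {s(y, x)} := by
      rw [edges_tri]
      ext e
      simp only [Finset.mem_inter, Finset.mem_insert, Finset.mem_singleton]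
      constructor
      · rintro ⟨h1, h2 | h2 | h2⟩
        · exact h2
        · subst h2
          rcases edge_iff.1 h1 with k | k
          · exact absurd k (w2 _)
          · exact absurd k (w1 _)
        · subst h2
          rcases edge_iff.1 h1 with k | k
          · exact absurd k (w1 _)
          · exact absurd k (w2 _)
      · rintro rfl
        exact ⟨edge_iff.2 (Or.inr d1), Or.inl rfl⟩
    rw [e3, Finset.card_singleton]
  rw [chi_union _ _ hdj, hD.chi, chi_tri nxy.symm nxw nyw.symm, e1, e2]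
  norm_num

/-- the fan over a list -/
noncomputable def pc (v : V) : List V → Finset (V × V × V)
  | [] => ∅
  | [_] => ∅
  | x :: y :: m => pc v (y :: m) ∪ tri v x y

theorem mem_pc (v : V) (L : List V) (p q r : V) :
    (p, q, r) ∈ pc v L ↔ (p = v ∧ Nx L q r) ∨ (q = v ∧ Nx L r p) ∨ (r = v ∧ Nx L p q) := by
  induction L with
  | nil => simp [pc, Nx]
  | cons x L ih =>
    cases L with
    | nil => simp [pc, Nx]
    | cons y m =>
      rw [pc, Finset.mem_union, ih, mem_tri]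
      simp only [Prod.mk.injEq, Nx]
      tauto

theorem dir_pc (v : V) (L : List V) (p q : V) :
    Dir (pc v L) p q ↔ (p = v ∧ ∃ r, Nx L q r) ∨ (q = v ∧ ∃ r, Nx L r p) ∨ Nx L p q := by
  constructor
  · rintro ⟨r, h⟩
    rcases (mem_pc v L p q r).1 h with ⟨h1, h2⟩ | ⟨h1, h2⟩ | ⟨_, h2⟩
    · exact Or.inl ⟨h1, r, h2⟩
    · exact Or.inr (Or.inl ⟨h1, r, h2⟩)
    · exact Or.inr (Or.inr h2)
  · rintro (⟨h1, r, h2⟩ | ⟨h1, r, h2⟩ | h)
    · exact ⟨r, (mem_pc v L p q r).2 (Or.inl ⟨h1, h2⟩)⟩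
    · exact ⟨r, (mem_pc v L p q r).2 (Or.inr (Or.inl ⟨h1, h2⟩))⟩
    · exact ⟨v, (mem_pc v L p q v).2 (Or.inr (Or.inr ⟨rfl, h⟩))⟩

omit [DecidableEq V] in
theorem nx_some (m : List V) : ∀ (x y : V), ∀ z ∈ x :: y :: m,
    (∃ r, Nx (x :: y :: m) z r) ∨ ∃ r, Nx (x :: y :: m) r z := by
  induction m with
  | nil =>
    intro x y z hz
    simp only [List.mem_cons, List.not_mem_nil, or_false] at hz
    rcases hz with rfl | rfl
    · exact Or.inl ⟨y, Or.inl ⟨rfl, rfl⟩⟩
    · exact Or.inr ⟨x, Or.inl ⟨rfl, rfl⟩⟩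
  | cons w m ih =>
    intro x y z hz
    rcases List.mem_cons.1 hz with rfl | hz
    · exact Or.inl ⟨y, Or.inl ⟨rfl, rfl⟩⟩
    · rcases ih y w z hz with ⟨r, h⟩ | ⟨r, h⟩
      · exact Or.inl ⟨r, Or.inr h⟩
      · exact Or.inr ⟨r, Or.inr h⟩

theorem adj_pc (v x y : V) (m : List V) (p q : V) :
    Adj (pc v (x :: y :: m)) p q ↔ (p = v ∧ q ∈ x :: y :: m) ∨ (q = v ∧ p ∈ x :: y :: m) ∨
      Nx (x :: y :: m) p q ∨ Nx (x :: y :: m) q p := by
  rw [adj_dir, dir_pc, dir_pc]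
  constructor
  · rintro ((⟨h1, r, h2⟩ | ⟨h1, r, h2⟩ | h) | (⟨h1, r, h2⟩ | ⟨h1, r, h2⟩ | h))
    · exact Or.inl ⟨h1, (nx_mem h2).1⟩
    · exact Or.inr (Or.inl ⟨h1, (nx_mem h2).2⟩)
    · exact Or.inr (Or.inr (Or.inl h))
    · exact Or.inr (Or.inl ⟨h1, (nx_mem h2).1⟩)
    · exact Or.inl ⟨h1, (nx_mem h2).2⟩
    · exact Or.inr (Or.inr (Or.inr h))
  · rintro (⟨h1, h2⟩ | ⟨h1, h2⟩ | h | h)
    · rcases nx_some m x y q h2 with h3 | h3
      · exact Or.inl (Or.inl ⟨h1, h3⟩)
      · exact Or.inr (Or.inr (Or.inl ⟨h1, h3⟩))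
    · rcases nx_some m x y p h2 with h3 | h3
      · exact Or.inr (Or.inl ⟨h1, h3⟩)
      · exact Or.inl (Or.inr (Or.inl ⟨h1, h3⟩))
    · exact Or.inl (Or.inr (Or.inr h))
    · exact Or.inr (Or.inr (Or.inr h))

theorem verts_pc (v x y : V) (m : List V) (z : V) :
    z ∈ verts (pc v (x :: y :: m)) ↔ z ∈ v :: x :: y :: m := by
  rw [mem_verts]
  constructor
  · rintro ⟨b, c, h⟩
    rw [mem_pc] at h
    rcases h with ⟨rfl, _⟩ | ⟨_, h⟩ | ⟨_, h⟩
    · simp
    · exact List.mem_cons_of_mem _ (nx_mem h).2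
    · exact List.mem_cons_of_mem _ (nx_mem h).1
  · intro h
    rcases List.mem_cons.1 h with rfl | h
    · exact ⟨x, y, (mem_pc _ _ _ _ _).2 (Or.inl ⟨rfl, Or.inl ⟨rfl, rfl⟩⟩)⟩
    · rcases nx_some m x y z h with ⟨r, h3⟩ | ⟨r, h3⟩
      · exact ⟨r, v, (mem_pc _ _ _ _ _).2 (Or.inr (Or.inr ⟨rfl, h3⟩))⟩
      · exact ⟨v, r, (mem_pc _ _ _ _ _).2 (Or.inr (Or.inl ⟨rfl, h3⟩))⟩

/-- **A fan is a disc.** -/
theorem pc_disc (v : V) (m : List V) : ∀ x y : V, (v :: x :: y :: m).Nodup →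
    Disc (pc v (x :: y :: m)) ∧ IsBd (pc v (x :: y :: m)) (v :: x :: y :: m) := by
  induction m with
  | nil =>
    intro x y nd
    have n1 : v ≠ x := by
      intro h; simp [h] at nd
    have n2 : x ≠ y := by
      intro h; simp [h] at nd
    have n3 : y ≠ v := by
      intro h; simp [h] at nd
    have e : pc v [x, y] = tri v x y := by simp [pc]
    rw [e]
    have hb := bdA n1 n2 n3
    have hb' : IsBd (tri v x y) [v, x, y] := hb.rot ⟨2, by simp⟩
    refine ⟨⟨?_, conn_tri v x y, ⟨v, x, (hb'.iff _ _).2 (Or.inl ⟨rfl, rfl⟩)⟩,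
      chi_tri n1 n2 n3⟩, hb'⟩
    have h0 : IsCx (∅ : Finset (V × V × V)) := ⟨by simp, by simp, by simp⟩
    have := cx_add h0 n1 n2 n3 (by rintro ⟨c, hc⟩; simp at hc) (by rintro ⟨c, hc⟩; simp at hc)
      (by rintro ⟨c, hc⟩; simp at hc)
    simpa using this
  | cons z m ih =>
    intro x y nd
    have nd' : (v :: y :: z :: m).Nodup := by
      simp only [List.nodup_cons, List.mem_cons, not_or] at nd ⊢
      tauto
    obtain ⟨h1, h2⟩ := ih y z nd'
    have hx : x ∉ verts (pc v (y :: z :: m)) := by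
      rw [verts_pc]
      simp only [List.nodup_cons, List.mem_cons, not_or] at nd ⊢
      exact ⟨fun e => nd.1.1 e.symm, nd.2.1.1, nd.2.1.2.1, nd.2.1.2.2⟩
    have h3 := ear_new h1 h2 hx
    have e : tri y v x = tri v x y := tri_eq y v x
    rw [e] at h3
    exact h3

/-- the cone over a cyclic list -/
noncomputable def cone (v : V) : List V → Finset (V × V × V)
  | [] => ∅
  | x :: m => pc v (x :: (m ++ [x]))

theorem mem_cone (v : V) (L : List V) (p q r : V) :
    (p, q, r) ∈ cone v L ↔ (p = v ∧ Cyc L q r) ∨ (q = v ∧ Cyc L r p) ∨ (r = v ∧ Cyc L p q) := by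
  cases L with
  | nil => simp [cone, Cyc]
  | cons x m => exact mem_pc v _ p q r

theorem dir_cone (v : V) (L : List V) (p q : V) :
    Dir (cone v L) p q ↔ (p = v ∧ q ∈ L) ∨ (q = v ∧ p ∈ L) ∨ Cyc L p q := by
  constructor
  · rintro ⟨r, h⟩
    rcases (mem_cone v L p q r).1 h with ⟨h1, h2⟩ | ⟨h1, h2⟩ | ⟨_, h2⟩
    · exact Or.inl ⟨h1, (cyc_mem h2).1⟩
    · exact Or.inr (Or.inl ⟨h1, (cyc_mem h2).2⟩)
    · exact Or.inr (Or.inr h2)
  · rintro (⟨h1, h2⟩ | ⟨h1, h2⟩ | h)
    · obtain ⟨r, hr⟩ := (mem_cyc h2).1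
      exact ⟨r, (mem_cone v L p q r).2 (Or.inl ⟨h1, hr⟩)⟩
    · obtain ⟨r, hr⟩ := (mem_cyc h2).2
      exact ⟨r, (mem_cone v L p q r).2 (Or.inr (Or.inl ⟨h1, hr⟩))⟩
    · exact ⟨v, (mem_cone v L p q v).2 (Or.inr (Or.inr ⟨rfl, h⟩))⟩

theorem adj_cone (v : V) (L : List V) (p q : V) :
    Adj (cone v L) p q ↔ (p = v ∧ q ∈ L) ∨ (q = v ∧ p ∈ L) ∨ Cyc L p q ∨ Cyc L q p := by
  rw [adj_dir, dir_cone, dir_cone]
  tauto

theorem verts_cone (v : V) {L : List V} (hL : L ≠ []) (z : V) :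
    z ∈ verts (cone v L) ↔ z = v ∨ z ∈ L := by
  rw [mem_verts]
  constructor
  · rintro ⟨b, c, h⟩
    rw [mem_cone] at h
    rcases h with ⟨rfl, _⟩ | ⟨_, h⟩ | ⟨_, h⟩
    · exact Or.inl rfl
    · exact Or.inr (cyc_mem h).2
    · exact Or.inr (cyc_mem h).1
  · rintro (rfl | h)
    · obtain ⟨x, hx⟩ := List.exists_mem_of_ne_nil L hL
      obtain ⟨y, hy⟩ := (mem_cyc hx).1
      exact ⟨x, y, (mem_cone _ _ _ _ _).2 (Or.inl ⟨rfl, hy⟩)⟩
    · obtain ⟨r, hr⟩ := (mem_cyc h).1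
      exact ⟨r, v, (mem_cone _ _ _ _ _).2 (Or.inr (Or.inr ⟨rfl, hr⟩))⟩

theorem pc_snoc (v : V) (l : List V) (z x : V) :
    pc v (l ++ [z, x]) = pc v (l ++ [z]) ∪ tri v z x := by
  ext ⟨p, q, r⟩
  rw [Finset.mem_union, mem_pc, mem_pc, mem_tri, nx_snoc, nx_snoc, nx_snoc]
  simp only [Prod.mk.injEq]
  tauto

/-- **A cone is a disc.** -/
theorem cone_disc (v : V) {L : List V} (nd : L.Nodup) (h3 : 3 ≤ L.length) (hv : v ∉ L) :
    Disc (cone v L) ∧ IsBd (cone v L) L := by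
  match L, nd, h3, hv with
  | [], _, h3, _ => simp at h3
  | [_], _, h3, _ => simp at h3
  | x :: y :: t, nd, h3, hv =>
    have ht : t ≠ [] := by
      rintro rfl
      simp at h3
    obtain ⟨m, z, rfl⟩ : ∃ m z, t = m ++ [z] := by
      rcases List.eq_nil_or_concat t with rfl | ⟨l', y', rfl⟩
      · exact absurd rfl ht
      · exact ⟨l', y', by simp⟩
    have ndv : (v :: x :: y :: (m ++ [z])).Nodup := List.nodup_cons.2 ⟨hv, nd⟩
    obtain ⟨h1, h2⟩ := pc_disc v (m ++ [z]) x y ndv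
    have hr : (v :: x :: y :: (m ++ [z])) ~r (z :: v :: x :: y :: m) := by
      have e : v :: x :: y :: (m ++ [z]) = (v :: x :: y :: m) ++ [z] := by simp
      rw [e]
      exact List.isRotated_append
    have h2' := h2.rot hr
    have hnx : z ∉ x :: y :: m := by
      have := (hr.nodup_iff.1 ndv)
      simp only [List.nodup_cons, List.mem_cons, not_or] at this ⊢
      exact this.1.2
    have hna : ¬ Adj (pc v (x :: y :: (m ++ [z]))) z x := by
      rw [adj_pc]
      rintro (⟨h, _⟩ | ⟨h, _⟩ | h | h)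
      · exact hv (by rw [← h]; simp)
      · exact hv (by rw [← h]; simp)
      · have := nx_tail h
        rw [List.nodup_cons] at nd
        exact nd.1 this
      · rcases h with ⟨_, h⟩ | h
        · exact hnx (by rw [h]; simp)
        · have := (nx_mem h).1
          rw [List.nodup_cons] at nd
          exact nd.1 this
    obtain ⟨k1, k2, _, _⟩ := ear_add h1 h2' (by simp) hna
    have e : cone v (x :: y :: (m ++ [z])) = pc v (x :: y :: (m ++ [z])) ∪ tri v z x := by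
      have e1 : x :: (y :: (m ++ [z]) ++ [x]) = (x :: y :: m) ++ [z, x] := by simp
      have e2 : x :: y :: (m ++ [z]) = (x :: y :: m) ++ [z] := by simp
      rw [cone, e1, pc_snoc, e2]
    rw [e]
    refine ⟨k1, k2.rot ?_⟩
    have e2 : x :: y :: (m ++ [z]) = (x :: y :: m) ++ [z] := by simp
    rw [e2]
    exact (List.isRotated_append (l := x :: y :: m) (l' := [z])).symm

end Pool.Agent.H13.G4
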