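import Pool.Agent.H13.G4.StarD

/-!
# Operations on discs: contraction, subdivision of an edge, flip  [rows T5, T6]

All operations keep every boundary list.

* `fan_disc` (T5, contraction of the edge `vp`) : the inner vertex `v` is removed, the hole is
  filled by the fan from its neighbour `p`.
* `sub_edge` (T6) : a new vertex `f` on the inner edge `xy`, joined to `x, y` and the two apices.
* `flip_edge` : the inner edge `xy` is replaced by the edge `pr` of its apices.
* `sub_face` : a new vertex `f` in the triangle `(x, y, z)`.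
-/

set_option autoImplicit false

namespace Pool.Agent.H13.G4

open Relation Pool.Agent.H13.DA Pool.Agent.H72.G4

variable {V : Type*} [DecidableEq V] {T : Finset (V × V × V)}

section star

variable {v : V} {L : List V}

/-- the star of `v` is in `T` -/
theorem cone_sub (hT : IsCx T) (h : ∀ x y, (v, x, y) ∈ T ↔ Cyc L x y) : cone v L ⊆ T := by
  rintro ⟨p, q, r⟩ ht
  rw [mem_cone] at ht
  rcases ht with ⟨rfl, h1⟩ | ⟨rfl, h1⟩ | ⟨rfl, h1⟩
  · exact (h q r).2 h1
  · exact (rot3 hT ((h r p).2 h1)).2
  · exact (rot3 hT ((h p q).2 h1)).1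

/-- a triangle containing `v` is in the star -/
theorem cone_mem (hT : IsCx T) (h : ∀ x y, (v, x, y) ∈ T ↔ Cyc L x y) {p q r : V}
    (ht : (p, q, r) ∈ T) (hv : p = v ∨ q = v ∨ r = v) : (p, q, r) ∈ cone v L := by
  rw [mem_cone]
  rcases hv with rfl | rfl | rfl
  · exact Or.inl ⟨rfl, (h q r).1 ht⟩
  · exact Or.inr (Or.inl ⟨rfl, (h r p).1 (hT.rot ht)⟩)
  · exact Or.inr (Or.inr ⟨rfl, (h p q).1 (hT.rot (hT.rot ht))⟩)

/-- `v` is not a vertex of the rest -/
theorem rest_nv (hT : IsCx T) (h : ∀ x y, (v, x, y) ∈ T ↔ Cyc L x y) :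
    v ∉ verts (T \ cone v L) := by
  rw [mem_verts]
  rintro ⟨b, c, hb⟩
  obtain ⟨h1, h2⟩ := Finset.mem_sdiff.1 hb
  exact h2 (cone_mem hT h h1 (Or.inl rfl))

theorem adj_split {X : Finset (V × V × V)} (hX : X ⊆ T) (x y : V) :
    Adj T x y ↔ Adj (T \ X) x y ∨ Adj X x y := by
  rw [adj_dir, adj_dir, adj_dir, dir_split hX, dir_split hX]
  tauto

theorem verts_split {X : Finset (V × V × V)} (hX : X ⊆ T) (x : V) :
    x ∈ verts T ↔ x ∈ verts (T \ X) ∨ x ∈ verts X := by
  have e : T = (T \ X) ∪ X := (Finset.sdiff_union_of_subset hX).symm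
  conv_lhs => rw [e, verts_union]
  rw [Finset.mem_union]

theorem adj_un {X Y : Finset (V × V × V)} (x y : V) :
    Adj (X ∪ Y) x y ↔ Adj X x y ∨ Adj Y x y := by
  rw [adj_dir, adj_dir, adj_dir, dir_union, dir_union]
  tauto

end star

/-- the number of triangles of a disc from the number of vertices -/
theorem card_two {T T' : Finset (V × V × V)} (hD : Disc T) (hD' : Disc T') {l : List V}
    (hl : IsBd T l) (hl' : IsBd T' l) :
    (T'.card : ℤ) - T.card = 6 * ((verts T').card - (verts T).card) := by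
  have h1 := card_disc hD hl
  have h2 := card_disc hD' hl'
  linarith

/-- **Contraction** of the edge `vp`, `v` off the boundary, into `p`: remove `v`, fill the hole by
the fan from `p`. -/
theorem fan_disc' [Infinite V] (hD : Disc T) {l : List V} (hl : IsBd T l) {v p : V} (hvl : v ∉ l)
    (h : Adj T v p) (hc : ∀ q, Adj T v q → Adj T p q → (v, p, q) ∈ T ∨ (v, q, p) ∈ T) :
    ∃ T' : Finset (V × V × V), Disc T' ∧ (∀ l', IsBd T l' → IsBd T' l') ∧
      verts T' = (verts T).erase v ∧
      (∀ x y, Adj T' x y ↔ x ≠ v ∧ y ≠ v ∧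
        (Adj T x y ∨ (x = p ∧ y ≠ p ∧ Adj T v y) ∨ (y = p ∧ x ≠ p ∧ Adj T v x))) ∧
      (∀ x y z, (x, y, z) ∈ T → x ≠ v → y ≠ v → z ≠ v → (x, y, z) ∈ T') ∧
      T'.card + 6 = T.card ∧
      (∀ x y, (v, x, y) ∈ T → x ≠ p → y ≠ p → (p, x, y) ∈ T') := by
  have hT := hD.cx
  have hv : v ∈ verts T := (adj_vert hT h).1
  have hpv : p ≠ v := (adj_vert hT h).2.2.symm
  obtain ⟨L0, b1, b2, b3, b4, b5⟩ := link hD hl hv hvl
  obtain ⟨L, hL⟩ := rot_head ((b5 p).1 h)
  have nd := hL.nodup_iff.1 b1
  have h3 : 3 ≤ (p :: L).length := hL.perm.length_eq ▸ b2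
  have c4 : ∀ x y, (v, x, y) ∈ T ↔ Cyc (p :: L) x y := fun x y => (b4 x y).trans (cyc_rot hL x y)
  have c5 : ∀ x, Adj T v x ↔ x ∈ p :: L := fun x => (b5 x).trans hL.mem_iff
  have c3 : v ∉ p :: L := fun k => b3 (hL.mem_iff.2 k)
  match L, nd, h3, c4, c5, c3 with
  | [], nd, h3, c4, c5, c3 => simp at h3
  | [_], nd, h3, c4, c5, c3 => simp at h3
  | a :: b :: m, nd, h3, c4, c5, c3 =>
    obtain ⟨dX, bX⟩ := cone_disc v nd h3 c3
    obtain ⟨dX', bX'⟩ := pc_disc p m a b nd
    have sX := cone_sub hT c4
    have rn := rest_nv hT c4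
    have hpa : Cyc (p :: a :: b :: m) p a := Or.inl ⟨rfl, rfl⟩
    -- the adjacencies of the fan
    have fadj : ∀ x y, Adj (pc p (a :: b :: m)) x y ↔
        (x = p ∧ y ∈ a :: b :: m) ∨ (y = p ∧ x ∈ a :: b :: m) ∨
          Cyc (p :: a :: b :: m) x y ∨ Cyc (p :: a :: b :: m) y x := by
      intro x y
      rw [adj_pc]
      constructor
      · rintro (k | k | k | k)
        · exact Or.inl k
        · exact Or.inr (Or.inl k)
        · exact Or.inr (Or.inr (Or.inl (cyc_nx (Or.inr k))))
        · exact Or.inr (Or.inr (Or.inr (cyc_nx (Or.inr k))))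
      · have key : ∀ x y, Cyc (p :: a :: b :: m) x y → (x = p ∧ y ∈ a :: b :: m) ∨
            (y = p ∧ x ∈ a :: b :: m) ∨ Nx (a :: b :: m) x y := by
          intro x y k
          by_cases e1 : x = p
          · subst e1
            have := cyc_unique nd k hpa
            subst this
            exact Or.inl ⟨rfl, by simp⟩
          · by_cases e2 : y = p
            · subst e2
              have h1 := (cyc_mem k).1
              rcases List.mem_cons.1 h1 with h1 | h1
              · exact absurd h1 e1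
              · exact Or.inr (Or.inl ⟨rfl, h1⟩)
            · right; right
              change Nx (p :: a :: (b :: m ++ [p])) x y at k
              rcases k with ⟨k, _⟩ | k
              · exact absurd k e1
              · rw [show a :: (b :: m ++ [p]) = (a :: b :: m) ++ [p] by simp] at k
                obtain ⟨l', z, hz⟩ : ∃ l' z, a :: b :: m = l' ++ [z] := by
                  rcases List.eq_nil_or_concat (a :: b :: m) with k' | ⟨l', y', k'⟩
                  · exact absurd k' (by simp)
                  · exact ⟨l', y', by simpa using k'⟩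
                rw [hz, List.append_assoc, List.singleton_append, nx_snoc] at k
                rw [hz]
                rcases k with k | ⟨_, k⟩
                · exact k
                · exact absurd k e2
        rintro (k | k | k | k)
        · exact Or.inl k
        · exact Or.inr (Or.inl k)
        · rcases key x y k with k | k | k
          · exact Or.inl k
          · exact Or.inr (Or.inl k)
          · exact Or.inr (Or.inr (Or.inl k))
        · rcases key y x k with k | k | k
          · exact Or.inr (Or.inl k)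
          · exact Or.inl k
          · exact Or.inr (Or.inr (Or.inr k))
    have hmem : ∀ {y}, y ∈ a :: b :: m → Adj T v y := fun hy =>
      (c5 _).2 (List.mem_cons_of_mem _ hy)
    obtain ⟨r1, r2⟩ := replace hD sX dX bX (X' := pc p (a :: b :: m))
      (by
        intro x hx1 hx2
        rcases (verts_cone v (by simp) x).1 hx1 with rfl | hx
        · exact absurd hx2 rn
        · exact hx)
      dX' bX'
      (fun x hx _ => (verts_pc p a b m x).1 hx)
      (by
        intro x y h1 h2
        rcases (fadj x y).1 h1 with ⟨rfl, k⟩ | ⟨rfl, k⟩ | k | k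
        · have h2' := (adj_split sX _ _).2 (Or.inl h2)
          rcases hc y (hmem k) h2' with k | k
          · exact Or.inl ((c4 _ _).1 k)
          · exact Or.inr ((c4 _ _).1 k)
        · have h2' := (adj_split sX _ _).2 (Or.inl h2)
          rcases hc x (hmem k) h2'.symm with k | k
          · exact Or.inr ((c4 _ _).1 k)
          · exact Or.inl ((c4 _ _).1 k)
        · exact Or.inl k
        · exact Or.inr k)
    have hadj : ∀ x y, Adj ((T \ cone v (p :: a :: b :: m)) ∪ pc p (a :: b :: m)) x y ↔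
        x ≠ v ∧ y ≠ v ∧
        (Adj T x y ∨ (x = p ∧ y ≠ p ∧ Adj T v y) ∨ (y = p ∧ x ≠ p ∧ Adj T v x)) := by
      intro x y
      rw [adj_un, fadj, adj_split sX x y, adj_cone]
      have hpL : p ∉ a :: b :: m := (List.nodup_cons.1 nd).1
      have nv : ∀ {z}, z ∈ p :: a :: b :: m → z ≠ v := fun hz e => c3 (e ▸ hz)
      constructor
      · rintro (k | ⟨rfl, k⟩ | ⟨rfl, k⟩ | k | k)
        · have := adj_vert (sdiff_isCx hT dX.cx) k
          exact ⟨fun e => rn (e ▸ this.1), fun e => rn (e ▸ this.2.1), Or.inl (Or.inl k)⟩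
        · exact ⟨hpv, nv (List.mem_cons_of_mem _ k),
            Or.inr (Or.inl ⟨rfl, fun e => hpL (e ▸ k), hmem k⟩)⟩
        · exact ⟨nv (List.mem_cons_of_mem _ k), hpv,
            Or.inr (Or.inr ⟨rfl, fun e => hpL (e ▸ k), hmem k⟩)⟩
        · exact ⟨nv (cyc_mem k).1, nv (cyc_mem k).2,
            Or.inl (Or.inr (Or.inr (Or.inr (Or.inl k))))⟩
        · exact ⟨nv (cyc_mem k).2, nv (cyc_mem k).1,
            Or.inl (Or.inr (Or.inr (Or.inr (Or.inr k))))⟩
      · rintro ⟨h1, h2, (k | ⟨k, _⟩ | ⟨k, _⟩ | k | k) | ⟨rfl, k1, k2⟩ | ⟨rfl, k1, k2⟩⟩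
        · exact Or.inl k
        · exact absurd k h1
        · exact absurd k h2
        · exact Or.inr (Or.inr (Or.inr (Or.inl k)))
        · exact Or.inr (Or.inr (Or.inr (Or.inr k)))
        · rcases List.mem_cons.1 ((c5 y).1 k2) with k | k
          · exact absurd k k1
          · exact Or.inr (Or.inl ⟨rfl, k⟩)
        · rcases List.mem_cons.1 ((c5 x).1 k2) with k | k
          · exact absurd k k1
          · exact Or.inr (Or.inr (Or.inl ⟨rfl, k⟩))
    have hver : verts ((T \ cone v (p :: a :: b :: m)) ∪ pc p (a :: b :: m)) =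
        (verts T).erase v := by
      ext x
      rw [verts_union, Finset.mem_union, verts_pc, Finset.mem_erase, verts_split sX,
        verts_cone v (by simp)]
      constructor
      · rintro (k | k)
        · exact ⟨fun e => rn (e ▸ k), Or.inl k⟩
        · exact ⟨fun e => c3 (e ▸ k), Or.inr (Or.inr k)⟩
      · rintro ⟨h1, k | k | k⟩
        · exact Or.inl k
        · exact absurd k h1
        · exact Or.inr k
    refine ⟨_, r1, r2, hver, hadj, ?_, ?_, ?_⟩
    · intro x y z ht hx hy hz
      apply Finset.mem_union_left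
      rw [Finset.mem_sdiff]
      refine ⟨ht, fun k => ?_⟩
      rw [mem_cone] at k
      rcases k with ⟨k, _⟩ | ⟨k, _⟩ | ⟨k, _⟩
      · exact hx k
      · exact hy k
      · exact hz k
    · have h1 := card_two hD r1 hl (r2 l hl)
      rw [hver, Finset.card_erase_of_mem hv] at h1
      have h2 : 0 < (verts T).card := Finset.card_pos.2 ⟨v, hv⟩
      have h3 : (((verts T).card - 1 : ℕ) : ℤ) = (verts T).card - 1 := by
        push_cast [Nat.cast_sub h2]
        ring
      rw [h3] at h1
      omega
    · intro x y ht hx hy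
      have k1 := (c4 x y).1 ht
      apply Finset.mem_union_right
      rw [mem_pc]
      refine Or.inl ⟨rfl, ?_⟩
      change Nx (p :: a :: (b :: m ++ [p])) x y at k1
      rcases k1 with ⟨k, _⟩ | k
      · exact absurd k hx
      · rw [show a :: (b :: m ++ [p]) = (a :: b :: m) ++ [p] by simp] at k
        obtain ⟨l', z, hz⟩ : ∃ l' z, a :: b :: m = l' ++ [z] := by
          rcases List.eq_nil_or_concat (a :: b :: m) with k' | ⟨l', y', k'⟩
          · exact absurd k' (by simp)
          · exact ⟨l', y', by simpa using k'⟩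
        rw [hz, List.append_assoc, List.singleton_append, nx_snoc] at k
        rw [hz]
        rcases k with k | ⟨_, k⟩
        · exact k
        · exact absurd k hy

theorem fan_disc [Infinite V] (hD : Disc T) {l : List V} (hl : IsBd T l) {v p : V} (hvl : v ∉ l)
    (h : Adj T v p) (hc : ∀ q, Adj T v q → Adj T p q → (v, p, q) ∈ T ∨ (v, q, p) ∈ T) :
    ∃ T' : Finset (V × V × V), Disc T' ∧ (∀ l', IsBd T l' → IsBd T' l') ∧
      verts T' = (verts T).erase v ∧
      (∀ x y, Adj T' x y ↔ x ≠ v ∧ y ≠ v ∧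
        (Adj T x y ∨ (x = p ∧ y ≠ p ∧ Adj T v y) ∨ (y = p ∧ x ≠ p ∧ Adj T v x))) ∧
      (∀ x y z, (x, y, z) ∈ T → x ≠ v → y ≠ v → z ≠ v → (x, y, z) ∈ T') ∧
      T'.card + 6 = T.card := by
  obtain ⟨T', h1, h2, h3, h4, h5, h6, _⟩ := fan_disc' hD hl hvl h hc
  exact ⟨T', h1, h2, h3, h4, h5, h6⟩

end Pool.Agent.H13.G4
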