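import Pool.Agent.H72.G4.Peel
import Pool.Agent.H13.DA.Sph

/-!
# Filling the link of a removed vertex: adding ears to a disc, closing a disc to a sphere

* `ear_add`: on the boundary `x, y, z, m` of a disc, `x` and `z` not adjacent, `m ≠ []`: the triangle
  `(y, x, z)` can be added; the boundary becomes `x, z, m`.
* `close_add`: a disc with boundary `x, y, z` plus the triangle `(y, x, z)` is a sphere.
-/

set_option autoImplicit false

namespace Pool.Agent.H13.G4

open Relation Pool.Agent.H13.DA Pool.Agent.H72.G4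

variable {V : Type*} [DecidableEq V] {T : Finset (V × V × V)}

/-- a closed connected complex with Euler characteristic two -/
structure Sph (T : Finset (V × V × V)) : Prop where
  cx : IsCx T
  conn : Conn T
  clos : Clos T
  chi : chi T = 6

theorem cx_add (hT : IsCx T) {a b c : V} (h1 : a ≠ b) (h2 : b ≠ c) (h3 : c ≠ a)
    (n1 : ¬ Dir T a b) (n2 : ¬ Dir T b c) (n3 : ¬ Dir T c a) : IsCx (T ∪ tri a b c) where
  rot := by
    intro x y z h
    rcases Finset.mem_union.1 h with h | h
    · exact Finset.mem_union_left _ (hT.rot h)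
    · exact Finset.mem_union_right _ (tri_rot h)
  ne := by
    intro x y z h
    rcases Finset.mem_union.1 h with h | h
    · exact hT.ne h
    · rw [mem_tri] at h
      simp only [Prod.mk.injEq] at h
      rcases h with ⟨rfl, rfl, rfl⟩ | ⟨rfl, rfl, rfl⟩ | ⟨rfl, rfl, rfl⟩
      · exact h1
      · exact h2
      · exact h3
  uniq := by
    have key : ∀ {x y z w : V}, (x, y, z) ∈ T → (x, y, w) ∈ tri a b c → False := by
      intro x y z w h h'
      have hd : Dir T x y := ⟨z, h⟩
      rw [mem_tri] at h'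
      simp only [Prod.mk.injEq] at h'
      rcases h' with ⟨rfl, rfl, _⟩ | ⟨rfl, rfl, _⟩ | ⟨rfl, rfl, _⟩
      · exact n1 hd
      · exact n2 hd
      · exact n3 hd
    intro x y z w h h'
    rcases Finset.mem_union.1 h with h | h
    · rcases Finset.mem_union.1 h' with h' | h'
      · exact hT.uniq h h'
      · exact (key h h').elim
    · rcases Finset.mem_union.1 h' with h' | h'
      · exact (key h' h).elim
      · rw [mem_tri] at h h'
        simp only [Prod.mk.injEq] at h h'
        rcases h with ⟨rfl, rfl, rfl⟩ | ⟨rfl, rfl, rfl⟩ | ⟨rfl, rfl, rfl⟩ <;>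
          rcases h' with ⟨e1, e2, e3⟩ | ⟨e1, e2, e3⟩ | ⟨e1, e2, e3⟩ <;>
          first
            | exact e3.symm
            | exact absurd e1 h1
            | exact absurd e1 h2
            | exact absurd e1 h3
            | exact absurd e1.symm h1
            | exact absurd e1.symm h2
            | exact absurd e1.symm h3

theorem tri_disj (hT : IsCx T) {a b c : V} (n1 : ¬ Dir T a b) : Disjoint T (tri a b c) := by
  rw [Finset.disjoint_left]
  intro s hs h
  rw [mem_tri] at h
  rcases h with rfl | rfl | rfl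
  · exact n1 ⟨_, hs⟩
  · exact n1 ⟨_, hT.rot (hT.rot hs)⟩
  · exact n1 ⟨_, hT.rot hs⟩

theorem adj_add {a b c p q : V} :
    Adj (T ∪ tri a b c) p q ↔ Adj T p q ∨ (p = a ∧ q = b) ∨ (p = b ∧ q = c) ∨ (p = c ∧ q = a) ∨
      (q = a ∧ p = b) ∨ (q = b ∧ p = c) ∨ (q = c ∧ p = a) := by
  rw [adj_dir, adj_dir, dir_union, dir_union, dir_tri, dir_tri]
  tauto

theorem verts_add (hT : IsCx T) {a b c : V} (ha : a ∈ verts T) (hb : b ∈ verts T)
    (hc : c ∈ verts T) : verts (T ∪ tri a b c) = verts T := by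
  rw [verts_union, verts_tri]
  apply Finset.union_eq_left.2
  intro x hx
  simp only [Finset.mem_insert, Finset.mem_singleton] at hx
  rcases hx with rfl | rfl | rfl
  · exact ha
  · exact hb
  · exact hc

theorem vinter (hT : IsCx T) {a b c : V} (h1 : a ≠ b) (h2 : b ≠ c) (h3 : c ≠ a)
    (ha : a ∈ verts T) (hb : b ∈ verts T) (hc : c ∈ verts T) :
    (verts T ∩ verts (tri a b c)).card = 3 := by
  have e : verts T ∩ verts (tri a b c) = {a, b, c} := by
    rw [verts_tri]
    apply Finset.inter_eq_right.2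
    intro x hx
    simp only [Finset.mem_insert, Finset.mem_singleton] at hx
    rcases hx with rfl | rfl | rfl
    · exact ha
    · exact hb
    · exact hc
  rw [e, Finset.card_insert_of_notMem, Finset.card_insert_of_notMem, Finset.card_singleton]
  · simpa using h2
  · simp only [Finset.mem_insert, Finset.mem_singleton, not_or]
    exact ⟨h1, h3.symm⟩

/-- boundary edges -/
theorem bd_cyc {l : List V} (hl : IsBd T l) {a b : V} (h : Cyc l a b) : Dir T a b ∧ ¬ Dir T b a :=
  bd_dir.1 ((hl.iff a b).2 h)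

theorem cyc3 (x y z : V) (m : List V) (a b : V) :
    Cyc (x :: y :: z :: m) a b ↔ (a = x ∧ b = y) ∨ (a = y ∧ b = z) ∨ Nx (z :: (m ++ [x])) a b := by
  show Nx (x :: y :: z :: (m ++ [x])) a b ↔ _
  rfl

theorem cyc2 (x z : V) (m : List V) (a b : V) :
    Cyc (x :: z :: m) a b ↔ (a = x ∧ b = z) ∨ Nx (z :: (m ++ [x])) a b := by
  show Nx (x :: z :: (m ++ [x])) a b ↔ _
  rfl

theorem ear_add (hD : Disc T) {x y z : V} {m : List V} (hl : IsBd T (x :: y :: z :: m))
    (hm : m ≠ []) (hxz : ¬ Adj T x z) :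
    Disc (T ∪ tri y x z) ∧ IsBd (T ∪ tri y x z) (x :: z :: m) ∧ verts (T ∪ tri y x z) = verts T ∧
      (∀ a b, Adj (T ∪ tri y x z) a b ↔ Adj T a b ∨ (a = x ∧ b = z) ∨ (a = z ∧ b = x)) := by
  have hT := hD.cx
  have nd := hl.nodup
  have nxy : x ≠ y := by
    intro h; simp [h] at nd
  have nxz : x ≠ z := by
    intro h; simp [h] at nd
  have nyz : y ≠ z := by
    intro h; simp [h] at nd
  obtain ⟨d1, d1'⟩ := bd_cyc hl ((cyc3 x y z m x y).2 (Or.inl ⟨rfl, rfl⟩))
  obtain ⟨d2, d2'⟩ := bd_cyc hl ((cyc3 x y z m y z).2 (Or.inr (Or.inl ⟨rfl, rfl⟩)))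
  have nz : ¬ Dir T x z := fun h => hxz (Or.inl h)
  have nz' : ¬ Dir T z x := fun h => hxz (Or.inr h)
  have vx : x ∈ verts T := (dir_verts hT d1).1
  have vy : y ∈ verts T := (dir_verts hT d1).2
  have vz : z ∈ verts T := (dir_verts hT d2).2
  have hcx : IsCx (T ∪ tri y x z) := cx_add hT nxy.symm nxz nyz.symm d1' nz d2'
  have hdj := tri_disj hT (c := z) d1'
  have hconn : Conn (T ∪ tri y x z) :=
    conn_add hD.conn (conn_tri y x z) d1 (dir_tri.2 (Or.inl ⟨rfl, rfl⟩))
  have hadj : ∀ a b, Adj (T ∪ tri y x z) a b ↔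
      Adj T a b ∨ (a = x ∧ b = z) ∨ (a = z ∧ b = x) := by
    intro a b
    rw [adj_add]
    constructor
    · rintro (h | ⟨rfl, rfl⟩ | h | ⟨rfl, rfl⟩ | ⟨rfl, rfl⟩ | ⟨rfl, rfl⟩ | ⟨rfl, rfl⟩)
      · exact Or.inl h
      · exact Or.inl (Or.inr d1)
      · exact Or.inr (Or.inl h)
      · exact Or.inl (Or.inr d2)
      · exact Or.inl (Or.inl d1)
      · exact Or.inr (Or.inr ⟨rfl, rfl⟩)
      · exact Or.inl (Or.inl d2)
    · tauto
  have hbd : IsBd (T ∪ tri y x z) (x :: z :: m) := by
    refine ⟨?_, ?_, ?_⟩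
    · simp only [List.nodup_cons, List.mem_cons, not_or] at nd ⊢
      exact ⟨⟨nd.1.2.1, nd.1.2.2⟩, nd.2.2⟩
    · cases m with
      | nil => exact absurd rfl hm
      | cons a m => simp
    · intro a b
      rw [bd_dir, dir_union, dir_union, dir_tri, dir_tri, cyc2]
      have hl' := hl.iff a b
      rw [bd_dir, cyc3] at hl'
      -- `Nx (z :: m ++ [x]) a b` excludes the new edges
      have k1 : Nx (z :: (m ++ [x])) a b → Dir T a b ∧ ¬ Dir T b a := fun h =>
        hl'.2 (Or.inr (Or.inr h))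
      constructor
      · rintro ⟨h1, h2⟩
        rcases h1 with h1 | ⟨rfl, rfl⟩ | ⟨rfl, rfl⟩ | ⟨rfl, rfl⟩
        · have h3 : ¬ Dir T b a := fun h => h2 (Or.inl h)
          rcases hl'.1 ⟨h1, h3⟩ with ⟨rfl, rfl⟩ | ⟨rfl, rfl⟩ | h4
          · exact absurd (Or.inr (Or.inl ⟨rfl, rfl⟩)) h2
          · exact absurd (Or.inr (Or.inr (Or.inr ⟨rfl, rfl⟩))) h2
          · exact Or.inr h4
        · exact absurd (Or.inl d1) h2
        · exact Or.inl ⟨rfl, rfl⟩
        · exact absurd (Or.inl d2) h2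
      · rintro (⟨rfl, rfl⟩ | h)
        · refine ⟨Or.inr (Or.inr (Or.inl ⟨rfl, rfl⟩)), ?_⟩
          rintro (h | ⟨h1, h2⟩ | ⟨h1, h2⟩ | ⟨h1, h2⟩)
          · exact nz' h
          · exact nyz h1.symm
          · exact nxz h1.symm
          · exact nxy h2
        · obtain ⟨k2, k3⟩ := k1 h
          refine ⟨Or.inl k2, ?_⟩
          rintro (h' | ⟨rfl, rfl⟩ | ⟨rfl, rfl⟩ | ⟨rfl, rfl⟩)
          · exact k3 h'
          · -- `Nx (z :: m ++ [x]) x y`: `y` is not in the list
            have h5 := (nx_mem h).2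
            simp only [List.mem_cons, List.mem_append, List.not_mem_nil, or_false] at h5
            simp only [List.nodup_cons, List.mem_cons, not_or] at nd
            rcases h5 with h5 | h5 | h5
            · exact nyz h5
            · exact nd.2.1.2 h5
            · exact nxy h5.symm
          · exact nz' k2
          · have h5 := (nx_mem h).1
            simp only [List.mem_cons, List.mem_append, List.not_mem_nil, or_false] at h5
            simp only [List.nodup_cons, List.mem_cons, not_or] at nd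
            rcases h5 with h5 | h5 | h5
            · exact nyz h5
            · exact nd.2.1.2 h5
            · exact nxy h5.symm
  refine ⟨⟨hcx, hconn, ⟨x, z, (hbd.iff x z).2 ((cyc2 x z m x z).2 (Or.inl ⟨rfl, rfl⟩))⟩, ?_⟩, hbd,
    verts_add hT vy vx vz, hadj⟩
  have e1 := vinter hT nxy.symm nxz nyz.symm vy vx vz
  have e2 : (edges T ∩ edges (tri y x z)).card = 2 := by
    have e3 : edges T ∩ edges (tri y x z) = {s(y, x), s(z, y)} := by
      rw [edges_tri]
      ext e
      simp only [Finset.mem_inter, Finset.mem_insert, Finset.mem_singleton]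
      constructor
      · rintro ⟨h1, h2 | h2 | h2⟩
        · exact Or.inl h2
        · subst h2
          exact absurd (edge_iff.1 h1) hxz
        · exact Or.inr h2
      · rintro (rfl | rfl)
        · exact ⟨edge_iff.2 (Or.inr d1), Or.inl rfl⟩
        · exact ⟨edge_iff.2 (Or.inr d2), Or.inr (Or.inr rfl)⟩
    rw [e3, Finset.card_insert_of_notMem, Finset.card_singleton]
    simp only [Finset.mem_singleton, Sym2.eq_iff, not_or, not_and]
    exact ⟨fun h => absurd h nyz, fun _ h => nxz h⟩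
  rw [chi_union _ _ hdj, hD.chi, chi_tri nxy.symm nxz nyz.symm, e1, e2]
  norm_num

theorem close_add (hD : Disc T) {x y z : V} (hl : IsBd T [x, y, z]) :
    Sph (T ∪ tri y x z) ∧ verts (T ∪ tri y x z) = verts T ∧
      (∀ a b, Adj (T ∪ tri y x z) a b ↔ Adj T a b) := by
  have hT := hD.cx
  have nd := hl.nodup
  have nxy : x ≠ y := by
    intro h; simp [h] at nd
  have nxz : x ≠ z := by
    intro h; simp [h] at nd
  have nyz : y ≠ z := by
    intro h; simp [h] at nd
  have cc : ∀ a b, Cyc [x, y, z] a b ↔ (a = x ∧ b = y) ∨ (a = y ∧ b = z) ∨ (a = z ∧ b = x) := by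
    intro a b
    rw [cyc3]
    simp only [List.nil_append, nx_two]
  obtain ⟨d1, d1'⟩ := bd_cyc hl ((cc x y).2 (Or.inl ⟨rfl, rfl⟩))
  obtain ⟨d2, d2'⟩ := bd_cyc hl ((cc y z).2 (Or.inr (Or.inl ⟨rfl, rfl⟩)))
  obtain ⟨d3, d3'⟩ := bd_cyc hl ((cc z x).2 (Or.inr (Or.inr ⟨rfl, rfl⟩)))
  have vx : x ∈ verts T := (dir_verts hT d1).1
  have vy : y ∈ verts T := (dir_verts hT d1).2
  have vz : z ∈ verts T := (dir_verts hT d2).2
  have hcx : IsCx (T ∪ tri y x z) := cx_add hT nxy.symm nxz nyz.symm d1' d3' d2'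
  have hdj := tri_disj hT (c := z) d1'
  have hconn : Conn (T ∪ tri y x z) :=
    conn_add hD.conn (conn_tri y x z) d1 (dir_tri.2 (Or.inl ⟨rfl, rfl⟩))
  have hadj : ∀ a b, Adj (T ∪ tri y x z) a b ↔ Adj T a b := by
    intro a b
    rw [adj_add]
    constructor
    · rintro (h | ⟨rfl, rfl⟩ | ⟨rfl, rfl⟩ | ⟨rfl, rfl⟩ | ⟨rfl, rfl⟩ | ⟨rfl, rfl⟩ | ⟨rfl, rfl⟩)
      · exact h
      · exact Or.inr d1
      · exact Or.inr d3
      · exact Or.inr d2
      · exact Or.inl d1
      · exact Or.inl d3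
      · exact Or.inl d2
    · tauto
  refine ⟨⟨hcx, hconn, ?_, ?_⟩, verts_add hT vy vx vz, hadj⟩
  · intro a b c h
    show Dir (T ∪ tri y x z) b a
    have h' : Dir (T ∪ tri y x z) a b := ⟨c, h⟩
    rw [dir_union, dir_tri] at h' ⊢
    rcases h' with h' | ⟨rfl, rfl⟩ | ⟨rfl, rfl⟩ | ⟨rfl, rfl⟩
    · by_cases hb : Dir T b a
      · exact Or.inl hb
      · have := (hl.iff a b).1 (bd_dir.2 ⟨h', hb⟩)
        rcases (cc a b).1 this with ⟨rfl, rfl⟩ | ⟨rfl, rfl⟩ | ⟨rfl, rfl⟩
        · exact Or.inr (Or.inl ⟨rfl, rfl⟩)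
        · exact Or.inr (Or.inr (Or.inr ⟨rfl, rfl⟩))
        · exact Or.inr (Or.inr (Or.inl ⟨rfl, rfl⟩))
    · exact Or.inl d1
    · exact Or.inl d3
    · exact Or.inl d2
  · have e1 := vinter hT nxy.symm nxz nyz.symm vy vx vz
    have e2 : (edges T ∩ edges (tri y x z)).card = 3 := by
      have e3 : edges T ∩ edges (tri y x z) = edges (tri y x z) := by
        rw [edges_tri]
        apply Finset.inter_eq_right.2
        intro e he
        simp only [Finset.mem_insert, Finset.mem_singleton] at he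
        rcases he with rfl | rfl | rfl
        · exact edge_iff.2 (Or.inr d1)
        · exact edge_iff.2 (Or.inr d3)
        · exact edge_iff.2 (Or.inr d2)
      rw [e3, edges_tri, Finset.card_insert_of_notMem, Finset.card_insert_of_notMem,
        Finset.card_singleton]
      · simp only [Finset.mem_singleton, Sym2.eq_iff, not_or, not_and]
        exact ⟨fun h => absurd h nxz, fun h => absurd h nxy⟩
      · simp only [Finset.mem_insert, Finset.mem_singleton, Sym2.eq_iff, not_or, not_and]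
        exact ⟨⟨fun h => absurd h nxy.symm, fun h => absurd h nyz⟩,
          ⟨fun h => absurd h nyz, fun _ h => absurd h nxz⟩⟩
    rw [chi_union _ _ hdj, hD.chi, chi_tri nxy.symm nxz nyz.symm, e1, e2]
    norm_num

end Pool.Agent.H13.G4
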