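import Pool.Agent.H13.G4.FanT
import Pool.Agent.H72.G4.Jordan

/-!
# A link vertex without chords [row T8] and no fakes in a minimal counterexample [row M3]
-/

set_option autoImplicit false

namespace Pool.Agent.H13.G4

open Relation Pool.Agent.H13.DA Pool.Agent.H72.G4

variable {V : Type*} [DecidableEq V] {T : Finset (V × V × V)}

theorem cyc_tri (x y z a b : V) :
    Cyc [x, y, z] a b ↔ (a = x ∧ b = y) ∨ (a = y ∧ b = z) ∨ (a = z ∧ b = x) := by
  rw [cyc3]
  simp only [List.nil_append, nx_two]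

/-- a vertex of `X` which is not a vertex of the rest: its adjacencies are in `X` -/
theorem adj_in {X : Finset (V × V × V)} (hT : IsCx T) (cX : IsCx X) (hX : X ⊆ T) {k q : V}
    (hk : k ∉ verts (T \ X)) (h : Adj T k q) : Adj X k q := by
  rcases (adj_split hX k q).1 h with k1 | k1
  · exact absurd (adj_vert (sdiff_isCx hT cX) k1).1 hk
  · exact k1

theorem tri_in {X : Finset (V × V × V)} {k q r : V}
    (hk : k ∉ verts (T \ X)) (h : (k, q, r) ∈ T) : (k, q, r) ∈ X := by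
  by_contra hc
  exact hk (vert1 (Finset.mem_sdiff.2 ⟨h, hc⟩))

theorem free_aux {v : V} (hD : Disc T)
    (hc : ∀ g, Adj T v g → ∃ q, Adj T v q ∧ Adj T g q ∧ (v, g, q) ∉ T ∧ (v, q, g) ∉ T) (n : ℕ) :
    ∀ X : Finset (V × V × V), X.card ≤ n → X ⊆ T → Disc X → ∀ g h, IsBd X [v, g, h] →
      (∀ x, x ∈ verts X → x ∈ verts (T \ X) → x ∈ [v, g, h]) → (v, g, h) ∉ T → False := by
  induction n with
  | zero =>
    intro X hn _ hDX
    obtain ⟨a, b, ⟨c, hc⟩, _⟩ := hDX.bd
    have : X.card ≠ 0 := Finset.card_ne_zero_of_mem hc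
    omega
  | succ n ih =>
    intro X hn hX hDX g h hb hV hf
    have hT := hD.cx
    have cX := hDX.cx
    obtain ⟨⟨k, hk⟩, hgv⟩ := bd_cyc hb (a := v) (b := g) ((cyc_tri _ _ _ _ _).2 (Or.inl ⟨rfl, rfl⟩))
    obtain ⟨d1, d1'⟩ := bd_cyc hb (a := h) (b := v)
      ((cyc_tri _ _ _ _ _).2 (Or.inr (Or.inr ⟨rfl, rfl⟩)))
    obtain ⟨n1, n2, n3⟩ := cx_ne cX hk
    have hkh : k ≠ h := fun e => hf (e ▸ hX hk)
    have kZ : k ∉ [v, g, h] := by
      simp only [List.mem_cons, List.not_mem_nil, or_false, not_or]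
      exact ⟨n3, n2.symm, hkh⟩
    have kX : k ∈ verts X := vert3 cX hk
    have kr : k ∉ verts (T \ X) := fun e => kZ (hV k kX e)
    have avk : Adj T v k := Or.inr ⟨g, (rot3 hT (hX hk)).2⟩
    obtain ⟨q, q1, q2, q3, q4⟩ := hc k avk
    have akq : Adj X k q := adj_in hT cX hX kr q2
    have qX : q ∈ verts X := (adj_vert cX akq).2.1
    have qg : q ≠ g := by
      rintro rfl
      exact q4 (hX hk)
    have qv : q ≠ v := (adj_vert hT q1).2.2.symm
    have avq : Adj X v q := by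
      by_cases e : q = h
      · subst e
        exact Or.inr d1
      · have qr : q ∉ verts (T \ X) := by
          intro e'
          have := hV q qX e'
          simp only [List.mem_cons, List.not_mem_nil, or_false] at this
          tauto
        exact (adj_in hT cX hX qr q1.symm).symm
    have avk' : Adj X v k := Or.inr ⟨g, (rot3 cX hk).2⟩
    have nd : [v, k, q].Nodup := by
      simp only [List.nodup_cons, List.mem_cons, List.not_mem_nil, or_false, not_or,
        not_false_eq_true, List.nodup_nil, and_true]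
      exact ⟨⟨n3.symm, qv.symm⟩, (adj_vert hT q2).2.2⟩
    obtain ⟨X', x1, x2, x3, x4⟩ := jordan hDX (Z := [v, k, q]) nd (by simp) (by
      intro x y hxy
      rcases (cyc_tri _ _ _ _ _).1 hxy with ⟨rfl, rfl⟩ | ⟨rfl, rfl⟩ | ⟨rfl, rfl⟩
      · exact avk'
      · exact akq
      · exact avq.symm)
    have hr : [v, k, q].reverse ~r [v, q, k] := by
      have : [v, k, q].reverse = [q, k, v] := rfl
      rw [this]
      exact ⟨2, by simp⟩
    have x3' : ∃ g' h', IsBd X' [v, g', h'] ∧ (v, g', h') ∉ T ∧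
        ∀ x, x ∈ [v, g', h'] ↔ x ∈ [v, k, q] := by
      rcases x3 with x3 | x3
      · exact ⟨k, q, x3, q3, fun x => Iff.rfl⟩
      · refine ⟨q, k, x3.rot hr, q4, fun x => ?_⟩
        simp only [List.mem_cons, List.not_mem_nil, or_false]
        tauto
    obtain ⟨g', h', y1, y2, y3⟩ := x3'
    have x4' : ∀ x, x ∈ verts X' → x ∈ verts (X \ X') → x ∈ [v, g', h'] := fun x e1 e2 =>
      (y3 x).2 (x4 x e1 e2)
    have kZ' : k ∈ [v, g', h'] := (y3 k).2 (by simp)
    -- the smaller disc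
    have hlt : X'.card < X.card := by
      apply Finset.card_lt_card
      refine Finset.ssubset_iff_subset_ne.2 ⟨x1, ?_⟩
      rintro rfl
      have := hb.unique y1
      exact kZ (this.mem_iff.2 kZ')
    refine ih X' (by omega) (x1.trans hX) x2 g' h' y1 ?_ y2
    intro x e1 e2
    by_contra hxZ
    have xr : x ∉ verts (X \ X') := fun e => hxZ (x4' x e1 e)
    obtain ⟨b, c, hbc⟩ := mem_verts.1 e2
    obtain ⟨m1, m2⟩ := Finset.mem_sdiff.1 hbc
    -- `x` is a vertex of `T \ X`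
    have xTX : x ∈ verts (T \ X) := by
      refine vert1 (Finset.mem_sdiff.2 ⟨m1, fun m3 => ?_⟩)
      exact m2 (tri_in xr m3)
    have xZ := hV x (verts_mono x1 e1) xTX
    simp only [List.mem_cons, List.not_mem_nil, or_false] at xZ
    rcases xZ with rfl | rfl | rfl
    · exact hxZ (by simp)
    · -- `x = g`
      have t1 : (v, x, k) ∈ X' := by
        have : (x, k, v) ∈ X' := tri_in xr (cX.rot hk)
        exact x2.cx.rot (x2.cx.rot this)
      have t2 : Bd X' v x := bd_dir.2 ⟨⟨k, t1⟩, fun ⟨c, hc⟩ => hgv ⟨c, x1 hc⟩⟩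
      exact hxZ (cyc_mem ((y1.iff v x).1 t2)).2
    · -- `x = h`
      obtain ⟨c, hc⟩ := d1
      have t1 : (x, v, c) ∈ X' := tri_in xr hc
      have t2 : Bd X' x v := bd_dir.2 ⟨⟨c, t1⟩, fun ⟨c, hc⟩ => d1' ⟨c, x1 hc⟩⟩
      exact hxZ (cyc_mem ((y1.iff x v).1 t2)).1

/-- **T8**: some neighbour of `v` has no chord to another neighbour -/
theorem free_nbr (hD : Disc T) {v : V} (hv : v ∈ verts T) :
    ∃ g, Adj T v g ∧ ∀ q, Adj T v q → Adj T g q → (v, g, q) ∈ T ∨ (v, q, g) ∈ T := by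
  by_contra hcon
  push Not at hcon
  have hT := hD.cx
  have hc : ∀ g, Adj T v g → ∃ q, Adj T v q ∧ Adj T g q ∧ (v, g, q) ∉ T ∧ (v, q, g) ∉ T := by
    intro g hg
    obtain ⟨q, h1, h2, h3, h4⟩ := hcon g hg
    exact ⟨q, h1, h2, h3, h4⟩
  obtain ⟨g, hg⟩ := (verts_adj hT).1 hv
  obtain ⟨h, h1, h2, h3, h4⟩ := hc g hg
  have nd : [v, g, h].Nodup := by
    simp only [List.nodup_cons, List.mem_cons, List.not_mem_nil, or_false, not_or,
      not_false_eq_true, List.nodup_nil, and_true]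
    exact ⟨⟨(adj_vert hT hg).2.2, (adj_vert hT h1).2.2⟩, (adj_vert hT h2).2.2⟩
  obtain ⟨X, x1, x2, x3, x4⟩ := jordan hD (Z := [v, g, h]) nd (by simp) (by
    intro x y hxy
    rcases (cyc_tri _ _ _ _ _).1 hxy with ⟨rfl, rfl⟩ | ⟨rfl, rfl⟩ | ⟨rfl, rfl⟩
    · exact hg
    · exact h2
    · exact h1.symm)
  have hr : [v, g, h].reverse ~r [v, h, g] := by
    have : [v, g, h].reverse = [h, g, v] := rfl
    rw [this]
    exact ⟨2, by simp⟩
  rcases x3 with x3 | x3
  · exact free_aux hD hc X.card X le_rfl x1 x2 g h x3 x4 h3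
  · refine free_aux hD hc X.card X le_rfl x1 x2 h g (x3.rot hr) ?_ h4
    intro x e1 e2
    have := x4 x e1 e2
    simp only [List.mem_cons, List.not_mem_nil, or_false] at this ⊢
    tauto

/-- **M3**: a minimal counterexample has no fake vertices -/
theorem no_fake [Infinite V] {D : V → V → Prop} {a b c : V} (h : MC T D a b c) {f : V}
    (hf : f ∈ verts T) : Re D f := by
  by_contra hre
  have hD := h.pl.disc
  have hT := hD.cx
  have hfl : f ∉ [a, b, c] := by
    intro hm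
    obtain ⟨o1, o2, o3⟩ := h.out
    simp only [List.mem_cons, List.not_mem_nil, or_false] at hm
    rcases hm with rfl | rfl | rfl
    · exact hre ⟨_, o1⟩
    · exact hre ⟨_, o2⟩
    · exact hre ⟨_, o3⟩
  obtain ⟨g, hg, hc⟩ := free_nbr hD hf
  obtain ⟨T', t1, t2, t3, t4, _, t6⟩ := fan_disc hD h.pl.bd hfl hg hc
  refine h.bad (h.min3 T' D a b c ⟨t1, t2 _ h.pl.bd, ?_, h.pl.asymm, h.pl.tri⟩ h.out le_rfl
    le_rfl (by omega))
  intro x y hxy
  rw [t4]
  refine ⟨?_, ?_, Or.inl (h.pl.adj x y hxy)⟩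
  · rintro rfl
    exact hre ⟨y, Or.inl hxy⟩
  · rintro rfl
    exact hre ⟨x, Or.inr hxy⟩

end Pool.Agent.H13.G4
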