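import Pool.Agent.H13.G4.Count

/-!
# Operations on spheres: fan filling, contraction of an edge

* `fan`: a disc with boundary `u, a, l` is completed to a sphere by the fan from `u`.
* `star_at`: the link of `v` as a cyclic list starting at a given neighbour `u`.
* `contract`: contraction of the edge `vu` into `u` (remove `v`, fan from `u`).
-/

set_option autoImplicit false

namespace Pool.Agent.H13.G4

open Relation Pool.Agent.H13.DA Pool.Agent.H72.G4

variable {V : Type*} [DecidableEq V] {T : Finset (V × V × V)}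

theorem fan (l : List V) : ∀ (T : Finset (V × V × V)) (u a : V), Disc T → IsBd T (u :: a :: l) →
    (∀ z ∈ l.dropLast, ¬ Adj T u z) →
    ∃ T'' : Finset (V × V × V), Sph T'' ∧ T ⊆ T'' ∧ verts T'' = verts T ∧
      ∀ p q, Adj T'' p q ↔ Adj T p q ∨ (p = u ∧ q ∈ l) ∨ (q = u ∧ p ∈ l) := by
  induction l with
  | nil =>
    intro T u a _ hl _
    have := hl.len
    simp at this
  | cons z m ih =>
    intro T u a hD hl h
    cases m with
    | nil =>
      obtain ⟨h1, h2, h3⟩ := close_add hD hl
      refine ⟨_, h1, Finset.subset_union_left, h2, ?_⟩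
      intro p q
      rw [h3]
      have hb : Cyc [u, a, z] z u := by
        rw [cyc3]
        right; right
        exact Or.inl ⟨rfl, rfl⟩
      obtain ⟨k1, _⟩ := bd_cyc hl hb
      simp only [List.mem_singleton]
      constructor
      · exact Or.inl
      · rintro (k | ⟨rfl, rfl⟩ | ⟨rfl, rfl⟩)
        · exact k
        · exact Or.inr k1
        · exact Or.inl k1
    | cons z' m =>
      have hz : ¬ Adj T u z := h z (by simp)
      obtain ⟨h1, h2, h3, h4⟩ := ear_add hD hl (by simp) hz
      have nd := hl.nodup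
      simp only [List.nodup_cons, List.mem_cons, not_or] at nd
      obtain ⟨T'', k1, k2, k3, k4⟩ := ih (T ∪ tri a u z) u z h1 h2 (by
        intro y hy
        rw [h4]
        rintro (k | ⟨_, rfl⟩ | ⟨rfl, _⟩)
        · refine h y ?_ k
          rw [List.dropLast_cons_of_ne_nil (by simp)]
          exact List.mem_cons_of_mem _ hy
        · have hy' := List.dropLast_subset _ hy
          simp only [List.mem_cons] at hy'
          rcases hy' with hy' | hy'
          · exact nd.2.2.1.1 hy'
          · exact nd.2.2.1.2 hy'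
        · exact nd.1.2.1 rfl)
      refine ⟨T'', k1, Finset.subset_union_left.trans k2, k3.trans h3, ?_⟩
      intro p q
      rw [k4, h4]
      simp only [List.mem_cons]
      tauto

/-- the link of `v`, starting at the neighbour `u` -/
theorem star_at (hS : Sph T) {v u : V} (h : Adj T v u) (h4 : 4 ≤ (verts T).card) :
    ∃ (T' : Finset (V × V × V)) (L : List V), Disc T' ∧ IsBd T' (u :: L) ∧ T' ⊆ T ∧
      v ∉ verts T' ∧
      (∀ x, Adj T v x ↔ x ∈ u :: L) ∧
      (∀ x y, x ≠ v → y ≠ v → (Adj T x y ↔ Adj T' x y)) ∧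
      (∀ x y, (v, y, x) ∈ T ↔ Cyc (u :: L) x y) ∧
      (∀ x y z, (x, y, z) ∈ T → x ≠ v → y ≠ v → z ≠ v → (x, y, z) ∈ T') ∧
      verts T = insert v (verts T') := by
  have hex : ∃ b, (v, u, b) ∈ T := by
    rcases h with h | ⟨c, h⟩
    · exact h
    · exact hS.clos _ _ _ h
  obtain ⟨b, hb⟩ := hex
  obtain ⟨T', P, a1, a2, a3, a4, a5, a6, a7, a8⟩ := star hS hb h4
  have hu : u ∈ P ++ [b, u] := by simp
  obtain ⟨L, hL⟩ := rot_head hu
  have a2' := a2.rot hL
  have mem : ∀ x, x ∈ P ++ [b, u] ↔ x ∈ u :: L := fun x => hL.mem_iff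
  have hT' := a1.cx
  refine ⟨T', L, a1, a2', a3, a4, ?_, ?_, ?_, a7, a8⟩
  · intro x
    rw [a5, ← mem]
    constructor
    · rintro (k | ⟨_, k⟩ | ⟨k1, k⟩)
      · exact absurd (adj_vert hT' k).1 a4
      · exact k
      · exact absurd (a2.verts hT' k) a4
    · intro k
      exact Or.inr (Or.inl ⟨rfl, k⟩)
  · intro x y hx hy
    rw [a5]
    constructor
    · rintro (k | ⟨k, _⟩ | ⟨k, _⟩)
      · exact k
      · exact absurd k hx
      · exact absurd k hy
    · exact Or.inl
  · intro x y
    rw [a6, cyc_rot hL]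

/-- contraction of `v` into its neighbour `u` -/
theorem contract (hS : Sph T) (h4 : 4 ≤ (verts T).card) {v u : V} (h : Adj T v u)
    (hc : ∀ q, Adj T v q → Adj T u q → (v, u, q) ∈ T ∨ (v, q, u) ∈ T) :
    ∃ T'' : Finset (V × V × V), Sph T'' ∧ verts T'' = (verts T).erase v ∧
      (∀ p q, Adj T'' p q ↔ p ≠ v ∧ q ≠ v ∧
        (Adj T p q ∨ (p = u ∧ q ≠ u ∧ Adj T v q) ∨ (q = u ∧ p ≠ u ∧ Adj T v p))) ∧
      (∀ x y z, (x, y, z) ∈ T → x ≠ v → y ≠ v → z ≠ v → (x, y, z) ∈ T'') := by
  obtain ⟨T', L, a1, a2, a3, a4, a5, a6, a7, a8, a9⟩ := star_at hS h h4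
  have hT' := a1.cx
  have nd := a2.nodup
  have huv : v ≠ u := (adj_vert hS.cx h).2.2
  -- the list starts `u, a, l`
  cases L with
  | nil =>
    have := a2.len
    simp at this
  | cons a l =>
    have hvnot : ∀ {x}, x ∈ u :: a :: l → x ≠ v := fun hx e => a4 (e ▸ a2.verts hT' hx)
    obtain ⟨T'', k1, k2, k3, k4⟩ := fan l T' u a a1 a2 (by
      intro z hz hadj
      have hzl : z ∈ l := List.dropLast_subset _ hz
      have hzL : z ∈ u :: a :: l := by simp [hzl]
      have h1 : Adj T v z := (a5 z).2 hzL
      have h2 : Adj T u z := (a6 u z huv.symm (hvnot hzL)).2 hadj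
      simp only [List.nodup_cons, List.mem_cons, not_or] at nd
      rcases hc z h1 h2 with k | k
      · -- `(v, u, z) ∈ T`: `u` follows `z`
        have c := (a7 z u).1 k
        -- `z` is the last element
        obtain ⟨l', y, rfl⟩ : ∃ l' y, l = l' ++ [y] := by
          rcases List.eq_nil_or_concat l with rfl | ⟨l', y, rfl⟩
          · simp at hzl
          · exact ⟨l', y, by simp⟩
        have c' : Cyc (u :: a :: (l' ++ [y])) y u := by
          have := cyc_last u y (a :: l')
          simpa using this
        have e : z = y := cyc_unique' a2.nodup c c'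
        subst e
        have hz' : z ∈ l' := by simpa using hz
        have nd2 := nd.2.2
        rw [List.nodup_append] at nd2
        exact nd2.2.2 z hz' z (by simp) rfl
      · -- `(v, z, u) ∈ T`: `z` follows `u`, so `z = a`
        have c := (a7 u z).1 k
        have c' : Cyc (u :: a :: l) u a := (cyc_unique_head u a l)
        have e : z = a := cyc_unique a2.nodup c c'
        subst e
        exact nd.2.1 hzl)
    refine ⟨T'', k1, ?_, ?_, ?_⟩
    · rw [k3]
      ext x
      rw [Finset.mem_erase, a9, Finset.mem_insert]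
      constructor
      · intro hx
        exact ⟨fun e => a4 (e ▸ hx), Or.inr hx⟩
      · rintro ⟨h1, h2 | h2⟩
        · exact absurd h2 h1
        · exact h2
    · intro p q
      rw [k4]
      have hua : Adj T' u a := by
        obtain ⟨k, _⟩ := bd_cyc a2 (cyc_unique_head u a l)
        exact Or.inl k
      constructor
      · rintro (k | ⟨rfl, k⟩ | ⟨rfl, k⟩)
        · have := adj_vert hT' k
          have e1 : p ≠ v := fun e => a4 (e ▸ this.1)
          have e2 : q ≠ v := fun e => a4 (e ▸ this.2.1)
          exact ⟨e1, e2, Or.inl ((a6 p q e1 e2).2 k)⟩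
        · have hq : q ∈ p :: a :: l := by simp [k]
          refine ⟨huv.symm, hvnot hq, Or.inr (Or.inl ⟨rfl, ?_, (a5 q).2 hq⟩)⟩
          rintro rfl
          simp only [List.nodup_cons, List.mem_cons, not_or] at nd
          exact nd.1.2 k
        · have hp : p ∈ q :: a :: l := by simp [k]
          refine ⟨hvnot hp, huv.symm, Or.inr (Or.inr ⟨rfl, ?_, (a5 p).2 hp⟩)⟩
          rintro rfl
          simp only [List.nodup_cons, List.mem_cons, not_or] at nd
          exact nd.1.2 k
      · rintro ⟨hp, hq, k | ⟨rfl, hqu, k⟩ | ⟨rfl, hpu, k⟩⟩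
        · exact Or.inl ((a6 p q hp hq).1 k)
        · have := (a5 q).1 k
          simp only [List.mem_cons] at this
          rcases this with e | e | e
          · exact absurd e hqu
          · subst e
            exact Or.inl hua
          · exact Or.inr (Or.inl ⟨rfl, e⟩)
        · have := (a5 p).1 k
          simp only [List.mem_cons] at this
          rcases this with e | e | e
          · exact absurd e hpu
          · subst e
            exact Or.inl hua.symm
          · exact Or.inr (Or.inr ⟨rfl, e⟩)
    · intro x y z h1 h2 h3 h5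
      exact k2 (a8 x y z h1 h2 h3 h5)
where
  cyc_unique_head (u a : V) (l : List V) : Cyc (u :: a :: l) u a := Or.inl ⟨rfl, rfl⟩

end Pool.Agent.H13.G4
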