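import Pool.Agent.H13.G4.Fill

/-!
# Removing the star of a vertex of a sphere

`star`: for a vertex `v` of a sphere `T` with at least four vertices, `T` without the star of `v` is a
disc `T'` whose boundary `L` is the link of `v`; `(v, y, x) ∈ T` iff `y` follows `x` on `L`.
-/

set_option autoImplicit false

namespace Pool.Agent.H13.G4

open Relation Pool.Agent.H13.DA Pool.Agent.H72.G4

variable {V : Type*} [DecidableEq V] {T : Finset (V × V × V)}

omit [DecidableEq V] in
theorem sub_eq (hT : IsCx T) (hc : Conn T) {X : Finset (V × V × V)} (hX : X ⊆ T) (cX : IsCx X)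
    (clX : Clos X) (ne : X.Nonempty) : X = T := by
  obtain ⟨s, hs⟩ := ne
  apply Finset.Subset.antisymm hX
  intro t ht
  have key : ∀ t, ReflTransGen (Step T) s t → t ∈ X := by
    intro t hr
    induction hr with
    | refl => exact hs
    | tail _ h ih =>
      cases h with
      | rot _ => exact cX.rot ih
      | flip h1 h2 =>
        obtain ⟨d, hd⟩ := clX _ _ _ ih
        rw [hT.uniq h2 (hX hd)]
        exact hd
  exact key t (hc s (hX hs) t ht)

/-- a closed three-cycle in a cyclic list without repetition is the whole list -/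
theorem cyc_three {l : List V} (hl : l.Nodup) {x y w : V} (h1 : Cyc l x y)
    (h2 : Cyc l y w) (h3 : Cyc l w x) (n1 : x ≠ y) (n2 : y ≠ w) (n3 : w ≠ x) : l ~r [x, y, w] := by
  obtain ⟨m, hm⟩ := rot_head (cyc_mem h1).1
  have hn := hm.nodup_iff.1 hl
  have k1 := (cyc_rot hm _ _).1 h1
  have k2 := (cyc_rot hm _ _).1 h2
  have k3 := (cyc_rot hm _ _).1 h3
  cases m with
  | nil =>
    rcases k1 with ⟨_, h⟩ | h
    · exact absurd h.symm n1
    · exact h.elim
  | cons y' m =>
    have e1 : y' = y := cyc_unique hn (Or.inl ⟨rfl, rfl⟩) k1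
    subst e1
    cases m with
    | nil =>
      have e2 : x = w := cyc_unique hn (a := y') (Or.inr (Or.inl ⟨rfl, rfl⟩)) k2
      exact absurd e2.symm n3
    | cons w' m =>
      have e2 : w' = w := cyc_unique hn (a := y') (Or.inr (Or.inl ⟨rfl, rfl⟩)) k2
      subst e2
      cases m with
      | nil => exact hm
      | cons z m =>
        have e3 : z = x := cyc_unique hn (a := w') (Or.inr (Or.inr (Or.inl ⟨rfl, rfl⟩))) k3
        subst e3
        simp at hn

theorem star (hS : Sph T) {v a b : V} (h : (v, a, b) ∈ T) (h4 : 4 ≤ (verts T).card) :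
    ∃ (T' : Finset (V × V × V)) (P : List V), Disc T' ∧ IsBd T' (P ++ [b, a]) ∧ T' ⊆ T ∧
      v ∉ verts T' ∧
      (∀ x y, Adj T x y ↔ Adj T' x y ∨ (x = v ∧ y ∈ P ++ [b, a]) ∨ (y = v ∧ x ∈ P ++ [b, a])) ∧
      (∀ x y, (v, y, x) ∈ T ↔ Cyc (P ++ [b, a]) x y) ∧
      (∀ x y z, (x, y, z) ∈ T → x ≠ v → y ≠ v → z ≠ v → (x, y, z) ∈ T') ∧
      verts T = insert v (verts T') := by
  have hT := hS.cx
  obtain ⟨n1, n2, n3⟩ := cx_ne hT h
  obtain ⟨h', h''⟩ := rot3 hT h
  have hD1 := clos_del hT hS.conn hS.clos hS.chi h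
  -- the boundary of `T` minus one triangle
  have hbd1 : IsBd (T \ tri v a b) [v, b, a] := by
    refine ⟨?_, by simp, ?_⟩
    · simp only [List.nodup_cons, List.mem_cons, List.not_mem_nil, or_false, not_or,
        not_false_eq_true, List.nodup_nil, and_true]
      exact ⟨⟨n3.symm, n1⟩, n2.symm⟩
    · intro x y
      rw [bd_dir]
      have cc : Cyc [v, b, a] x y ↔ (x = v ∧ y = b) ∨ (x = b ∧ y = a) ∨ (x = a ∧ y = v) := by
        rw [cyc3]
        simp only [List.nil_append, nx_two]
      rw [cc]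
      constructor
      · rintro ⟨⟨z, hz⟩, k⟩
        obtain ⟨hz1, hz2⟩ := Finset.mem_sdiff.1 hz
        obtain ⟨d, hd⟩ := hS.clos _ _ _ hz1
        by_cases hm : (y, x, d) ∈ tri v a b
        · rw [mem_tri] at hm
          simp only [Prod.mk.injEq] at hm
          tauto
        · exact absurd ⟨d, Finset.mem_sdiff.2 ⟨hd, hm⟩⟩ k
      · have key : ∀ {p q r : V}, (p, q, r) ∈ tri v a b →
            Dir (T \ tri v a b) q p ∧ ¬ Dir (T \ tri v a b) p q := by
          intro p q r hr
          have hr' : (p, q, r) ∈ T := tri_sub hT h hr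
          obtain ⟨d, hd⟩ := hS.clos _ _ _ hr'
          have e : tri v a b = tri p q r := tri_of_mem hr
          rw [e]
          exact ⟨⟨d, flip_mem_sdiff hT hr' hd⟩, dir_gone hT hr'⟩
        rintro (⟨rfl, rfl⟩ | ⟨rfl, rfl⟩ | ⟨rfl, rfl⟩)
        · exact key (mem_tri.2 (Or.inr (Or.inr rfl)))
        · exact key (mem_tri.2 (Or.inr (Or.inl rfl)))
        · exact key (mem_tri.2 (Or.inl rfl))
  have hadj1 : ∀ x y, Adj T x y ↔ Adj (T \ tri v a b) x y := fun x y =>
    ⟨fun k => clos_adj hT hS.clos h k, fun k => k.imp (fun ⟨c, hc⟩ => ⟨c, (Finset.mem_sdiff.1 hc).1⟩)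
      (fun ⟨c, hc⟩ => ⟨c, (Finset.mem_sdiff.1 hc).1⟩)⟩
  rcases peel hD1 (v := v) (a := b) (c := a) (R := []) hbd1 (by simp) with ⟨h5, _⟩ | h5
  · -- only three vertices
    exfalso
    have e : T = tri v b a ∪ tri v a b := by
      rw [← h5, Finset.sdiff_union_of_subset (tri_sub hT h)]
    have e2 : verts T ⊆ {v, a, b} := by
      rw [e, verts_union, verts_tri, verts_tri]
      intro x hx
      simp only [Finset.mem_union, Finset.mem_insert, Finset.mem_singleton] at hx ⊢
      tauto
    have e3 := Finset.card_le_card e2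
    have e4 : ({v, a, b} : Finset V).card ≤ 3 := Finset.card_le_three
    omega
  · obtain ⟨T', P, hD', hbd', hsub, hv, _, hadj⟩ := h5
    have hL : P ++ b :: (([] : List V) ++ [a]) = P ++ [b, a] := by simp
    rw [hL] at hbd'
    have hT'T : T' ⊆ T := hsub.trans Finset.sdiff_subset
    have hT' := hD'.cx
    have hadjL : ∀ x y, Adj T x y ↔
        Adj T' x y ∨ (x = v ∧ y ∈ P ++ [b, a]) ∨ (y = v ∧ x ∈ P ++ [b, a]) := by
      intro x y
      rw [hadj1, hadj]
      simp only [List.mem_append, List.mem_cons, List.not_mem_nil, or_false]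
      tauto
    have hne : ∀ {x : V}, x ∈ verts T' → x ≠ v := fun hx e => hv (e ▸ hx)
    have hadj' : ∀ {x y : V}, Adj T x y → x ≠ v → y ≠ v → Adj T' x y := by
      intro x y hxy hx hy
      rcases (hadjL x y).1 hxy with k | ⟨k, _⟩ | ⟨k, _⟩
      · exact k
      · exact absurd k hx
      · exact absurd k hy
    have vv : v ∈ verts T := vert1 h
    -- a triangle of `T` off `v` is in `T'`
    have hrest : ∀ x y z, (x, y, z) ∈ T → x ≠ v → y ≠ v → z ≠ v → (x, y, z) ∈ T' := by
      intro x y z hxyz hx hy hz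
      by_contra hno
      obtain ⟨r1, r2⟩ := rot3 hT hxyz
      have one : ∀ {p q r : V}, (p, q, r) ∈ T → (p, q, r) ∉ T' → p ≠ v → q ≠ v →
          Cyc (P ++ [b, a]) q p := by
        intro p q r hp hq e1 e2
        apply (hbd'.iff q p).1
        rw [bd_dir]
        have k1 : ¬ Dir T' p q := by
          rintro ⟨s, hs⟩
          have := hT.uniq hp (hT'T hs)
          subst this
          exact hq hs
        rcases hadj' (Or.inl ⟨r, hp⟩ : Adj T p q) e1 e2 with k | k
        · exact absurd k k1
        · exact ⟨k, k1⟩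
      have no1 : (y, z, x) ∉ T' := fun k => hno (hT'.rot (hT'.rot k))
      have no2 : (z, x, y) ∉ T' := fun k => hno (hT'.rot k)
      have c1 := one hxyz hno hx hy
      have c2 := one r1 no1 hy hz
      have c3 := one r2 no2 hz hx
      obtain ⟨m1, m2, m3⟩ := cx_ne hT hxyz
      -- `y → x`, `z → y`, `x → z`
      have hr := cyc_three hbd'.nodup c1 c3 c2 m1.symm m3.symm m2.symm
      have hb3 := hbd'.rot hr
      obtain ⟨hS3, hv3, _⟩ := close_add hD' hb3
      have hsub3 : T' ∪ tri x y z ⊆ T := Finset.union_subset hT'T (tri_sub hT hxyz)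
      have heq := sub_eq hT hS.conn hsub3 hS3.cx hS3.clos
        ⟨_, Finset.mem_union_right _ (mem_tri.2 (Or.inl rfl))⟩
      rw [← heq, hv3] at vv
      exact hv vv
    refine ⟨T', P, hD', hbd', hT'T, hv, hadjL, ?_, hrest, ?_⟩
    · intro x y
      constructor
      · intro hvyx
        obtain ⟨r1, r2⟩ := rot3 hT hvyx
        obtain ⟨m1, m2, m3⟩ := cx_ne hT hvyx
        apply (hbd'.iff x y).1
        rw [bd_dir]
        have k1 : ¬ Dir T' y x := by
          rintro ⟨s, hs⟩
          have := hT.uniq r1 (hT'T hs)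
          subst this
          exact hv (vert3 hT' hs)
        rcases hadj' (Or.inl ⟨v, r1⟩ : Adj T y x) m1.symm m3 with k | k
        · exact absurd k k1
        · exact ⟨k, k1⟩
      · intro hc
        obtain ⟨k1, k2⟩ := bd_cyc hbd' hc
        obtain ⟨z, hz⟩ := k1
        obtain ⟨w, hw⟩ := hS.clos _ _ _ (hT'T hz)
        have hx : x ≠ v := hne (vert1 hz)
        have hy : y ≠ v := hne (vert2 hT' hz)
        by_cases hwv : w = v
        · subst hwv
          exact hT.rot (hT.rot hw)
        · exact absurd ⟨w, hrest _ _ _ hw hy hx hwv⟩ k2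
    · ext x
      rw [Finset.mem_insert]
      constructor
      · intro hx
        by_cases e : x = v
        · exact Or.inl e
        · right
          obtain ⟨y, hy⟩ := (verts_adj hT).1 hx
          rcases (hadjL x y).1 hy with k | ⟨k, _⟩ | ⟨_, k⟩
          · exact (verts_adj hT').2 ⟨y, k⟩
          · exact absurd k e
          · exact hbd'.verts hT' k
      · rintro (rfl | hx)
        · exact vv
        · exact verts_mono hT'T hx

end Pool.Agent.H13.G4
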