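import Pool.Agent.H13.G4.Cone
import Pool.Agent.H13.G4.Star

/-!
# The star of an inner vertex of a disc  [row T3]
-/

set_option autoImplicit false

namespace Pool.Agent.H13.G4

open Relation Pool.Agent.H13.DA Pool.Agent.H72.G4

variable {V : Type*} [DecidableEq V] {T : Finset (V × V × V)}

/-- a disc is completed to a sphere by a cone from a new vertex -/
theorem cone_sph (hD : Disc T) {l : List V} (hl : IsBd T l) {u : V} (hu : u ∉ verts T) :
    ∃ S : Finset (V × V × V), Sph S ∧ T ⊆ S ∧ verts S = insert u (verts T) ∧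
      ∀ p q, Adj S p q ↔ Adj T p q ∨ (p = u ∧ q ∈ l) ∨ (q = u ∧ p ∈ l) := by
  have hT := hD.cx
  match l, hl with
  | [], hl => exact absurd hl.len (by simp)
  | [_], hl => exact absurd hl.len (by simp)
  | x :: y :: m, hl =>
    obtain ⟨h1, h2⟩ := ear_new hD hl hu
    have nd := h2.nodup
    have hr : (x :: u :: y :: m) ~r (u :: y :: (m ++ [x])) := ⟨1, by simp⟩
    have h3 := h2.rot hr
    have hux : u ≠ x := by
      rintro rfl
      simp at nd
    have hxy : Dir T x y := (bd_cyc hl (a := x) (b := y) (Or.inl ⟨rfl, rfl⟩)).1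
    have hxym : ∀ z ∈ x :: y :: m, z ≠ u := fun z hz e => hu (e ▸ hl.verts hT hz)
    have no : ∀ z, ¬ Adj T u z := fun z h => hu ((adj_vert hT h).1)
    have hadj : ∀ p q, Adj (T ∪ tri y x u) p q ↔ Adj T p q ∨ (p = u ∧ (q = x ∨ q = y)) ∨
        (q = u ∧ (p = x ∨ p = y)) := by
      intro p q
      rw [adj_add]
      constructor
      · rintro (h | ⟨rfl, rfl⟩ | h | h | ⟨rfl, rfl⟩ | h | h)
        · exact Or.inl h
        · exact Or.inl (Or.inr hxy)
        · exact Or.inr (Or.inr ⟨h.2, Or.inl h.1⟩)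
        · exact Or.inr (Or.inl ⟨h.1, Or.inr h.2⟩)
        · exact Or.inl (Or.inl hxy)
        · exact Or.inr (Or.inl ⟨h.2, Or.inl h.1⟩)
        · exact Or.inr (Or.inr ⟨h.1, Or.inr h.2⟩)
      · tauto
    obtain ⟨S, k1, k2, k3, k4⟩ := fan (m ++ [x]) (T ∪ tri y x u) u y h1 h3 (by
      intro z hz
      rw [List.dropLast_concat] at hz
      rw [hadj]
      simp only [List.nodup_cons, List.mem_cons, not_or] at nd
      rintro (h | ⟨_, h | h⟩ | ⟨h, _⟩)
      · exact no z h
      · subst h
        exact nd.1.2.2 hz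
      · subst h
        exact nd.2.2.1 hz
      · subst h
        exact nd.2.1.2 hz)
    refine ⟨S, k1, Finset.subset_union_left.trans k2, ?_, ?_⟩
    · rw [k3, verts_union, verts_tri]
      ext z
      simp only [Finset.mem_union, Finset.mem_insert, Finset.mem_singleton]
      have e1 := (dir_verts hT hxy).1
      have e2 := (dir_verts hT hxy).2
      constructor
      · rintro (h | rfl | rfl | rfl)
        · exact Or.inr h
        · exact Or.inr e2
        · exact Or.inr e1
        · exact Or.inl rfl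
      · rintro (rfl | h)
        · exact Or.inr (Or.inr (Or.inr rfl))
        · exact Or.inl h
    · intro p q
      rw [k4, hadj]
      simp only [List.mem_append, List.mem_cons, List.not_mem_nil, or_false]
      tauto

omit [DecidableEq V] in
/-- an edge at a vertex off the boundary has both directions -/
theorem inner_dir {l : List V} (hl : IsBd T l) {v x : V} (hv : v ∉ l) (h : Adj T v x) :
    Dir T v x ∧ Dir T x v := by
  have k1 : ¬ Cyc l v x := fun k => hv (cyc_mem k).1
  have k2 : ¬ Cyc l x v := fun k => hv (cyc_mem k).2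
  rw [← hl.iff, bd_dir] at k1 k2
  rcases h with h | h
  · by_contra hc
    exact k1 ⟨h, fun h' => hc ⟨h, h'⟩⟩
  · by_contra hc
    exact k2 ⟨h, fun h' => hc ⟨h', h⟩⟩

/-- **The link of an inner vertex of a disc.** -/
theorem link [Infinite V] (hD : Disc T) {l : List V} (hl : IsBd T l) {v : V} (hv : v ∈ verts T)
    (hvl : v ∉ l) :
    ∃ L : List V, L.Nodup ∧ 3 ≤ L.length ∧ v ∉ L ∧ (∀ x y, (v, x, y) ∈ T ↔ Cyc L x y) ∧
      (∀ x, Adj T v x ↔ x ∈ L) := by
  have hT := hD.cx
  obtain ⟨u, hu⟩ := Infinite.exists_notMem_finset (verts T)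
  obtain ⟨S, hS, hTS, hVS, hAS⟩ := cone_sph hD hl hu
  have huv : v ≠ u := fun e => hu (e ▸ hv)
  -- triangles at `v`
  have htri : ∀ x y, (v, x, y) ∈ S ↔ (v, x, y) ∈ T := by
    intro x y
    refine ⟨fun h => ?_, fun h => hTS h⟩
    have h1 : Adj S v x := Or.inl ⟨y, h⟩
    have h2 : Adj T v x := by
      rcases (hAS v x).1 h1 with k | ⟨k, _⟩ | ⟨_, k⟩
      · exact k
      · exact absurd k huv
      · exact absurd k hvl
    obtain ⟨⟨z, hz⟩, _⟩ := inner_dir hl hvl h2
    rw [hS.cx.uniq h (hTS hz)]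
    exact hz
  obtain ⟨a, ha⟩ := (verts_adj hT).1 hv
  obtain ⟨⟨b, hb⟩, _⟩ := inner_dir hl hvl ha
  have h4 : 4 ≤ (verts S).card := by
    have h1 : insert u (insert v l.toFinset) ⊆ verts S := by
      rw [hVS]
      apply Finset.insert_subset_insert
      intro z hz
      rcases Finset.mem_insert.1 hz with rfl | hz
      · exact hv
      · exact hl.verts hT (List.mem_toFinset.1 hz)
    have h2 := Finset.card_le_card h1
    have hul : u ∉ insert v l.toFinset := by
      intro h
      rcases Finset.mem_insert.1 h with h | h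
      · exact huv h.symm
      · exact hu (hl.verts hT (List.mem_toFinset.1 h))
    rw [Finset.card_insert_of_notMem hul, Finset.card_insert_of_notMem
      (fun h => hvl (List.mem_toFinset.1 h)), List.toFinset_card_of_nodup hl.nodup] at h2
    have := hl.len
    omega
  obtain ⟨T', P, a1, a2, a3, a4, a5, a6, a7, a8⟩ := star hS (hTS hb) h4
  refine ⟨(P ++ [b, a]).reverse, List.nodup_reverse.2 a2.nodup, ?_, ?_, ?_, ?_⟩
  · rw [List.length_reverse]
    exact a2.len
  · intro h
    exact a4 (a2.verts a1.cx (List.mem_reverse.1 h))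
  · intro x y
    rw [← htri, a6, cyc_reverse]
  · intro x
    rw [List.mem_reverse]
    constructor
    · intro h
      obtain ⟨⟨z, hz⟩, _⟩ := inner_dir hl hvl h
      exact (cyc_mem ((a6 z x).1 (hTS hz))).2
    · intro h
      obtain ⟨z, hz⟩ := (mem_cyc h).2
      exact Or.inl ⟨z, (htri x z).1 ((a6 z x).2 hz)⟩

end Pool.Agent.H13.G4
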