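import Pool.Agent.H13.G4.FanD

/-!
# Subdivision of an edge, flip of an edge, subdivision of a face  [row T6]

All operations keep every boundary list.
-/

set_option autoImplicit false

namespace Pool.Agent.H13.G4

open Relation Pool.Agent.H13.DA Pool.Agent.H72.G4

variable {V : Type*} [DecidableEq V] {T : Finset (V × V × V)}

theorem or_aux {A P Q C D : Prop} : (A ∨ P ∨ Q ∨ C ∨ D) ↔ ((A ∨ C ∨ D) ∨ P ∨ Q) := by
  tauto

/-- the two apices of an edge of a disc are distinct -/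
theorem apex_ne (hD : Disc T) {x y p r : V} (h1 : (x, y, p) ∈ T) (h2 : (y, x, r) ∈ T) :
    p ≠ r := by
  rintro rfl
  have hT := hD.cx
  have hX : tri x y p ∪ tri y x p ⊆ T :=
    Finset.union_subset (tri_sub hT h1) (tri_sub hT h2)
  have cX : IsCx (tri x y p ∪ tri y x p) := by
    refine ⟨?_, fun h => hT.ne (hX h), fun h h' => hT.uniq (hX h) (hX h')⟩
    intro a b c h
    rcases Finset.mem_union.1 h with h | h
    · exact Finset.mem_union_left _ (tri_rot h)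
    · exact Finset.mem_union_right _ (tri_rot h)
  have clX : Clos (tri x y p ∪ tri y x p) := by
    intro a b c h
    show Dir _ b a
    have h' : Dir (tri x y p ∪ tri y x p) a b := ⟨c, h⟩
    rw [dir_union, dir_tri, dir_tri] at h' ⊢
    tauto
  have e := sub_eq hT hD.conn hX cX clX ⟨_, Finset.mem_union_left _ (mem_tri.2 (Or.inl rfl))⟩
  obtain ⟨a, b, ⟨c, hc⟩, hb⟩ := hD.bd
  rw [← e] at hc hb
  obtain ⟨d, hd⟩ := clX _ _ _ hc
  exact hb d hd

/-- the two triangles at an inner edge -/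
theorem quad (hD : Disc T) {x y p r : V} (h1 : (x, y, p) ∈ T) (h2 : (y, x, r) ∈ T) :
    [x, r, y, p].Nodup ∧ Disc (pc x [r, y, p]) ∧ IsBd (pc x [r, y, p]) [x, r, y, p] ∧
      pc x [r, y, p] ⊆ T ∧
      (∀ a b, (Adj T a b ∧ ¬ (a = x ∧ b = y) ∧ ¬ (a = y ∧ b = x)) ↔
        Adj (T \ pc x [r, y, p]) a b ∨ Cyc [x, r, y, p] a b ∨ Cyc [x, r, y, p] b a) := by
  have hT := hD.cx
  have hpr := apex_ne hD h1 h2
  obtain ⟨n1, n2, n3⟩ := cx_ne hT h1
  obtain ⟨_, m2, m3⟩ := cx_ne hT h2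
  have nd : [x, r, y, p].Nodup := by
    simp only [List.nodup_cons, List.mem_cons, List.not_mem_nil, or_false, not_or,
      not_false_eq_true, List.nodup_nil, and_true]
    exact ⟨⟨m2, n1, n3.symm⟩, ⟨m3, hpr.symm⟩, n2⟩
  obtain ⟨d1, d2⟩ := pc_disc x [p] r y nd
  obtain ⟨a1, a2⟩ := rot3 hT h1
  obtain ⟨b1, b2⟩ := rot3 hT h2
  have hX : pc x [r, y, p] ⊆ T := by
    rintro ⟨a, b, c⟩ h
    rw [mem_pc] at h
    simp only [Nx, or_false] at h
    rcases h with ⟨rfl, ⟨rfl, rfl⟩ | ⟨rfl, rfl⟩⟩ | ⟨rfl, ⟨rfl, rfl⟩ | ⟨rfl, rfl⟩⟩ |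
      ⟨rfl, ⟨rfl, rfl⟩ | ⟨rfl, rfl⟩⟩
    · exact b1
    · exact h1
    · exact h2
    · exact a2
    · exact b2
    · exact a1
  refine ⟨nd, d1, d2, hX, ?_⟩
  intro a b
  have cc : ∀ a b, Cyc [x, r, y, p] a b ↔
      (a = x ∧ b = r) ∨ (a = r ∧ b = y) ∨ (a = y ∧ b = p) ∨ (a = p ∧ b = x) := by
    intro a b
    rw [cyc3]
    simp only [List.cons_append, List.nil_append, Nx, or_false]
  rw [adj_split hX, adj_pc, cc, cc]
  have no : ¬ Adj (T \ pc x [r, y, p]) x y := by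
    rintro (⟨c, hc⟩ | ⟨c, hc⟩)
    · obtain ⟨k1, k2⟩ := Finset.mem_sdiff.1 hc
      have := hT.uniq k1 h1
      subst this
      exact k2 ((mem_pc _ _ _ _ _).2 (Or.inl ⟨rfl, Or.inr (Or.inl ⟨rfl, rfl⟩)⟩))
    · obtain ⟨k1, k2⟩ := Finset.mem_sdiff.1 hc
      have := hT.uniq k1 h2
      subst this
      exact k2 ((mem_pc _ _ _ _ _).2 (Or.inr (Or.inl ⟨rfl, Or.inl ⟨rfl, rfl⟩⟩)))
  constructor
  · rintro ⟨k | ⟨rfl, k⟩ | ⟨rfl, k⟩ | k | k, g1, g2⟩
    · exact Or.inl k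
    · simp only [List.mem_cons, List.not_mem_nil, or_false] at k
      tauto
    · simp only [List.mem_cons, List.not_mem_nil, or_false] at k
      tauto
    · simp only [Nx, or_false] at k
      tauto
    · simp only [Nx, or_false] at k
      tauto
  · rintro (k | k | k)
    · refine ⟨Or.inl k, ?_, ?_⟩
      · rintro ⟨rfl, rfl⟩
        exact no k
      · rintro ⟨rfl, rfl⟩
        exact no k.symm
    · rcases k with ⟨rfl, rfl⟩ | ⟨rfl, rfl⟩ | ⟨rfl, rfl⟩ | ⟨rfl, rfl⟩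
      · exact ⟨Or.inr (Or.inl ⟨rfl, by simp⟩), fun k => m3 k.2, fun k => n1 k.1⟩
      · exact ⟨Or.inr (Or.inr (Or.inr (Or.inl (Or.inl ⟨rfl, rfl⟩)))), fun k => m2 k.1.symm,
          fun k => n1 k.2.symm⟩
      · exact ⟨Or.inr (Or.inr (Or.inr (Or.inl (Or.inr (Or.inl ⟨rfl, rfl⟩))))),
          fun k => n1 k.1.symm, fun k => n3 k.2⟩
      · exact ⟨Or.inr (Or.inr (Or.inl ⟨rfl, by simp⟩)), fun k => n1 k.2, fun k => n2 k.1.symm⟩
    · rcases k with ⟨rfl, rfl⟩ | ⟨rfl, rfl⟩ | ⟨rfl, rfl⟩ | ⟨rfl, rfl⟩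
      · exact ⟨Or.inr (Or.inr (Or.inl ⟨rfl, by simp⟩)), fun k => n1 k.2, fun k => m3 k.1⟩
      · exact ⟨Or.inr (Or.inr (Or.inr (Or.inr (Or.inl ⟨rfl, rfl⟩)))), fun k => n1 k.1.symm,
          fun k => m2 k.2.symm⟩
      · exact ⟨Or.inr (Or.inr (Or.inr (Or.inr (Or.inr (Or.inl ⟨rfl, rfl⟩))))),
          fun k => n3 k.1, fun k => n1 k.2.symm⟩
      · exact ⟨Or.inr (Or.inl ⟨rfl, by simp⟩), fun k => n2 k.2.symm, fun k => n1 k.1⟩

/-- a triangle of `T` off the edge `xy` is not in the quadrangle -/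
theorem quad_off {x y p r a b c : V} (h : (a, b, c) ∈ pc x [r, y, p]) :
    (a = x ∨ b = x ∨ c = x) ∧ (a = y ∨ b = y ∨ c = y) := by
  rw [mem_pc] at h
  simp only [Nx, or_false] at h
  tauto

/-- **A new vertex on an inner edge.** -/
theorem sub_edge (hD : Disc T) {x y p r f : V} (h1 : (x, y, p) ∈ T) (h2 : (y, x, r) ∈ T)
    (hf : f ∉ verts T) :
    ∃ T' : Finset (V × V × V), Disc T' ∧ (∀ l', IsBd T l' → IsBd T' l') ∧
      verts T' = insert f (verts T) ∧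
      (∀ a b, Adj T' a b ↔ (Adj T a b ∧ ¬ (a = x ∧ b = y) ∧ ¬ (a = y ∧ b = x)) ∨
        (a = f ∧ b ∈ [x, r, y, p]) ∨ (b = f ∧ a ∈ [x, r, y, p])) ∧
      (∀ a b c, (a, b, c) ∈ T → ¬ ((a = x ∨ b = x ∨ c = x) ∧ (a = y ∨ b = y ∨ c = y)) →
        (a, b, c) ∈ T') ∧
      (∀ a b, (f, a, b) ∈ T' ↔ Cyc [x, r, y, p] a b) := by
  have hT := hD.cx
  obtain ⟨nd, q1, q2, q3, q4⟩ := quad hD h1 h2
  have mem : ∀ z ∈ [x, r, y, p], z ∈ verts T := by
    intro z hz
    exact verts_mono q3 (q2.verts q1.cx hz)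
  have fZ : f ∉ [x, r, y, p] := fun k => hf (mem f k)
  obtain ⟨c1, c2⟩ := cone_disc f nd (by simp) fZ
  have nrest : f ∉ verts (T \ pc x [r, y, p]) := fun k => hf (verts_mono Finset.sdiff_subset k)
  obtain ⟨r1, r2⟩ := replace hD q3 q1 q2 (X' := cone f [x, r, y, p])
    (fun z hz _ => by
      rw [verts_pc] at hz
      exact hz)
    c1 c2
    (by
      intro z hz1 hz2
      rcases (verts_cone f (by simp) z).1 hz1 with rfl | hz
      · exact absurd hz2 nrest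
      · exact hz)
    (by
      intro a b k1 k2
      have k3 := adj_vert (sdiff_isCx hT q1.cx) k2
      rcases (adj_cone _ _ _ _).1 k1 with ⟨rfl, _⟩ | ⟨rfl, _⟩ | k | k
      · exact absurd k3.1 nrest
      · exact absurd k3.2.1 nrest
      · exact Or.inl k
      · exact Or.inr k)
  refine ⟨_, r1, r2, ?_, ?_, ?_, ?_⟩
  · ext z
    rw [verts_union, Finset.mem_union, verts_cone _ (by simp), Finset.mem_insert, verts_split q3,
      verts_pc]
    exact or_left_comm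
  · intro a b
    rw [adj_un, adj_cone, q4]
    exact or_aux
  · intro a b c h k
    exact Finset.mem_union_left _ (Finset.mem_sdiff.2 ⟨h, fun hm => k (quad_off hm)⟩)
  · intro a b
    rw [Finset.mem_union, mem_cone]
    constructor
    · rintro (k | ⟨_, k⟩ | ⟨k, _⟩ | ⟨k, _⟩)
      · exact absurd (vert1 k) nrest
      · exact k
      · subst k
        rename_i k
        exact absurd (cyc_mem k).2 fZ
      · subst k
        rename_i k
        exact absurd (cyc_mem k).1 fZ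
    · exact fun k => Or.inr (Or.inl ⟨rfl, k⟩)

/-- **Flip** of the inner edge `xy`. -/
theorem flip_edge (hD : Disc T) {x y p r : V} (h1 : (x, y, p) ∈ T) (h2 : (y, x, r) ∈ T)
    (hpr : ¬ Adj T p r) :
    ∃ T' : Finset (V × V × V), Disc T' ∧ (∀ l', IsBd T l' → IsBd T' l') ∧
      verts T' = verts T ∧
      (∀ a b, Adj T' a b ↔ (Adj T a b ∧ ¬ (a = x ∧ b = y) ∧ ¬ (a = y ∧ b = x)) ∨
        (a = p ∧ b = r) ∨ (a = r ∧ b = p)) ∧
      (∀ a b c, (a, b, c) ∈ T → ¬ ((a = x ∨ b = x ∨ c = x) ∧ (a = y ∨ b = y ∨ c = y)) →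
        (a, b, c) ∈ T') ∧
      (p, x, r) ∈ T' ∧ (p, r, y) ∈ T' := by
  have hT := hD.cx
  obtain ⟨nd, q1, q2, q3, q4⟩ := quad hD h1 h2
  have hr : [x, r, y, p] ~r [p, x, r, y] := ⟨3, by simp⟩
  have nd' : [p, x, r, y].Nodup := hr.nodup_iff.1 nd
  obtain ⟨c1, c2⟩ := pc_disc p [y] x r nd'
  have c2' := c2.rot hr.symm
  have cc : ∀ a b, Cyc [x, r, y, p] a b ↔
      (a = x ∧ b = r) ∨ (a = r ∧ b = y) ∨ (a = y ∧ b = p) ∨ (a = p ∧ b = x) := by
    intro a b
    rw [cyc3]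
    simp only [List.cons_append, List.nil_append, Nx, or_false]
  have hadj : ∀ a b, Adj (pc p [x, r, y]) a b ↔ ((a = p ∧ b = r) ∨ (a = r ∧ b = p)) ∨
      Cyc [x, r, y, p] a b ∨ Cyc [x, r, y, p] b a := by
    intro a b
    rw [adj_pc, cc, cc]
    simp only [List.mem_cons, List.not_mem_nil, or_false, Nx]
    tauto
  obtain ⟨r1, r2⟩ := replace hD q3 q1 q2 (X' := pc p [x, r, y])
    (fun z hz _ => by
      rw [verts_pc] at hz
      exact hz)
    c1 c2'
    (fun z hz _ => by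
      rw [verts_pc] at hz
      exact hr.mem_iff.2 hz)
    (by
      intro a b k1 k2
      rcases (hadj a b).1 k1 with (⟨rfl, rfl⟩ | ⟨rfl, rfl⟩) | k
      · exact absurd ((adj_split q3 _ _).2 (Or.inl k2)) hpr
      · exact absurd ((adj_split q3 _ _).2 (Or.inl k2)).symm hpr
      · exact k)
  refine ⟨_, r1, r2, ?_, ?_, ?_, ?_, ?_⟩
  · ext z
    rw [verts_union, Finset.mem_union, verts_pc, verts_split q3, verts_pc]
    exact or_congr Iff.rfl hr.mem_iff.symm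
  · intro a b
    rw [adj_un, hadj, q4, or_left_comm, or_comm]
  · intro a b c h k
    exact Finset.mem_union_left _ (Finset.mem_sdiff.2 ⟨h, fun hm => k (quad_off hm)⟩)
  · exact Finset.mem_union_right _ ((mem_pc _ _ _ _ _).2 (Or.inl ⟨rfl, Or.inl ⟨rfl, rfl⟩⟩))
  · exact Finset.mem_union_right _
      ((mem_pc _ _ _ _ _).2 (Or.inl ⟨rfl, Or.inr (Or.inl ⟨rfl, rfl⟩)⟩))

/-- **A new vertex in a triangle.** -/
theorem sub_face (hD : Disc T) {x y z f : V} (h : (x, y, z) ∈ T) (hf : f ∉ verts T) :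
    ∃ T' : Finset (V × V × V), Disc T' ∧ (∀ l', IsBd T l' → IsBd T' l') ∧
      verts T' = insert f (verts T) ∧
      (∀ a b, Adj T' a b ↔ Adj T a b ∨ (a = f ∧ b ∈ [x, y, z]) ∨ (b = f ∧ a ∈ [x, y, z])) ∧
      (∀ a b c, (a, b, c) ∈ T → (a, b, c) ∉ tri x y z → (a, b, c) ∈ T') ∧
      (∀ a b, (f, a, b) ∈ T' ↔ Cyc [x, y, z] a b) := by
  have hT := hD.cx
  obtain ⟨n1, n2, n3⟩ := cx_ne hT h
  have nd : [x, y, z].Nodup := by
    simp only [List.nodup_cons, List.mem_cons, List.not_mem_nil, or_false, not_or,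
      not_false_eq_true, List.nodup_nil, and_true]
    exact ⟨⟨n1, n3.symm⟩, n2⟩
  have e : pc x [y, z] = tri x y z := by simp [pc]
  obtain ⟨q1, q2⟩ := pc_disc x [] y z nd
  rw [e] at q1 q2
  have q3 := tri_sub hT h
  have mem : ∀ w ∈ [x, y, z], w ∈ verts T := by
    intro w hw
    exact verts_mono q3 (q2.verts q1.cx hw)
  have fZ : f ∉ [x, y, z] := fun k => hf (mem f k)
  obtain ⟨c1, c2⟩ := cone_disc f nd (by simp) fZ
  have nrest : f ∉ verts (T \ tri x y z) := fun k => hf (verts_mono Finset.sdiff_subset k)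
  have vt : ∀ w, w ∈ verts (tri x y z) ↔ w ∈ [x, y, z] := by
    intro w
    rw [verts_tri]
    simp
  have cc : ∀ a b, Cyc [x, y, z] a b ↔ (a = x ∧ b = y) ∨ (a = y ∧ b = z) ∨ (a = z ∧ b = x) := by
    intro a b
    rw [cyc3]
    simp only [List.nil_append, nx_two]
  obtain ⟨r1, r2⟩ := replace hD q3 q1 q2 (X' := cone f [x, y, z])
    (fun w hw _ => (vt w).1 hw)
    c1 c2
    (by
      intro w hw1 hw2
      rcases (verts_cone f (by simp) w).1 hw1 with rfl | hw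
      · exact absurd hw2 nrest
      · exact hw)
    (by
      intro a b k1 k2
      have k3 := adj_vert (sdiff_isCx hT q1.cx) k2
      rcases (adj_cone _ _ _ _).1 k1 with ⟨rfl, _⟩ | ⟨rfl, _⟩ | k | k
      · exact absurd k3.1 nrest
      · exact absurd k3.2.1 nrest
      · exact Or.inl k
      · exact Or.inr k)
  refine ⟨_, r1, r2, ?_, ?_, ?_, ?_⟩
  · ext w
    rw [verts_union, Finset.mem_union, verts_cone _ (by simp), Finset.mem_insert, verts_split q3,
      vt]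
    exact or_left_comm
  · intro a b
    rw [adj_un, adj_cone, adj_split q3]
    have : Adj (tri x y z) a b ↔ Cyc [x, y, z] a b ∨ Cyc [x, y, z] b a := by
      rw [adj_dir, dir_tri, dir_tri, cc, cc]
    rw [this]
    exact or_aux
  · intro a b c h k
    exact Finset.mem_union_left _ (Finset.mem_sdiff.2 ⟨h, k⟩)
  · intro a b
    rw [Finset.mem_union, mem_cone]
    constructor
    · rintro (k | ⟨_, k⟩ | ⟨k, k'⟩ | ⟨k, k'⟩)
      · exact absurd (vert1 k) nrest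
      · exact k
      · subst k
        exact absurd (cyc_mem k').2 fZ
      · subst k
        exact absurd (cyc_mem k').1 fZ
    · exact fun k => Or.inr (Or.inl ⟨rfl, k⟩)

end Pool.Agent.H13.G4
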