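import Pool.Agent.H13.G4.Free
import Pool.Agent.H65.G4.Min
import Pool.Agent.H96.G4.Null

/-!
# The carrier `T*` of a minimal counterexample  [row M5]

Every edge of the carrier without an arc is the diagonal of a directed quad (helper96); it is
subdivided by a dummy.
-/

set_option autoImplicit false

namespace Pool.Agent.H13.G4

open Relation Pool.Agent.H13.DA Pool.Agent.H72.G4 Pool.Agent.H65.G4 Pool.Agent.H96.G4

variable {V : Type*} [DecidableEq V] {T : Finset (V × V × V)} {D : V → V → Prop} {a b c : V}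

omit [DecidableEq V] in
theorem face_rot (hT : IsCx T) {x y z : V} (h : Face T x y z) : Face T y z x := by
  rcases h with h | h
  · exact Or.inl (hT.rot h)
  · exact Or.inr (hT.rot (hT.rot h))

omit [DecidableEq V] in
theorem tface_swap {x y z : V} (h : Face T x y z) : Face T x z y := h.symm

/-- the invariant: some null edges are subdivided -/
structure Inv (T : Finset (V × V × V)) (D : V → V → Prop) (a b c : V) : Prop where
  pl : Pl T D [a, b, c]
  du : ∀ x, x ∈ verts T → ¬ Re D x → ∃ x1 x2 x3 x4, D x1 x2 ∧ D x2 x3 ∧ D x3 x4 ∧ D x4 x1 ∧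
    (∀ y, Adj T x y ↔ y = x1 ∨ y = x2 ∨ y = x3 ∨ y = x4) ∧
    Face T x x1 x2 ∧ Face T x x2 x3 ∧ Face T x x3 x4 ∧ Face T x x4 x1
  nu : ∀ x y, Adj T x y → Re D x → Re D y → ¬ Ar D x y → ∃ p r, (x, y, p) ∈ T ∧ (y, x, r) ∈ T ∧
    ((D x p ∧ D p y ∧ D y r ∧ D r x) ∨ (D y p ∧ D p x ∧ D x r ∧ D r y))
  fc : ∀ x y z, Ar D x y → Ar D y z → Ar D z x →
    Face T x y z ∨ (Tr a b c x ∧ Tr a b c y ∧ Tr a b c z)

open Classical in
/-- the null edges -/
noncomputable def nul (D : V → V → Prop) (T : Finset (V × V × V)) : Finset (V × V) :=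
  (verts T ×ˢ verts T).filter fun q => Adj T q.1 q.2 ∧ Re D q.1 ∧ Re D q.2 ∧ ¬ Ar D q.1 q.2

theorem mem_nul (hT : IsCx T) {x y : V} :
    (x, y) ∈ nul D T ↔ Adj T x y ∧ Re D x ∧ Re D y ∧ ¬ Ar D x y := by
  classical
  unfold nul
  rw [Finset.mem_filter, Finset.mem_product]
  constructor
  · exact fun h => h.2
  · intro h
    have := adj_vert hT h.1
    exact ⟨⟨this.1, this.2.1⟩, h⟩

theorem inv_step (hI : Inv T D a b c) {x y : V} (hxy : Adj T x y) (hx : Re D x) (hy : Re D y)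
    (hno : ¬ Ar D x y) [Infinite V] :
    ∃ T' : Finset (V × V × V), Inv T' D a b c ∧ (nul D T').card < (nul D T).card := by
  have hD := hI.pl.disc
  have hT := hD.cx
  obtain ⟨p, r, f1, f2, hq⟩ := hI.nu x y hxy hx hy hno
  obtain ⟨f, hf⟩ := Infinite.exists_notMem_finset (verts T)
  obtain ⟨T', t1, t2, t3, t4, t5, t6⟩ := sub_edge hD f1 f2 hf
  have hT' := t1.cx
  have fre : ¬ Re D f := fun h => hf (hI.pl.re_mem h)
  have nf : ∀ z, ¬ Adj T f z := fun z h => hf (adj_vert hT h).1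
  -- the four vertices are real
  have hZ : ∀ z ∈ [x, r, y, p], Re D z := by
    intro z hz
    simp only [List.mem_cons, List.not_mem_nil, or_false] at hz
    rcases hz with rfl | rfl | rfl | rfl
    · exact hx
    · rcases hq with ⟨_, _, _, h⟩ | ⟨_, _, _, h⟩
      · exact ⟨_, Or.inl h⟩
      · exact ⟨_, Or.inl h⟩
    · exact hy
    · rcases hq with ⟨_, h, _, _⟩ | ⟨_, h, _, _⟩
      · exact ⟨_, Or.inl h⟩
      · exact ⟨_, Or.inl h⟩
  -- adjacency between real vertices
  have adjR : ∀ {u w : V}, Re D u → Re D w →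
      (Adj T' u w ↔ Adj T u w ∧ ¬ (u = x ∧ w = y) ∧ ¬ (u = y ∧ w = x)) := by
    intro u w hu hw
    rw [t4]
    constructor
    · rintro (h | ⟨rfl, _⟩ | ⟨rfl, _⟩)
      · exact h
      · exact absurd hu fre
      · exact absurd hw fre
    · exact Or.inl
  -- faces without the null edge survive
  have keep : ∀ {u v w : V}, (u, v, w) ∈ T →
      ¬ ((u = x ∨ v = x ∨ w = x) ∧ (u = y ∨ v = y ∨ w = y)) → (u, v, w) ∈ T' :=
    fun h k => t5 _ _ _ h k
  have nxy : x ≠ y := (adj_vert hT hxy).2.2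
  have hno' : ¬ Ar D y x := fun h => hno (Or.symm h)
  -- an arc is not the null edge
  have notnull : ∀ {u w : V}, Ar D u w → ¬ (u = x ∧ w = y) ∧ ¬ (u = y ∧ w = x) := by
    intro u w h
    constructor
    · rintro ⟨rfl, rfl⟩
      exact hno h
    · rintro ⟨rfl, rfl⟩
      exact hno' h
  -- three vertices, no pair of them the null edge
  have no3 : ∀ {u v w : V}, (¬ (u = x ∧ v = y) ∧ ¬ (u = y ∧ v = x)) →
      (¬ (v = x ∧ w = y) ∧ ¬ (v = y ∧ w = x)) → (¬ (w = x ∧ u = y) ∧ ¬ (w = y ∧ u = x)) →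
      ¬ ((u = x ∨ v = x ∨ w = x) ∧ (u = y ∨ v = y ∨ w = y)) := by
    intro u v w h1 h2 h3
    rintro ⟨rfl | rfl | rfl, rfl | rfl | rfl⟩
    · exact nxy rfl
    · exact h1.1 ⟨rfl, rfl⟩
    · exact h3.2 ⟨rfl, rfl⟩
    · exact h1.2 ⟨rfl, rfl⟩
    · exact nxy rfl
    · exact h2.1 ⟨rfl, rfl⟩
    · exact h3.1 ⟨rfl, rfl⟩
    · exact h2.2 ⟨rfl, rfl⟩
    · exact nxy rfl
  -- pairs with a vertex which is not real
  have nn : ∀ {u w : V}, ¬ Re D u → ¬ (u = x ∧ w = y) ∧ ¬ (u = y ∧ w = x) := by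
    intro u w h
    constructor
    · rintro ⟨rfl, _⟩
      exact h hx
    · rintro ⟨rfl, _⟩
      exact h hy
  have nn' : ∀ {u w : V}, ¬ Re D u → ¬ (w = x ∧ u = y) ∧ ¬ (w = y ∧ u = x) := by
    intro u w h
    constructor
    · rintro ⟨_, rfl⟩
      exact h hy
    · rintro ⟨_, rfl⟩
      exact h hx
  refine ⟨T', ⟨⟨t1, t2 _ hI.pl.bd, ?_, hI.pl.asymm, hI.pl.tri⟩, ?_, ?_, ?_⟩, ?_⟩
  · intro u w h
    have hu : Re D u := ⟨w, Or.inl h⟩
    have hw : Re D w := ⟨u, Or.inr h⟩
    exact (adjR hu hw).2 ⟨hI.pl.adj u w h, notnull (Or.inl h)⟩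
  · -- dummies
    intro z hz hzr
    rw [t3, Finset.mem_insert] at hz
    rcases hz with rfl | hz
    · have hadj : ∀ w, Adj T' z w ↔ w ∈ [x, r, y, p] := by
        intro w
        rw [t4]
        constructor
        · rintro (⟨h, _⟩ | ⟨_, h⟩ | ⟨rfl, h⟩)
          · exact absurd h (nf w)
          · exact h
          · exact absurd (hZ _ h) fre
        · exact fun h => Or.inr (Or.inl ⟨rfl, h⟩)
      have cc : ∀ a b, (z, a, b) ∈ T' ↔
          (a = x ∧ b = r) ∨ (a = r ∧ b = y) ∨ (a = y ∧ b = p) ∨ (a = p ∧ b = x) := by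
        intro a b
        rw [t6, cyc3]
        simp only [List.cons_append, List.nil_append, Nx, or_false]
      have g1 : (z, x, r) ∈ T' := (cc _ _).2 (Or.inl ⟨rfl, rfl⟩)
      have g2 : (z, r, y) ∈ T' := (cc _ _).2 (Or.inr (Or.inl ⟨rfl, rfl⟩))
      have g3 : (z, y, p) ∈ T' := (cc _ _).2 (Or.inr (Or.inr (Or.inl ⟨rfl, rfl⟩)))
      have g4 : (z, p, x) ∈ T' := (cc _ _).2 (Or.inr (Or.inr (Or.inr ⟨rfl, rfl⟩)))
      rcases hq with ⟨h1, h2, h3, h4⟩ | ⟨h1, h2, h3, h4⟩
      · refine ⟨x, p, y, r, h1, h2, h3, h4, ?_, Or.inr g4, Or.inr g3, Or.inr g2, Or.inr g1⟩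
        intro w
        rw [hadj]
        simp only [List.mem_cons, List.not_mem_nil, or_false]
        tauto
      · refine ⟨x, r, y, p, h3, h4, h1, h2, ?_, Or.inl g1, Or.inl g2, Or.inl g3, Or.inl g4⟩
        intro w
        rw [hadj]
        simp only [List.mem_cons, List.not_mem_nil, or_false]
    · obtain ⟨x1, x2, x3, x4, a1, a2, a3, a4, a5, b1, b2, b3, b4⟩ := hI.du z hz hzr
      have fk : ∀ {u w : V}, D u w → Face T z u w → Face T' z u w := by
        intro u w huw h
        rcases h with h | h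
        · exact Or.inl (keep h (no3 (nn hzr) (notnull (Or.inl huw)) (nn' hzr)))
        · exact Or.inr (keep h (no3 (nn hzr) (notnull (Or.inr huw)) (nn' hzr)))
      refine ⟨x1, x2, x3, x4, a1, a2, a3, a4, ?_, fk a1 b1, fk a2 b2, fk a3 b3, fk a4 b4⟩
      intro w
      rw [← a5, t4]
      constructor
      · rintro (⟨h, _⟩ | ⟨rfl, h⟩ | ⟨rfl, h⟩)
        · exact h
        · exact absurd hz hf
        · exact absurd (hZ _ h) hzr
      · exact fun h => Or.inl ⟨h, nn hzr⟩
  · -- null edges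
    intro u w h hu hw hn
    obtain ⟨h1, h2⟩ := (adjR hu hw).1 h
    obtain ⟨p', r', k1, k2, k3⟩ := hI.nu u w h1 hu hw hn
    refine ⟨p', r', keep k1 ?_, keep k2 ?_, k3⟩
    · refine no3 h2 ?_ ?_
      · rcases k3 with ⟨_, k, _, _⟩ | ⟨k, _, _, _⟩
        · exact notnull (Or.inr k)
        · exact notnull (Or.inl k)
      · rcases k3 with ⟨k, _, _, _⟩ | ⟨_, k, _, _⟩
        · exact notnull (Or.inr k)
        · exact notnull (Or.inl k)
    · refine no3 ⟨fun k => h2.2 ⟨k.2, k.1⟩, fun k => h2.1 ⟨k.2, k.1⟩⟩ ?_ ?_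
      · rcases k3 with ⟨_, _, _, k⟩ | ⟨_, _, k, _⟩
        · exact notnull (Or.inr k)
        · exact notnull (Or.inl k)
      · rcases k3 with ⟨_, _, k, _⟩ | ⟨_, _, _, k⟩
        · exact notnull (Or.inr k)
        · exact notnull (Or.inl k)
  · -- real 3-cycles
    intro u v w h1 h2 h3
    rcases hI.fc u v w h1 h2 h3 with h | h
    · left
      rcases h with h | h
      · exact Or.inl (keep h (no3 (notnull h1) (notnull h2) (notnull h3)))
      · exact Or.inr (keep h (no3 (notnull (ar_symm h3)) (notnull (ar_symm h2))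
          (notnull (ar_symm h1))))
    · exact Or.inr h
  · apply Finset.card_lt_card
    refine Finset.ssubset_iff_subset_ne.2 ⟨?_, ?_⟩
    · rintro ⟨u, w⟩ h
      obtain ⟨h1, h2, h3, h4⟩ := (mem_nul hT').1 h
      exact (mem_nul hT).2 ⟨((adjR h2 h3).1 h1).1, h2, h3, h4⟩
    · intro e
      have h : (x, y) ∈ nul D T := (mem_nul hT).2 ⟨hxy, hx, hy, hno⟩
      rw [← e] at h
      obtain ⟨h1, h2, h3, h4⟩ := (mem_nul hT').1 h
      exact ((adjR h2 h3).1 h1).2.1 ⟨rfl, rfl⟩

theorem inv_all [Infinite V] (n : ℕ) : ∀ T : Finset (V × V × V), (nul D T).card ≤ n →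
    Inv T D a b c →
    ∃ T' : Finset (V × V × V), Inv T' D a b c ∧
      ∀ x y, Adj T' x y → Re D x → Re D y → Ar D x y := by
  induction n with
  | zero =>
    intro T hn hI
    refine ⟨T, hI, ?_⟩
    intro x y h hx hy
    by_contra hno
    have h1 : (x, y) ∈ nul D T := (mem_nul hI.pl.disc.cx).2 ⟨h, hx, hy, hno⟩
    have := Finset.card_ne_zero_of_mem h1
    omega
  | succ n ih =>
    intro T hn hI
    by_cases hc : ∀ x y, Adj T x y → Re D x → Re D y → Ar D x y
    · exact ⟨T, hI, hc⟩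
    · push Not at hc
      obtain ⟨x, y, h, hx, hy, hno⟩ := hc
      obtain ⟨T', h1, h2⟩ := inv_step hI h hx hy hno
      exact ih T' (by omega) h1

/-- two real neighbours of a dummy, joined by an arc, are consecutive on the quad -/
theorem quad_face (hI : Inv T D a b c) {x y z : V} (hx : x ∈ verts T) (hxr : ¬ Re D x)
    (h1 : Adj T x y) (h2 : Adj T x z) (h3 : Ar D y z) : Face T x y z := by
  obtain ⟨x1, x2, x3, x4, a1, a2, a3, a4, a5, b1, b2, b3, b4⟩ := hI.du x hx hxr
  have irr : ∀ u, ¬ Ar D u u := fun u h => by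
    rcases h with h | h
    · exact hI.pl.asymm u u h h
    · exact hI.pl.asymm u u h h
  have n13 : ¬ Ar D x1 x3 := by
    rintro (h | h)
    · exact hI.pl.tri _ _ _ h a3 a4
    · exact hI.pl.tri _ _ _ a1 a2 h
  have n24 : ¬ Ar D x2 x4 := by
    rintro (h | h)
    · exact hI.pl.tri _ _ _ h a4 a1
    · exact hI.pl.tri _ _ _ a2 a3 h
  rcases (a5 y).1 h1 with rfl | rfl | rfl | rfl <;> rcases (a5 z).1 h2 with rfl | rfl | rfl | rfl
  · exact absurd h3 (irr _)
  · exact b1
  · exact absurd h3 n13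
  · exact tface_swap b4
  · exact tface_swap b1
  · exact absurd h3 (irr _)
  · exact b2
  · exact absurd h3 n24
  · exact absurd (ar_symm h3) n13
  · exact tface_swap b2
  · exact absurd h3 (irr _)
  · exact b3
  · exact b4
  · exact absurd (ar_symm h3) n24
  · exact tface_swap b3
  · exact absurd h3 (irr _)

/-- a neighbour of a dummy is real -/
theorem dummy_nbr (hI : Inv T D a b c) {x y : V} (hxr : ¬ Re D x) (h : Adj T x y) : Re D y := by
  obtain ⟨x1, x2, x3, x4, a1, a2, a3, a4, a5, _⟩ :=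
    hI.du x (adj_vert hI.pl.disc.cx h).1 hxr
  rcases (a5 y).1 h with rfl | rfl | rfl | rfl
  · exact ⟨_, Or.inl a1⟩
  · exact ⟨_, Or.inl a2⟩
  · exact ⟨_, Or.inl a3⟩
  · exact ⟨_, Or.inl a4⟩

/-- **M5**: a minimal counterexample has a carrier `T*` -/
theorem tstar [Infinite V] (h : MC T D a b c) :
    ∃ T' : Finset (V × V × V), Ts T' D a b c ∧ MCw T' D a b c := by
  have hre : ∀ v, v ∈ verts T → Re D v := fun v hv => no_fake h hv
  have hnd := h.pl.bd.nodup
  have hI : Inv T D a b c := by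
    refine ⟨h.pl, fun x hx hxr => absurd (hre x hx) hxr, ?_, ?_⟩
    · intro x y hxy _ _ hno
      exact null_quad h.pl h.out h.bad h.min2 hre hxy hno
    · intro x y z h1 h2 h3
      by_cases hout : ∃ v ∈ [a, b, c], v ∉ [x, y, z]
      · left
        rcases real_face h hre h1 h2 h3 hout with k | k
        · exact Or.inl k
        · exact Or.inr (h.pl.disc.cx.rot k)
      · right
        push Not at hout
        have n1 := ar_ne h.pl.disc.cx h.pl h1
        have n2 := ar_ne h.pl.disc.cx h.pl h2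
        have n3 := ar_ne h.pl.disc.cx h.pl h3
        have e1 := hout a (by simp)
        have e2 := hout b (by simp)
        have e3 := hout c (by simp)
        simp only [List.mem_cons, List.not_mem_nil, or_false] at e1 e2 e3
        simp only [List.nodup_cons, List.mem_cons, List.not_mem_nil, or_false, not_or,
          not_false_eq_true, List.nodup_nil, and_true] at hnd
        obtain ⟨⟨m1, m2⟩, m3⟩ := hnd
        unfold Tr
        rcases e1 with rfl | rfl | rfl <;> rcases e2 with rfl | rfl | rfl <;>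
          rcases e3 with rfl | rfl | rfl <;> simp_all
  obtain ⟨T', hI', hnn⟩ := inv_all _ T le_rfl hI
  have hT' := hI'.pl.disc.cx
  refine ⟨T', ⟨hI'.pl, h.out, ?_, hnn, ?_, ?_⟩, ⟨hI'.pl, h.out, h.bad, h.min1, h.min2⟩⟩
  · intro x hx hxr
    obtain ⟨x1, x2, x3, x4, a1, a2, a3, a4, a5, _⟩ := hI'.du x hx hxr
    exact ⟨x1, x2, x3, x4, a1, a2, a3, a4, a5⟩
  · intro x y z h1 h2 h3
    by_cases hx : Re D x
    · by_cases hy : Re D y
      · by_cases hz : Re D z
        · exact hI'.fc x y z (hnn x y h1 hx hy) (hnn y z h2 hy hz) (hnn z x h3 hz hx)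
        · left
          have := quad_face hI' (adj_vert hT' h3).1 hz h3 h2.symm (hnn x y h1 hx hy)
          exact face_rot hT' this
      · left
        have hz := dummy_nbr hI' hy h2
        have := quad_face hI' (adj_vert hT' h2).1 hy h2 h1.symm (hnn z x h3 hz hx)
        exact face_rot hT' (face_rot hT' this)
    · left
      have hy := dummy_nbr hI' hx h1
      have hz := dummy_nbr hI' hx h3.symm
      exact quad_face hI' (adj_vert hT' h1).1 hx h1 h3.symm (hnn y z h2 hy hz)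
  · intro v hv hvt
    unfold Tr at hvt
    push Not at hvt
    obtain ⟨k1, k2, k3⟩ := hvt
    obtain ⟨x, hx⟩ := no_source h hv k1 k2 k3
    obtain ⟨y, hy⟩ := no_sink h hv k1 k2 k3
    exact ⟨⟨x, hx⟩, ⟨y, hy⟩⟩

end Pool.Agent.H13.G4
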